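import Pool.Agent.H666R3.NG.Ring

/-!
# The first Čech cohomology of the Fermat quartic
-/

set_option autoImplicit false

open Polynomial Module

namespace Pool.Agent.H666R3.NG.Fermat

section lin

variable {K M ι : Type*} [Field K] [AddCommGroup M] [Module K M]

lemma finrank_quot (b : Basis ι K M) (I : Set ι) (hI : Iᶜ.Finite) :
    Module.Finite K (M ⧸ Submodule.span K (b '' I)) ∧
      finrank K (M ⧸ Submodule.span K (b '' I)) = Iᶜ.ncard := by
  classical
  have := hI.fintype
  let φ : M →ₗ[K] (↥Iᶜ → K) := LinearMap.pi (fun i => b.coord i)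
  have hker : LinearMap.ker φ = Submodule.span K (b '' I) := by
    ext m
    rw [b.mem_span_image, LinearMap.mem_ker]
    constructor
    · intro h i hi
      by_contra hcon
      have h1 := congrFun h ⟨i, hcon⟩
      exact (Finsupp.mem_support_iff.1 hi) h1
    · intro h
      funext i
      by_contra hcon
      exact i.2 (h (Finsupp.mem_support_iff.2 hcon))
  have hsurj : Function.Surjective φ := by
    intro v
    refine ⟨∑ j, v j • b j, ?_⟩
    funext i
    change b.repr (∑ j, v j • b j) i = v i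
    rw [map_sum, Finsupp.finsetSum_apply, Finset.sum_eq_single i]
    · simp
    · intro j _ hj
      rw [map_smul, Basis.repr_self, Finsupp.smul_apply, Finsupp.single_eq_of_ne, smul_zero]
      intro h
      exact hj (Subtype.ext h.symm)
    · intro h
      exact absurd (Finset.mem_univ _) h
  have e := φ.quotKerEquivOfSurjective hsurj
  rw [← hker]
  refine ⟨Module.Finite.equiv e.symm, ?_⟩
  rw [e.finrank_eq, Module.finrank_fintype_fun_eq_card, Set.ncard_eq_toFinset_card', Set.toFinset_card]

end lin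

section ring

variable (K : Type) [Field K]

lemma natDegree_pol : (pol K).natDegree = 4 := by
  unfold pol
  compute_degree!

/-- The basis `1, y, y², y³` over `K[x]`. -/
noncomputable def bA : Basis (Fin 4) K[X] (A K) :=
  (AdjoinRoot.powerBasis' (pol_monic K)).basis.reindex (finCongr (natDegree_pol K))

lemma bA_apply (i : Fin 4) : bA K i = y K ^ (i : ℕ) := by
  unfold bA
  rw [Basis.reindex_apply, PowerBasis.basis_eq_pow]
  rfl

lemma span_A : Submodule.span K (Set.range fun p : ℕ × Fin 4 => x K ^ p.1 * y K ^ (p.2 : ℕ)) = ⊤ := by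
  let b : Basis (ℕ × Fin 4) K (A K) := (Polynomial.basisMonomials K).smulTower (bA K)
  have hb : (fun p : ℕ × Fin 4 => x K ^ p.1 * y K ^ (p.2 : ℕ)) = b := by
    funext p
    rw [Basis.smulTower_apply, bA_apply, Polynomial.coe_basisMonomials, Algebra.smul_def]
    congr 1
    have : (monomial p.1 1 : K[X]) = X ^ p.1 := by
      rw [← X_pow_eq_monomial]
    change _ = algebraMap K[X] (A K) (monomial p.1 1)
    rw [this, map_pow]
    rfl
  rw [hb, b.span_eq]

variable {K}
variable {B : Type} [CommRing B] [Algebra K B]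

lemma range_eq_span (r : A K →ₐ[K] B) :
    LinearMap.range r.toLinearMap =
      Submodule.span K (Set.range fun p : ℕ × Fin 4 => r (x K) ^ p.1 * r (y K) ^ (p.2 : ℕ)) := by
  rw [← Submodule.map_top, ← span_A, Submodule.map_span, ← Set.range_comp]
  congr 2
  funext p
  simp

variable [Algebra (A K) B] [IsScalarTower K (A K) B] [IsLocalization.Away (x K) B]

lemma exists_basis (u : Bˣ) (hu : (u : B) = algebraMap (A K) B (x K)) :
    ∃ b : Basis (ℤ × Fin 4) K B, ∀ p, b p = ((u ^ p.1 : Bˣ) : B) *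
      (algebraMap (A K) B (y K)) ^ (p.2 : ℕ) := by
  let i1 : Algebra K[X] B := ((algebraMap (A K) B).comp (algebraMap K[X] (A K))).toAlgebra
  have t1 : IsScalarTower K[X] (A K) B := IsScalarTower.of_algebraMap_eq (fun r => rfl)
  let i2 : Algebra (LaurentPolynomial K) B := (LaurentPolynomial.eval₂ (algebraMap K B) u).toAlgebra
  have t2 : IsScalarTower K[X] (LaurentPolynomial K) B := by
    apply IsScalarTower.of_algebraMap_eq'
    apply Polynomial.ringHom_ext
    · intro a
      change algebraMap (A K) B (algebraMap K[X] (A K) (C a)) =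
        LaurentPolynomial.eval₂ (algebraMap K B) u (Polynomial.toLaurent (C a))
      rw [LaurentPolynomial.eval₂_toLaurent, eval₂_C, IsScalarTower.algebraMap_apply K (A K) B]
      rfl
    · change algebraMap (A K) B (algebraMap K[X] (A K) X) =
        LaurentPolynomial.eval₂ (algebraMap K B) u (Polynomial.toLaurent X)
      rw [LaurentPolynomial.eval₂_toLaurent, eval₂_X, hu]
      rfl
  have t3 : IsScalarTower K (LaurentPolynomial K) B := by
    apply IsScalarTower.of_algebraMap_eq
    intro a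
    change _ = LaurentPolynomial.eval₂ (algebraMap K B) u (LaurentPolynomial.C a)
    rw [LaurentPolynomial.eval₂_C]
  have l1 : IsLocalization (Algebra.algebraMapSubmonoid (A K) (Submonoid.powers (X : K[X]))) B := by
    rw [Algebra.algebraMapSubmonoid_powers]
    exact inferInstanceAs (IsLocalization.Away (x K) B)
  let bL : Basis (Fin 4) (LaurentPolynomial K) B :=
    (bA K).localizationLocalization (LaurentPolynomial K) (Submonoid.powers (X : K[X])) B
  refine ⟨(AddMonoidAlgebra.basis ℤ K).smulTower bL, fun p => ?_⟩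
  rw [Basis.smulTower_apply, Basis.localizationLocalization_apply, bA_apply,
    AddMonoidAlgebra.basis_apply, Algebra.smul_def, map_pow]
  congr 1
  change LaurentPolynomial.eval₂ (algebraMap K B) u (LaurentPolynomial.T p.1) = _
  rw [LaurentPolynomial.eval₂_T]

/-- The computation of the Čech cohomology. -/
theorem cech (u : Bˣ) (hu : (u : B) = algebraMap (A K) B (x K)) (r : A K →ₐ[K] B)
    (h1 : r (x K) = ((u⁻¹ : Bˣ) : B))
    (h2 : r (y K) = algebraMap (A K) B (y K) * ((u⁻¹ : Bˣ) : B)) :
    Module.Finite K (B ⧸ (LinearMap.range r.toLinearMap ⊔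
      LinearMap.range (IsScalarTower.toAlgHom K (A K) B).toLinearMap)) ∧
    finrank K (B ⧸ (LinearMap.range r.toLinearMap ⊔
      LinearMap.range (IsScalarTower.toAlgHom K (A K) B).toLinearMap)) = 3 := by
  obtain ⟨b, hb⟩ := exists_basis (K := K) u hu
  have e1 : LinearMap.range r.toLinearMap = Submodule.span K (b '' {p | p.1 + (p.2 : ℕ) ≤ 0}) := by
    rw [range_eq_span]
    congr 1
    ext z
    constructor
    · rintro ⟨⟨n, i⟩, rfl⟩
      refine ⟨(-(n + (i : ℕ) : ℤ), i), by simp, ?_⟩
      rw [hb]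
      simp only [h1, h2]
      rw [mul_pow, ← Units.val_pow_eq_pow_val, ← Units.val_pow_eq_pow_val, neg_add, zpow_add,
        zpow_neg, zpow_neg, zpow_natCast, zpow_natCast, inv_pow, inv_pow, Units.val_mul]
      ring
    · rintro ⟨⟨m, i⟩, hm, rfl⟩
      have hm' : m + (i : ℕ) ≤ 0 := hm
      obtain ⟨n, hn⟩ := Int.eq_ofNat_of_zero_le (show 0 ≤ -(m + (i : ℕ)) by omega)
      refine ⟨(n, i), ?_⟩
      have hm2 : m = -(n + (i : ℕ) : ℤ) := by
        have : ((n : ℕ) : ℤ) = Int.ofNat n := rfl
        omega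
      rw [hb]
      simp only [h1, h2]
      rw [hm2, mul_pow, ← Units.val_pow_eq_pow_val, ← Units.val_pow_eq_pow_val, neg_add, zpow_add,
        zpow_neg, zpow_neg, zpow_natCast, zpow_natCast, inv_pow, inv_pow, Units.val_mul]
      ring
  have e2 : LinearMap.range (IsScalarTower.toAlgHom K (A K) B).toLinearMap =
      Submodule.span K (b '' {p | 0 ≤ p.1}) := by
    rw [range_eq_span]
    congr 1
    ext z
    constructor
    · rintro ⟨⟨n, i⟩, rfl⟩
      refine ⟨((n : ℤ), i), by simp, ?_⟩
      rw [hb]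
      simp only [IsScalarTower.coe_toAlgHom', ← hu]
      rw [zpow_natCast, Units.val_pow_eq_pow_val]
    · rintro ⟨⟨m, i⟩, hm, rfl⟩
      obtain ⟨n, rfl⟩ := Int.eq_ofNat_of_zero_le (show 0 ≤ m from hm)
      refine ⟨(n, i), ?_⟩
      rw [hb]
      simp only [IsScalarTower.coe_toAlgHom', ← hu]
      rw [zpow_natCast, Units.val_pow_eq_pow_val]
  have e3 : LinearMap.range r.toLinearMap ⊔
      LinearMap.range (IsScalarTower.toAlgHom K (A K) B).toLinearMap =
      Submodule.span K (b '' ({p | p.1 + (p.2 : ℕ) ≤ 0} ∪ {p | 0 ≤ p.1})) := by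
    rw [e1, e2, ← Submodule.span_union, Set.image_union]
  have e4 : ({p : ℤ × Fin 4 | p.1 + (p.2 : ℕ) ≤ 0} ∪ {p | 0 ≤ p.1})ᶜ =
      (({(-1, 2), (-1, 3), (-2, 3)} : Finset (ℤ × Fin 4)) : Set (ℤ × Fin 4)) := by
    ext ⟨m, i⟩
    simp only [Set.mem_compl_iff, Set.mem_union, Set.mem_ofPred_eq, Finset.coe_insert,
      Finset.coe_singleton, Set.mem_insert_iff, Set.mem_singleton_iff, Prod.mk.injEq, Fin.ext_iff]
    have := i.isLt
    change _ ↔ ((m = -1 ∧ (i : ℕ) = 2) ∨ (m = -1 ∧ (i : ℕ) = 3) ∨ (m = -2 ∧ (i : ℕ) = 3))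
    omega
  rw [e3]
  have hfin := finrank_quot b ({p | p.1 + (p.2 : ℕ) ≤ 0} ∪ {p | 0 ≤ p.1}) (by
    rw [e4]; exact Finset.finite_toSet _)
  refine ⟨hfin.1, ?_⟩
  rw [hfin.2, e4, Set.ncard_coe_finset]
  rfl

end ring

end Pool.Agent.H666R3.NG.Fermat
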