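import Mathlib

/-!
# The affine Fermat quartic `x⁴ + y⁴ + 1 = 0`
-/

set_option autoImplicit false

open Polynomial

namespace Pool.Agent.H666R3.NG.Fermat

section basic

variable (R : Type) [CommRing R]

/-- The polynomial `y⁴ + (x⁴ + 1)` in `R[x][y]`. -/
noncomputable def pol : R[X][X] := X ^ 4 + C (X ^ 4 + 1)

/-- The coordinate ring of the affine Fermat quartic. -/
abbrev A : Type := AdjoinRoot (pol R)

/-- the coordinate function `y`. -/
noncomputable def y : A R := AdjoinRoot.root (pol R)

/-- the coordinate function `x`. -/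
noncomputable def x : A R := AdjoinRoot.of (pol R) X

lemma pol_monic : (pol R).Monic := by
  unfold pol
  monicity!

lemma eval_pol {E : Type*} [CommRing E] (g : R[X] →+* E) (b : E) :
    (pol R).eval₂ g b = b ^ 4 + (g X ^ 4 + 1) := by
  rw [pol, eval₂_add, eval₂_pow, eval₂_X, eval₂_C, map_add, map_pow, map_one]

lemma rel : x R ^ 4 + y R ^ 4 + 1 = 0 := by
  have h := AdjoinRoot.eval₂_root (pol R)
  rw [eval_pol] at h
  unfold x y
  linear_combination h

variable {R}

/-- universal property. -/
noncomputable def lift {E : Type*} [CommRing E] [Algebra R E] (a b : E) (h : a ^ 4 + b ^ 4 + 1 = 0) :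
    A R →ₐ[R] E :=
  AdjoinRoot.liftAlgHom (pol R) (Polynomial.aeval a) b (by
    rw [eval_pol]
    simp
    linear_combination h)

@[simp] lemma lift_y {E : Type*} [CommRing E] [Algebra R E] (a b : E) (h : a ^ 4 + b ^ 4 + 1 = 0) :
    lift a b h (y R) = b := by
  simp [lift, y]

@[simp] lemma lift_x {E : Type*} [CommRing E] [Algebra R E] (a b : E) (h : a ^ 4 + b ^ 4 + 1 = 0) :
    lift a b h (x R) = a := by
  simp [lift, x]

lemma ext_A {E : Type*} [CommRing E] [Algebra R E] {f g : A R →ₐ[R] E} (h1 : f (x R) = g (x R))
    (h2 : f (y R) = g (y R)) : f = g := by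
  apply AlgHom.ext
  have h3 : ∀ a : R[X], f (AdjoinRoot.of (pol R) a) = g (AdjoinRoot.of (pol R) a) := by
    intro a
    induction a using Polynomial.induction_on' with
    | add p q hp hq => simp only [map_add, hp, hq]
    | monomial m r =>
      have e : AdjoinRoot.of (pol R) (monomial m r) = algebraMap R (A R) r * x R ^ m := by
        rw [← C_mul_X_pow_eq_monomial, map_mul, map_pow]
        rfl
      rw [e, map_mul, map_mul, map_pow, map_pow, h1, AlgHom.commutes, AlgHom.commutes]
  intro z
  obtain ⟨p, rfl⟩ := AdjoinRoot.mk_surjective z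
  induction p using Polynomial.induction_on' with
  | add p q hp hq => simp only [map_add, hp, hq]
  | monomial n a =>
    have e : AdjoinRoot.mk (pol R) (monomial n a) = AdjoinRoot.of (pol R) a * y R ^ n := by
      rw [← C_mul_X_pow_eq_monomial, map_mul, map_pow, AdjoinRoot.mk_X, AdjoinRoot.mk_C]
      rfl
    rw [e, map_mul, map_mul, map_pow, map_pow, h2, h3]

end basic

section domain

variable (K : Type) [Field K] (h2 : (2 : K) ≠ 0)

include h2

lemma sep : (X ^ 4 + 1 : K[X]).Separable := by
  have h4 : (4 : K) ≠ 0 := by
    have : (4 : K) = 2 * 2 := by norm_num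
    rw [this]
    exact mul_ne_zero h2 h2
  have := Polynomial.separable_X_pow_sub_C (n := 4) (-1 : K) (by exact_mod_cast h4) (by norm_num)
  simpa using this

lemma pol_irreducible : Irreducible (pol K) := by
  have hdeg : (X ^ 4 + 1 : K[X]).natDegree = 4 := by compute_degree!
  have hnu : ¬ IsUnit (X ^ 4 + 1 : K[X]) := by
    intro h
    have := natDegree_eq_zero_of_isUnit h
    omega
  obtain ⟨p, hp, hpd⟩ := WfDvdMonoid.exists_irreducible_factor hnu (by
    intro h
    rw [h] at hdeg
    simp at hdeg)
  have hpp : (Ideal.span {p} : Ideal K[X]).IsPrime := by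
    rw [Ideal.span_singleton_prime hp.ne_zero]
    exact hp.prime
  have hnd : (pol K).natDegree = 4 := by
    unfold pol
    compute_degree!
  apply Polynomial.irreducible_of_eisenstein_criterion hpp
  · rw [(pol_monic K).leadingCoeff]
    intro h
    exact hpp.ne_top ((Ideal.eq_top_iff_one _).2 h)
  · intro n hn
    rw [degree_eq_natDegree (pol_monic K).ne_zero, hnd] at hn
    have hn' : n < 4 := by exact_mod_cast hn
    unfold pol
    rw [coeff_add, coeff_X_pow, if_neg (by omega), zero_add, coeff_C]
    split_ifs
    · exact Ideal.mem_span_singleton.2 hpd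
    · exact Ideal.zero_mem _
  · rw [degree_eq_natDegree (pol_monic K).ne_zero, hnd]
    norm_num
  · unfold pol
    rw [coeff_add, coeff_X_pow, if_neg (by omega), zero_add, coeff_C_zero]
    rw [Ideal.span_singleton_pow, Ideal.mem_span_singleton]
    intro h
    have hsq := (sep K h2).squarefree
    rw [sq] at h
    exact hp.not_isUnit (hsq p h)
  · exact (pol_monic K).isPrimitive

lemma isDomain_A : IsDomain (A K) :=
  AdjoinRoot.isDomain_of_prime (pol_irreducible K h2).prime

end domain

section smooth

/-- The polynomial ring in one variable is smooth of relative dimension one. -/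
lemma smooth_poly (K : Type) [CommRing K] : Algebra.IsStandardSmoothOfRelativeDimension 1 K K[X] := by
  let v : Empty → MvPolynomial Unit K := fun e => e.elim
  let a : Empty → Unit := fun e => e.elim
  have ha : Function.Injective a := fun e => e.elim
  let P0 : Algebra.PreSubmersivePresentation K (MvPolynomial Unit K ⧸ Ideal.span (Set.range v))
      Unit Empty := Algebra.PreSubmersivePresentation.naive (v := v) a ha
  let P : Algebra.SubmersivePresentation K (MvPolynomial Unit K ⧸ Ideal.span (Set.range v))
      Unit Empty :=
    { P0 with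
      jacobian_isUnit := by
        have h : P0.jacobian = 1 := by
          rw [Algebra.PreSubmersivePresentation.jacobian_eq_jacobiMatrix_det]
          rw [Matrix.det_isEmpty, map_one]
        exact h ▸ isUnit_one }
  have h1 : Algebra.IsStandardSmoothOfRelativeDimension 1 K
      (MvPolynomial Unit K ⧸ Ideal.span (Set.range v)) := by
    apply P.isStandardSmoothOfRelativeDimension
    simp [Algebra.Presentation.dimension]
  have hbot : Ideal.span (Set.range v) = ⊥ := by
    rw [Set.range_eq_empty, Ideal.span_empty]
  let e : (MvPolynomial Unit K ⧸ Ideal.span (Set.range v)) ≃ₐ[K] K[X] :=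
    (Ideal.quotientEquivAlgOfEq K hbot).trans
      ((AlgEquiv.quotientBot K (MvPolynomial Unit K)).trans (MvPolynomial.uniqueAlgEquiv K Unit))
  exact Algebra.IsStandardSmoothOfRelativeDimension.of_algEquiv 1 e

variable (K : Type) [Field K] (h2 : (2 : K) ≠ 0)

/-- The standard etale pair. -/
noncomputable def etPair : StandardEtalePair K[X] where
  f := pol K
  monic_f := pol_monic K
  g := X
  cond := ⟨C (C (4 : K)⁻¹), 0, 3, by
    have h4 : (4 : K) ≠ 0 := by
      have : (4 : K) = 2 * 2 := by norm_num
      rw [this]
      exact mul_ne_zero h2 h2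
    have e : derivative (pol K) = C (C 4) * X ^ 3 := by
      rw [pol, derivative_add, derivative_C, derivative_X_pow, add_zero]
      simp only [Nat.cast_ofNat, Nat.add_one_sub_one, map_ofNat]
    rw [e, mul_zero, add_zero]
    calc C (C (4 : K)) * X ^ 3 * C (C 4⁻¹) = C (C (4 * 4⁻¹)) * X ^ 3 := by
          simp only [map_mul]; ring
      _ = X ^ 3 := by rw [mul_inv_cancel₀ h4]; simp⟩

include h2

lemma smooth_away_y :
    Algebra.IsStandardSmoothOfRelativeDimension 1 K (Localization.Away (y K)) := by
  have h1 : Algebra.Etale K[X] (etPair K h2).Ring := inferInstance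
  have h3 : Algebra.Etale K[X] (Localization.Away (y K)) :=
    Algebra.Etale.of_equiv (etPair K h2).equivAwayAdjoinRoot
  have h4 : Algebra.IsStandardSmoothOfRelativeDimension 0 K[X] (Localization.Away (y K)) :=
    Algebra.Etale.iff_isStandardSmoothOfRelativeDimension_zero.1 h3
  have h5 := smooth_poly K
  exact Algebra.IsStandardSmoothOfRelativeDimension.trans 1 0 K K[X] (Localization.Away (y K))

lemma smooth_away {B : Type} [CommRing B] [Algebra K B] (e : B ≃ₐ[K] A K) (t : B)
    (ht : e t = y K) : Algebra.IsStandardSmoothOfRelativeDimension 1 K (Localization.Away t) := by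
  have h1 := smooth_away_y K h2
  have H : Submonoid.map e.symm (Submonoid.powers (y K)) = Submonoid.powers t := by
    rw [Submonoid.map_powers, ← ht]
    simp
  exact Algebra.IsStandardSmoothOfRelativeDimension.of_algEquiv 1
    (IsLocalization.algEquivOfAlgEquiv (M := Submonoid.powers (y K)) (T := Submonoid.powers t)
      (Localization.Away (y K)) (Localization.Away t) e.symm H)

end smooth

end Pool.Agent.H666R3.NG.Fermat
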