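import Pool.Agent.Helper198.SchO
import Pool.Agent.H666R3.NG.Ring

/-!
# The projective Fermat quartic
-/

set_option autoImplicit false

open MvPolynomial AlgebraicGeometry CategoryTheory Limits TopologicalSpace

namespace Pool.Agent.H666R3.NG.Fermat

open Pool.Agent.Helper198.Sch

attribute [local instance] MvPolynomial.gradedAlgebra

section defs

variable (R : Type) [CommRing R]

/-- The form `X₀⁴ + X₁⁴ + X₂⁴`. -/
noncomputable def form : MvPolynomial (Fin 3) R := ∑ i, X i ^ 4

lemma form_hom : (form R).IsHomogeneous 4 := by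
  unfold form
  apply MvPolynomial.IsHomogeneous.sum
  intro i _
  simpa using (isHomogeneous_X R i).pow 4

/-- The homogeneous ideal generated by the Fermat quartic form. -/
noncomputable def J : HI (Fin 3) R :=
  HI.ofSet {form R} (by rintro f rfl; exact ⟨4, form_hom R⟩)

/-- The Fermat quartic `X₀⁴ + X₁⁴ + X₂⁴ = 0` in the projective plane. -/
noncomputable abbrev curve : Scheme.{0} := V (J R)

variable {R}

lemma aeval_form {E : Type*} [CommRing E] [Algebra R E] (u : Fin 3 → E) :
    aeval u (form R) = ∑ i, u i ^ 4 := by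
  simp [form]

lemma aeval_J {E : Type*} [CommRing E] [Algebra R E] (u : Fin 3 → E) (hu : ∑ i, u i ^ 4 = 0) :
    ∀ f ∈ (J R).toIdeal, aeval u f = 0 := by
  apply aeval_ofSet
  rintro f rfl
  rw [aeval_form, hu]

lemma sum_frac (c : Fin 3) : ∑ i, frac (J R) c i ^ 4 = 0 := by
  rw [← aeval_form (R := R)]
  exact aeval_frac_eq_zero _ _ _ (mem_ofSet rfl)

/-- an ordering `(c, a, b)` of the three coordinates. -/
structure Ord where
  c : Fin 3
  a : Fin 3
  b : Fin 3
  hab : a ≠ b
  hac : a ≠ c
  hbc : b ≠ c

lemma Ord.sum (t : Ord) {M : Type*} [AddCommMonoid M] (f : Fin 3 → M) :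
    ∑ i, f i = f t.c + f t.a + f t.b := by
  obtain ⟨c, a, b, h1, h2, h3⟩ := t
  have : (Finset.univ : Finset (Fin 3)) = {c, a, b} := by
    revert c a b; decide
  rw [this, Finset.sum_insert (by simp [h2.symm, h3.symm]), Finset.sum_insert (by simp [h1]),
    Finset.sum_singleton, add_assoc]

lemma Ord.cases (t : Ord) (i : Fin 3) : i = t.c ∨ i = t.a ∨ i = t.b := by
  obtain ⟨c, a, b, h1, h2, h3⟩ := t
  revert c a b i; decide

/-- the universal point. -/
noncomputable def pt (t : Ord) (i : Fin 3) : A R :=
  if i = t.c then 1 else if i = t.a then y R else x R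

lemma pt_c (t : Ord) : pt (R := R) t t.c = 1 := by simp [pt]
lemma pt_a (t : Ord) : pt (R := R) t t.a = y R := by simp [pt, t.hac]
lemma pt_b (t : Ord) : pt (R := R) t t.b = x R := by simp [pt, t.hbc, t.hab.symm]

lemma sum_pt (t : Ord) : ∑ i, pt (R := R) t i ^ 4 = 0 := by
  rw [t.sum, pt_c, pt_a, pt_b]
  linear_combination rel R

lemma frac_rel (t : Ord) :
    frac (J R) t.c t.b ^ 4 + frac (J R) t.c t.a ^ 4 + 1 = 0 := by
  have := sum_frac (R := R) t.c
  rw [t.sum, frac_self] at this
  linear_combination this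

/-- The chart ring is the coordinate ring of the affine Fermat quartic. -/
noncomputable def chEquiv (t : Ord) : Ch (J R) t.c ≃ₐ[R] A R :=
  AlgEquiv.ofAlgHom (chLift (J R) t.c (pt t) (pt_c t) (aeval_J _ (sum_pt t)))
    (lift (frac (J R) t.c t.b) (frac (J R) t.c t.a) (frac_rel t))
    (by
      apply ext_A
      · simp [chLift_frac, pt_b]
      · simp [chLift_frac, pt_a])
    (by
      apply ch_algHom_ext
      intro i
      rw [AlgHom.comp_apply, chLift_frac, AlgHom.id_apply]
      rcases t.cases i with rfl | rfl | rfl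
      · rw [pt_c, map_one, frac_self]
      · rw [pt_a, lift_y]
      · rw [pt_b, lift_x])

lemma chEquiv_a (t : Ord) : chEquiv (R := R) t (frac (J R) t.c t.a) = y R := by
  change chLift (J R) t.c (pt t) (pt_c t) (aeval_J _ (sum_pt t)) _ = _
  rw [chLift_frac, pt_a]

lemma chEquiv_b (t : Ord) : chEquiv (R := R) t (frac (J R) t.c t.b) = x R := by
  change chLift (J R) t.c (pt t) (pt_c t) (aeval_J _ (sum_pt t)) _ = _
  rw [chLift_frac, pt_b]

/-- every coordinate occurs as first one of an ordering. -/
lemma exists_ord (c : Fin 3) : ∃ t : Ord, t.c = c := by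
  fin_cases c
  · exact ⟨⟨0, 1, 2, by decide, by decide, by decide⟩, rfl⟩
  · exact ⟨⟨1, 0, 2, by decide, by decide, by decide⟩, rfl⟩
  · exact ⟨⟨2, 0, 1, by decide, by decide, by decide⟩, rfl⟩

/-- the swapped ordering. -/
def Ord.swap (t : Ord) : Ord := ⟨t.c, t.b, t.a, t.hab.symm, t.hbc, t.hac⟩

end defs

section smooth

variable (K : Type) [Field K] (h2 : (2 : K) ≠ 0)

include h2

set_option backward.isDefEq.respectTransparency.types false in
lemma smooth_curve : SmoothOfRelativeDimension 1 (V.str (J K)) := by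
  apply IsZariskiLocalAtSource.of_openCover
    (V.coverOf (J K) Ord.c (fun x => by
      obtain ⟨c, hc⟩ := V.exists_mem_D (J K) x
      obtain ⟨t, rfl⟩ := exists_ord c
      exact ⟨t, hc⟩)).openCover
  intro (t : Ord)
  change SmoothOfRelativeDimension 1 (V.chart (J K) t.c ≫ V.str (J K))
  rw [V.chart_str, HasRingHomProperty.Spec_iff (P := @SmoothOfRelativeDimension 1)]
  refine ⟨{frac (J K) t.c t.a, frac (J K) t.c t.b}, ?_, ?_⟩
  · rw [Ideal.eq_top_iff_one]
    have h := frac_rel (R := K) t
    have h1 : (1 : Ch (J K) t.c) = (-frac (J K) t.c t.a ^ 3) * frac (J K) t.c t.a +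
      (-frac (J K) t.c t.b ^ 3) * frac (J K) t.c t.b := by linear_combination h
    rw [h1]
    exact Ideal.add_mem _ (Ideal.mul_mem_left _ _ (Ideal.subset_span (by simp)))
      (Ideal.mul_mem_left _ _ (Ideal.subset_span (by simp)))
  · rintro s (rfl | hs)
    · have h3 := smooth_away K h2 (chEquiv t) (frac (J K) t.c t.a) (chEquiv_a t)
      have := (RingHom.isStandardSmoothOfRelativeDimension_algebraMap 1).2 h3
      rw [IsScalarTower.algebraMap_eq K (Ch (J K) t.c)] at this
      exact this
    · rw [Set.mem_singleton_iff] at hs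
      subst hs
      have h3 : Algebra.IsStandardSmoothOfRelativeDimension 1 K
          (Localization.Away (frac (J K) t.c t.b)) :=
        smooth_away K h2 (chEquiv t.swap) (frac (J K) t.c t.b) (chEquiv_a t.swap)
      have := (RingHom.isStandardSmoothOfRelativeDimension_algebraMap 1).2 h3
      rw [IsScalarTower.algebraMap_eq K (Ch (J K) t.c)] at this
      exact this

end smooth

section integral

variable (K : Type) [Field K] (h2 : (2 : K) ≠ 0)

/-- The map between Fermat curves induced by a ring homomorphism. -/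
lemma rel_J {R R' : Type} [CommRing R] [CommRing R'] (φ : R →+* R') : V.Rel φ (J R) (J R') := by
  apply rel_ofSet
  rintro f rfl
  simp [form]

lemma le_map_J {R R' : Type} [CommRing R] [CommRing R'] (φ : R →+* R') :
    (J R').toIdeal ≤ (J R).toIdeal.map (MvPolynomial.map φ) := by
  apply le_map_ofSet
  rintro f rfl
  exact ⟨form R, rfl, by simp [form]⟩

include h2

lemma frac_ne_zero (t : Ord) (i : Fin 3) : frac (J K) t.c i ≠ 0 := by
  have hd := isDomain_A K h2
  have hx : x K ≠ 0 := by
    intro h
    have h1 : AdjoinRoot.of (pol K) Polynomial.X = 0 := h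
    have h3 := AdjoinRoot.of.injective_of_degree_ne_zero (f := pol K) (by
      rw [Polynomial.degree_eq_natDegree (pol_monic K).ne_zero]
      have : (pol K).natDegree = 4 := by
        unfold pol
        compute_degree!
      rw [this]
      norm_num)
    rw [← map_zero (AdjoinRoot.of (pol K))] at h1
    exact Polynomial.X_ne_zero (h3 h1)
  rcases t.cases i with rfl | rfl | rfl
  · rw [frac_self]
    intro h
    have := congrArg (chEquiv (R := K) t) h
    rw [map_one, map_zero] at this
    exact one_ne_zero this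
  · intro h
    have h1 : chEquiv (R := K) t.swap (frac (J K) t.swap.c t.swap.b) = 0 := by
      have h' : frac (J K) t.swap.c t.swap.b = 0 := h
      rw [h', map_zero]
    exact hx ((chEquiv_b (R := K) t.swap).symm.trans h1)
  · intro h
    have := congrArg (chEquiv (R := K) t) h
    rw [map_zero, chEquiv_b] at this
    exact hx this

lemma isDomain_Ch (t : Ord) : IsDomain (Ch (J K) t.c) := by
  have hd := isDomain_A K h2
  exact (chEquiv (R := K) t).toMulEquiv.isDomain _

lemma isIntegral_curve : IsIntegral (V (J K)) := by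
  let t0 : Ord := ⟨0, 1, 2, by decide, by decide, by decide⟩
  have hd := isDomain_Ch K h2 t0
  let x0 : Spec (.of (Ch (J K) t0.c)) := (⟨⊥, Ideal.isPrime_bot⟩ : PrimeSpectrum _)
  refine V.isIntegral_of_charts (J K) (ι := Ord) Ord.c (fun x => ?_) (isDomain_Ch K h2)
    (V.chart (J K) t0.c x0) (fun t => ?_)
  · obtain ⟨c, hc⟩ := V.exists_mem_D (J K) x
    obtain ⟨t, rfl⟩ := exists_ord c
    exact ⟨t, hc⟩
  · rw [V.chart_mem_D]
    intro h
    exact frac_ne_zero K h2 t0 t.c ((Submodule.mem_bot _).1 h)

lemma geometricallyIntegral_curve : GeometricallyIntegral (V.str (J K)) := by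
  refine ⟨?_⟩
  intro L _ y Z fst snd h
  obtain ⟨φ, rfl⟩ := Spec.map_surjective y
  have h2' : (2 : L) ≠ 0 := by
    intro h0
    apply h2
    apply φ.hom.injective
    rw [map_ofNat, map_zero]
    exact h0
  have h3 := V.isPullback_map φ.hom (J K) (J L) (rel_J φ.hom) (le_map_J φ.hom)
  have h4 := isIntegral_curve L h2'
  have e : Z ≅ V (J L) := h.isoIsPullback _ _ h3
  have h5 : Nonempty (V (J L)) := inferInstance
  have h6 : Nonempty Z := h5.map e.inv
  exact isIntegral_of_isOpenImmersion e.hom

end integral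

section proper

variable (R : Type) [CommRing R]

lemma surj_zero (I : HI (Fin 3) R) :
    Function.Surjective (algebraMap R (qgrad I.toIdeal 0)) := by
  rintro ⟨z, hz⟩
  obtain ⟨f, hf, rfl⟩ := mem_qgrad.1 hz
  refine ⟨f.coeff 0, ?_⟩
  apply Subtype.ext
  change Ideal.Quotient.mk _ (C (f.coeff 0)) = Ideal.Quotient.mk _ f
  congr 1
  have := MvPolynomial.totalDegree_eq_zero_iff_eq_C.1 (by
    have h1 := (mem_homogeneousSubmodule _ _).1 hf
    exact Nat.le_zero.1 h1.totalDegree_le)
  exact this.symm

lemma isProper_curve : IsProper (V.str (J R)) := by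
  have h0 : IsScalarTower R (qgrad (J R).toIdeal 0) (MvPolynomial (Fin 3) R ⧸ (J R).toIdeal) :=
    IsScalarTower.of_algebraMap_eq (R := R) (S := qgrad (J R).toIdeal 0)
      (A := MvPolynomial (Fin 3) R ⧸ (J R).toIdeal) (fun r => by rfl)
  have h1 : Algebra.FiniteType (qgrad (J R).toIdeal 0) (MvPolynomial (Fin 3) R ⧸ (J R).toIdeal) :=
    Algebra.FiniteType.of_restrictScalars_finiteType R _ _
  have h2 : IsProper (Proj.toSpecZero (qgrad (J R).toIdeal)) := inferInstance
  have h3 : IsClosedImmersion
      (Spec.map (CommRingCat.ofHom (algebraMap R (qgrad (J R).toIdeal 0)))) :=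
    IsClosedImmersion.spec_of_surjective _ (surj_zero R (J R))
  have h4 : IsProper
      (Spec.map (CommRingCat.ofHom (algebraMap R (qgrad (J R).toIdeal 0)))) := inferInstance
  exact MorphismProperty.comp_mem @IsProper _ _ h2 h4

end proper

section points

/-- The Fermat quartic has no rational point over a field in which `1 + a⁴ + b⁴` never vanishes. -/
lemma no_section (k : Type) [Field k] (hk : ∀ a b : k, 1 + a ^ 4 + b ^ 4 ≠ 0)
    (s : Spec (.of k) ⟶ V (J k)) : False := by
  let x : Spec (.of k) := IsLocalRing.closedPoint k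
  obtain ⟨c, hc⟩ := V.exists_mem_D (J k) (s x)
  obtain ⟨t, rfl⟩ := exists_ord c
  have hr : Set.range s ⊆ Set.range (V.chart (J k) t.c) := by
    rintro _ ⟨z, rfl⟩
    have : z = x := Subsingleton.elim _ _
    rw [this]
    exact (V.mem_range_chart (J k) t.c _).2 hc
  let g : Spec (.of k) ⟶ Spec (.of (Ch (J k) t.c)) := IsOpenImmersion.lift (V.chart (J k) t.c) s hr
  have hg : g ≫ V.chart (J k) t.c = s := IsOpenImmersion.lift_fac _ _ _
  obtain ⟨φ, hφ⟩ := Spec.map_surjective g
  have h1 : φ.hom (frac (J k) t.c t.b) ^ 4 + φ.hom (frac (J k) t.c t.a) ^ 4 + 1 = 0 := by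
    have := congrArg φ.hom (frac_rel (R := k) t)
    simpa using this
  apply hk (φ.hom (frac (J k) t.c t.b)) (φ.hom (frac (J k) t.c t.a))
  linear_combination h1

end points

end Pool.Agent.H666R3.NG.Fermat
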