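import Pool.Agent.H666R3.NG.Galois

set_option autoImplicit false
set_option linter.unusedSectionVars false

open CategoryTheory AlgebraicGeometry Opposite

namespace Pool.Agent.H666R3.NG

noncomputable section

variable {k : Type} [Field k]

/-- in a local ring, if a product over a finite set is zero and the differences of distinct factors
are units then all but one factors are units -/
theorem local_prod {R : Type*} [CommRing R] [IsLocalRing R] (n : ℕ) (u : ℕ → R)
    (hu : ∏ i ∈ Finset.range n, u i = 0)
    (hd : ∀ i < n, ∀ j < n, i ≠ j → IsUnit (u i - u j)) :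
    ∃ i < n, IsUnit (∏ j ∈ (Finset.range n).erase i, u j) := by
  have h1 : ∃ i < n, ¬ IsUnit (u i) := by
    by_contra hcon
    push Not at hcon
    have : IsUnit (∏ i ∈ Finset.range n, u i) := by
      rw [IsUnit.prod_iff]
      intro i hi
      exact hcon i (Finset.mem_range.1 hi)
    rw [hu] at this
    exact not_isUnit_zero this
  obtain ⟨i, hi, hui⟩ := h1
  refine ⟨i, hi, ?_⟩
  rw [IsUnit.prod_iff]
  intro j hj
  rw [Finset.mem_erase, Finset.mem_range] at hj
  by_contra hcon
  have h2 : u i - u j ∈ nonunits R := by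
    have := (IsLocalRing.maximalIdeal R).sub_mem ((IsLocalRing.mem_maximalIdeal _).2 hui)
      ((IsLocalRing.mem_maximalIdeal _).2 hcon)
    exact (IsLocalRing.mem_maximalIdeal _).1 this
  exact h2 (hd i hi j hj.2 (Ne.symm hj.1))

section Frob

variable [Fintype k] (L : Type) [Field L] [Algebra k L] [Finite L]

theorem toRing_comp_alg {T : Sch k} {A : Type} [CommRing A] [Algebra k A] (m : T ⟶ SpecO k A) :
    (toRing m.left).comp (algebraMap k A) = toRing T.hom := by
  rw [← toRing_SpecMap]
  congr 1
  exact Over.w m

/-- the Frobenius of a finite extension is a cyclic covering -/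
theorem isCyclic_frob : IsCyclic (fpqc k) (SpecM (fr (k := k) L)) (Module.finrank k L) := by
  classical
  have : FiniteDimensional k L := Module.Finite.of_finite
  have hfin : 0 < Module.finrank k L := Module.finrank_pos
  obtain ⟨α, hα0, hα⟩ := exists_gen L
  -- distinct powers give units
  have hunit : ∀ {A : Type} [CommRing A] (f : L →+* A) (i j : ℕ),
      i % Module.finrank k L ≠ j % Module.finrank k L →
      IsUnit (f ((fr (k := k) L ^ i) α) - f ((fr (k := k) L ^ j) α)) := by
    intro A _ f i j hij
    rw [← map_sub]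
    refine IsUnit.map f (isUnit_iff_ne_zero.2 ?_)
    intro h0
    apply hij
    rw [← fr_pow_eq_one_iff (k := k) L]
    have := ringHom_ext_gen L hα (fr (k := k) L ^ i).toRingHom (fr (k := k) L ^ j).toRingHom
      (sub_eq_zero.1 h0)
    ext x
    exact congrArg (fun F : L →+* L => F x) this
  refine ⟨hfin, ?_, ?_, ?_⟩
  · rw [it_SpecM]
    have : fr (k := k) L ^ Module.finrank k L = 1 := by
      rw [← FiniteField.orderOf_frobeniusAlgHom k L]; exact pow_orderOf_eq_one _
    rw [this]
    exact SpecM_id L
  · intro T m₁ m₂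
    set n := Module.finrank k L with hn
    let ψ₁ := toRing m₁.left
    let ψ₂ := toRing m₂.left
    have hψ : ψ₁.comp (algebraMap k L) = ψ₂.comp (algebraMap k L) := by
      show (toRing m₁.left).comp (algebraMap k L) = (toRing m₂.left).comp (algebraMap k L)
      rw [toRing_comp_alg, toRing_comp_alg]
    let uu : ℕ → Γ(T.left, ⊤) := fun i => ψ₂ α - ψ₁ ((fr (k := k) L ^ i) α)
    have hprod : ∏ i ∈ Finset.range n, uu i = 0 := prod_eq_zero L ψ₁ ψ₂ hψ α
    have hdiff : ∀ i < n, ∀ j < n, i ≠ j → IsUnit (uu i - uu j) := by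
      intro i hi j hj hij
      have h1 : uu i - uu j = ψ₁ ((fr (k := k) L ^ j) α) - ψ₁ ((fr (k := k) L ^ i) α) := by
        simp only [uu]; ring
      rw [h1]
      refine hunit ψ₁ j i ?_
      rw [Nat.mod_eq_of_lt hi, Nat.mod_eq_of_lt hj]
      exact Ne.symm hij
    let U : Fin n → T.left.Opens := fun i =>
      T.left.basicOpen (∏ j ∈ (Finset.range n).erase i.1, uu j)
    have hU : ∀ t : T.left, ∃ i, t ∈ U i := by
      intro t
      let γ := (T.left.presheaf.germ ⊤ t trivial).hom
      obtain ⟨i, hi, h2⟩ := local_prod n (fun i => γ (uu i)) (by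
        rw [← map_prod, hprod, map_zero]) (fun i hi j hj hij => by
        rw [← map_sub]; exact (hdiff i hi j hj hij).map γ)
      refine ⟨⟨i, hi⟩, ?_⟩
      rw [← map_prod] at h2
      rw [Scheme.mem_basicOpen_top]
      exact h2
    obtain ⟨R, hR, hR'⟩ := cover_opens T U hU
    refine ⟨R, hR, ?_⟩
    intro T' h hh
    obtain ⟨i, g, hg⟩ := hR' T' h hh
    refine ⟨i.1, ?_⟩
    -- the product is invertible on `T'`
    have hunit' : IsUnit (h.left.appTop.hom (∏ j ∈ (Finset.range n).erase i.1, uu j)) := by
      have h3 : h.left ⁻¹ᵁ (U i) = ⊤ := by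
        rw [hg, Scheme.Hom.comp_preimage, Scheme.Opens.ι_preimage_self]
        rfl
      have h4 : T'.left.basicOpen (h.left.appTop.hom (∏ j ∈ (Finset.range n).erase i.1, uu j)) = ⊤ := by
        have := Scheme.preimage_basicOpen_top h.left (∏ j ∈ (Finset.range n).erase i.1, uu j)
        rw [← this]
        exact h3
      refine T'.left.toRingedSpace.isUnit_of_isUnit_germ ⊤ _ fun t _ => ?_
      have h5 : t ∈ T'.left.basicOpen
          (h.left.appTop.hom (∏ j ∈ (Finset.range n).erase i.1, uu j)) := by
        rw [h4]; trivial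
      rw [Scheme.mem_basicOpen_top] at h5
      exact h5
    have hzero : h.left.appTop.hom (uu i.1) = 0 := by
      have h5 : h.left.appTop.hom (uu i.1) *
          h.left.appTop.hom (∏ j ∈ (Finset.range n).erase i.1, uu j) = 0 := by
        rw [← map_mul, Finset.mul_prod_erase _ _ (Finset.mem_range.2 i.2), hprod, map_zero]
      exact (hunit'.mul_left_eq_zero).1 h5
    -- compare the two maps
    ext1
    rw [it_SpecM]
    simp only [Over.comp_left, Over.homMk_left]
    apply toRing_inj
    have e1 : toRing (h.left ≫ m₁.left ≫ Spec.map (CommRingCat.ofHom (fr (k := k) L ^ i.1).toRingHom)) =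
        (h.left.appTop.hom.comp ψ₁).comp (fr (k := k) L ^ i.1).toRingHom := by
      rw [← Category.assoc, toRing_SpecMap, toRing_comp]
    have e2 : toRing (h.left ≫ m₂.left) = h.left.appTop.hom.comp ψ₂ := toRing_comp _ _
    rw [e1, e2]
    apply ringHom_ext_gen L hα
    have h6 : h.left.appTop.hom (ψ₂ α) - h.left.appTop.hom (ψ₁ ((fr (k := k) L ^ i.1) α)) = 0 := by
      rw [← map_sub]; exact hzero
    exact (sub_eq_zero.1 h6).symm
  · intro T m i j hij
    by_cases hmod : i % Module.finrank k L = j % Module.finrank k L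
    · exact Or.inl hmod
    · right
      apply bot_mem
      rw [it_SpecM, it_SpecM] at hij
      have h1 := congrArg (fun t : T ⟶ SpecO k L => toRing t.left) hij
      simp only [Over.comp_left, Over.homMk_left] at h1
      rw [toRing_SpecMap, toRing_SpecMap] at h1
      have h2 := congrArg (fun F : L →+* Γ(T.left, ⊤) => F α) h1
      have h3 := hunit (toRing m.left) i j hmod
      have h4 : toRing m.left ((fr (k := k) L ^ i) α) - toRing m.left ((fr (k := k) L ^ j) α) = 0 :=
        sub_eq_zero.2 h2
      rw [h4] at h3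
      have h5 : (0 : Γ(T.left, ⊤)) = 1 := by
        obtain ⟨w, hw⟩ := h3
        have := w.mul_inv
        rw [hw, zero_mul] at this
        exact this
      by_contra hne
      rw [not_isEmpty_iff] at hne
      obtain ⟨t⟩ := hne
      have h6 := congrArg (T.left.presheaf.germ ⊤ t trivial).hom h5
      rw [map_zero, map_one] at h6
      exact zero_ne_one h6

end Frob

end

end Pool.Agent.H666R3.NG
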