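import Mathlib

/-!
# Stacks, gerbes, finite stacks, profinite gerbes and the Nori fundamental gerbe

Categories fibred in groupoids over a category `C` are functors `p : 𝒳 ⥤ C` (Mathlib's
`BasedCategory C`), morphisms between them are functors over `C` (`BasedFunctor`), and 2-morphisms are
natural transformations over `C` (`BasedNatTrans`).
-/

set_option autoImplicit false

open CategoryTheory AlgebraicGeometry

namespace Pool.Agent.H666R3.NG

universe u v w₁ w₂

section Stacks

variable {C : Type u} [Category.{v} C]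

/-- The morphism `f : T ⟶ S` belongs to the sieve `R` on `S` (equivalently, the pullback of `R` along
`f` is the maximal sieve on `T`). -/
def InSieve {S T : C} (R : Sieve S) (f : T ⟶ S) : Prop := R.pullback f = ⊤

/-- The objects `T ⟶ S` of the category of objects over `S` which belong to the sieve `R`. -/
def sieveObj {S : C} (R : Sieve S) : ObjectProperty (Over S) := fun f => InSieve R f.hom

/-- `𝒳` is a category fibred in groupoids over `C`: the projection is a fibred category and all
morphisms in the fibre categories are isomorphisms. -/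
structure IsFibredInGroupoids (𝒳 : BasedCategory.{w₁, w₂} C) : Prop where
  fibered : 𝒳.p.IsFibered
  isIso : ∀ (S : C) (a b : 𝒳.p.Fiber S) (φ : a ⟶ b), IsIso φ

/-- Descent for morphisms. Let `x`, `y` be objects of `𝒳`, let `f` be a morphism between their images
in `C` and let `R` be a covering sieve of the image of `x`. A family of morphisms `b a : z ⟶ y`, one
for each `a : z ⟶ x` whose image belongs to `R`, such that `b a` lies over the image of `a` followed by
`f` and such that `b (e ≫ a) = e ≫ b a`, comes from exactly one morphism `x ⟶ y` over `f`. -/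
def MorphismsDescend (J : GrothendieckTopology C) (𝒳 : BasedCategory.{w₁, w₂} C) : Prop :=
  ∀ (x y : 𝒳.obj) (f : 𝒳.p.obj x ⟶ 𝒳.p.obj y) (R : Sieve (𝒳.p.obj x)), R ∈ J (𝒳.p.obj x) →
    ∀ b : (z : 𝒳.obj) → (a : z ⟶ x) → InSieve R (𝒳.p.map a) → (z ⟶ y),
      (∀ z a h, 𝒳.p.map (b z a h) = 𝒳.p.map a ≫ f) →
      (∀ (z z' : 𝒳.obj) (e : z' ⟶ z) (a : z ⟶ x) h h', b z' (e ≫ a) h' = e ≫ b z a h) →
      ∃! ψ : x ⟶ y, 𝒳.p.map ψ = f ∧ ∀ z a h, a ≫ ψ = b z a h

/-- Descent for objects, in Giraud's form. Let `R` be a covering sieve of `S`, regarded as a full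
subcategory of the category of objects over `S`. Every functor `D` from `R` to `𝒳` over `C` is
induced by an object `x` over `S`: there are morphisms `D f ⟶ x` over `f`, for all `f` in `R`, which
are compatible with the functor `D`. -/
def ObjectsDescend (J : GrothendieckTopology C) (𝒳 : BasedCategory.{w₁, w₂} C) : Prop :=
  ∀ (S : C) (R : Sieve S), R ∈ J S →
    ∀ (D : (sieveObj R).FullSubcategory ⥤ 𝒳.obj)
      (θ : D ⋙ 𝒳.p ≅ (sieveObj R).ι ⋙ Over.forget S),
      ∃ (x : 𝒳.obj) (e : 𝒳.p.obj x ≅ S) (c : ∀ f : (sieveObj R).FullSubcategory, D.obj f ⟶ x),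
        (∀ f, 𝒳.p.map (c f) ≫ e.hom = θ.hom.app f ≫ f.obj.hom) ∧
        ∀ (f g : (sieveObj R).FullSubcategory) (h : f ⟶ g), D.map h ≫ c g = c f

/-- Stacks (in groupoids) for the topology `J`. -/
structure IsStack (J : GrothendieckTopology C) (𝒳 : BasedCategory.{w₁, w₂} C) : Prop where
  fibred : IsFibredInGroupoids 𝒳
  morphisms : MorphismsDescend J 𝒳
  objects : ObjectsDescend J 𝒳

end Stacks

section Gerbes

variable {C : Type 1} [Category.{0} C]

/-- A *gerbe* for the topology `J` over the final object `S₀` of `C`: a stack which has objects locally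
on `S₀` and in which any two objects over the same object of `C` are locally isomorphic. (The second
condition is stated for `x` and the pullback of `y` along `f`.) -/
structure IsGerbe (J : GrothendieckTopology C) (S₀ : C) (𝒳 : BasedCategory.{0, 1} C) : Prop where
  stack : IsStack J 𝒳
  locallyNonempty : ∃ R ∈ J S₀, ∀ (T : C) (h : T ⟶ S₀), InSieve R h →
    ∃ z : 𝒳.obj, Nonempty (𝒳.p.obj z ≅ T)
  locallyIsomorphic : ∀ (x y : 𝒳.obj) (f : 𝒳.p.obj x ⟶ 𝒳.p.obj y),
    ∃ R ∈ J (𝒳.p.obj x), ∀ (T : C) (h : T ⟶ 𝒳.p.obj x), InSieve R h →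
      ∃ (z : 𝒳.obj) (e : 𝒳.p.obj z ≅ T) (a : z ⟶ x) (b : z ⟶ y),
        𝒳.p.map a = e.hom ≫ h ∧ 𝒳.p.map b = e.hom ≫ h ≫ f

/-- A diagram of categories over `C`, indexed by a preordered set `I`: categories `Γ i` and
transition functors `F : Γ j ⥤ Γ i` for `i ≤ j`. -/
structure Diagram (C : Type 1) [Category.{0} C] (I : Type) [Preorder I] where
  Γ : I → BasedCategory.{0, 1} C
  F : ∀ {i j : I}, i ≤ j → BasedFunctor (Γ j) (Γ i)

variable {I : Type} [Preorder I] (𝒟 : Diagram C I)

/-- Morphisms of the category `Γ i`. -/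
def Diagram.Hom {i : I} (x y : (𝒟.Γ i).obj) : Type := x ⟶ y

/-- Composition of morphisms of the category `Γ i`. -/
def Diagram.comp {i : I} {x y z : (𝒟.Γ i).obj} (f : 𝒟.Hom x y) (g : 𝒟.Hom y z) : 𝒟.Hom x z :=
  (show x ⟶ y from f) ≫ (show y ⟶ z from g)

/-- The morphism `φ` of the category `Γ i` lies over the morphism `f` of `C`. -/
def Diagram.LiesOver {i : I} {x y : (𝒟.Γ i).obj} {S T : C} (f : S ⟶ T) (φ : 𝒟.Hom x y) : Prop :=
  (𝒟.Γ i).p.IsHomLift f (show x ⟶ y from φ)

/-- The image of an object under the transition functor. -/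
def Diagram.tr {i j : I} (h : i ≤ j) (x : (𝒟.Γ j).obj) : (𝒟.Γ i).obj := (𝒟.F h).obj x

/-- The image of a morphism under the transition functor. -/
def Diagram.trMap {i j : I} (h : i ≤ j) {x y : (𝒟.Γ j).obj} (f : 𝒟.Hom x y) :
    𝒟.Hom (𝒟.tr h x) (𝒟.tr h y) :=
  (𝒟.F h).map (show x ⟶ y from f)

/-- Families of morphisms `α : F (F x) ⟶ F x` for `i ≤ j ≤ l`. -/
def Diagram.Transitivity : Type 1 :=
  ∀ (i j l : I) (hij : i ≤ j) (hjl : j ≤ l) (x : (𝒟.Γ l).obj),
    𝒟.Hom (𝒟.tr hij (𝒟.tr hjl x)) (𝒟.tr (hij.trans hjl) x)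

/-- The diagram of categories fibred in groupoids is a projective system: the transition functors for
`i ≤ i` are equivalences, and the morphisms `α : F (F x) ⟶ F x` are natural in `x`, lie over
identities (so that they are isomorphisms) and are coherent for `i ≤ j ≤ l ≤ m`. -/
structure IsSystem (α : 𝒟.Transitivity) : Prop where
  fibred : ∀ i, IsFibredInGroupoids (𝒟.Γ i)
  unit : ∀ i, (𝒟.F (le_refl i)).toFunctor.IsEquivalence
  liesOver : ∀ (i j l : I) (hij : i ≤ j) (hjl : j ≤ l) (x : (𝒟.Γ l).obj),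
    𝒟.LiesOver (𝟙 ((𝒟.Γ l).p.obj x)) (α i j l hij hjl x)
  nat : ∀ (i j l : I) (hij : i ≤ j) (hjl : j ≤ l) (x y : (𝒟.Γ l).obj) (a : 𝒟.Hom x y),
    𝒟.comp (𝒟.trMap hij (𝒟.trMap hjl a)) (α i j l hij hjl y) =
      𝒟.comp (α i j l hij hjl x) (𝒟.trMap (hij.trans hjl) a)
  coh : ∀ (i j l m : I) (hij : i ≤ j) (hjl : j ≤ l) (hlm : l ≤ m) (x : (𝒟.Γ m).obj),
    𝒟.comp (𝒟.trMap hij (α j l m hjl hlm x)) (α i j m hij (hjl.trans hlm) x) =
      𝒟.comp (α i j l hij hjl (𝒟.tr hlm x)) (α i l m (hij.trans hjl) hlm x)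

/-- The data of an object, over `T`, of the projective limit of a diagram: objects `ξ i` of `Γ i`
over `T` and morphisms `φ : F (ξ j) ⟶ ξ i`. -/
structure LimData (T : C) where
  ξ : ∀ i, (𝒟.Γ i).p.Fiber T
  φ : ∀ (i j : I) (h : i ≤ j), 𝒟.Hom (𝒟.tr h (ξ j).1) (ξ i).1

variable {𝒟}

/-- The data `o` form an object over `T` of the projective limit: the morphisms `φ` lie over the
identity of `T` (so that they are isomorphisms) and are compatible with `α`. -/
structure IsLimObj (α : 𝒟.Transitivity) {T : C} (o : LimData 𝒟 T) : Prop where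
  liesOver : ∀ (i j : I) (h : i ≤ j), 𝒟.LiesOver (𝟙 T) (o.φ i j h)
  coh : ∀ (i j l : I) (hij : i ≤ j) (hjl : j ≤ l),
    𝒟.comp (𝒟.trMap hij (o.φ j l hjl)) (o.φ i j hij) =
      𝒟.comp (α i j l hij hjl (o.ξ l).1) (o.φ i l (hij.trans hjl))

variable {Pi : BasedCategory.{0, 1} C}

variable (𝒟 Pi) in
/-- The data of a cone over a diagram: functors `P i : Π ⥤ Γ i` and morphisms
`lam : F (P j x) ⟶ P i x`. -/
structure ConeData where
  P : ∀ i, BasedFunctor Pi (𝒟.Γ i)
  lam : ∀ (i j : I) (h : i ≤ j) (x : Pi.obj), 𝒟.Hom (𝒟.tr h ((P j).obj x)) ((P i).obj x)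

/-- The image in `Γ i` of the object `x` of `Π`. -/
def ConeData.im (c : ConeData 𝒟 Pi) (i : I) (x : Pi.obj) : (𝒟.Γ i).obj := (c.P i).obj x

/-- The image in `Γ i` of the morphism `a` of `Π`. -/
def ConeData.imMap (c : ConeData 𝒟 Pi) (i : I) {x y : Pi.obj} (a : x ⟶ y) :
    𝒟.Hom (c.im i x) (c.im i y) := (c.P i).map a

/-- The data `c` form a cone over a projective system: the morphisms `lam` are natural in `x`, lie
over identities (so that they are isomorphisms) and are compatible with `α`. -/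
structure IsCone (α : 𝒟.Transitivity) (c : ConeData 𝒟 Pi) : Prop where
  liesOver : ∀ (i j : I) (h : i ≤ j) (x : Pi.obj), 𝒟.LiesOver (𝟙 (Pi.p.obj x)) (c.lam i j h x)
  nat : ∀ (i j : I) (h : i ≤ j) (x y : Pi.obj) (a : x ⟶ y),
    𝒟.comp (𝒟.trMap h (c.imMap j a)) (c.lam i j h y) = 𝒟.comp (c.lam i j h x) (c.imMap i a)
  coh : ∀ (i j l : I) (hij : i ≤ j) (hjl : j ≤ l) (x : Pi.obj),
    𝒟.comp (𝒟.trMap hij (c.lam j l hjl x)) (c.lam i j hij x) =
      𝒟.comp (α i j l hij hjl (c.im l x)) (c.lam i l (hij.trans hjl) x)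

/-- The family of morphisms `μ i : P i x ⟶ ξ i` is a morphism over the identity of `T` between the
image of the object `x` of `Π` in the limit and the object `o` of the limit. -/
def ConeData.HomTo (c : ConeData 𝒟 Pi) {T : C} (o : LimData 𝒟 T) (x : Pi.p.Fiber T)
    (μ : ∀ i, 𝒟.Hom (c.im i x.1) (o.ξ i).1) : Prop :=
  (∀ i, 𝒟.LiesOver (𝟙 T) (μ i)) ∧
    ∀ (i j : I) (h : i ≤ j), 𝒟.comp (𝒟.trMap h (μ j)) (o.φ i j h) = 𝒟.comp (c.lam i j h x.1) (μ i)

/-- The family of morphisms `ψ i : P i x ⟶ P i y` is a morphism over `f` between the images of `x` and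
`y` in the limit. -/
def ConeData.HomOver (c : ConeData 𝒟 Pi) {x y : Pi.obj} (f : Pi.p.obj x ⟶ Pi.p.obj y)
    (ψ : ∀ i, 𝒟.Hom (c.im i x) (c.im i y)) : Prop :=
  (∀ i, 𝒟.LiesOver f (ψ i)) ∧
    ∀ (i j : I) (h : i ≤ j), 𝒟.comp (𝒟.trMap h (ψ j)) (c.lam i j h y) = 𝒟.comp (c.lam i j h x) (ψ i)

/-- The cone `c` exhibits `Π` as the (2-)projective limit: for every `T` the functor from the fibre of
`Π` over `T` to the category of objects over `T` of the limit is an equivalence. -/
structure IsLimitCone (α : 𝒟.Transitivity) (c : ConeData 𝒟 Pi) : Prop where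
  isCone : IsCone α c
  essSurj : ∀ (T : C) (o : LimData 𝒟 T), IsLimObj α o →
    ∃ (x : Pi.p.Fiber T) (μ : ∀ i, 𝒟.Hom (c.im i x.1) (o.ξ i).1), c.HomTo o x μ
  fullyFaithful : ∀ (x y : Pi.obj) (f : Pi.p.obj x ⟶ Pi.p.obj y)
    (ψ : ∀ i, 𝒟.Hom (c.im i x) (c.im i y)), c.HomOver f ψ →
    ∃! a : x ⟶ y, Pi.p.map a = f ∧ ∀ i, c.imMap i a = ψ i

/-- The image of the object `x` of `Π` under the morphism `G : Π ⟶ Γ`. -/
def app {Γ : BasedCategory.{0, 1} C} (G : BasedFunctor Pi Γ) (x : Pi.obj) : Γ.obj := G.obj x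

/-- Every morphism from the object `X` of `C` to `Γ` (an object `η` of `Γ` over `X`) factors through
the morphism `X ⟶ Π` given by the object `ξ` of `Π` over `X`, uniquely up to unique isomorphism: the
functor `G ↦ G(ξ)` from the category of morphisms `Π ⟶ Γ` to the fibre of `Γ` over `X` is an
equivalence. -/
structure FactorsUniquely {X : C} (ξ : Pi.p.Fiber X) (Γ : BasedCategory.{0, 1} C) : Prop where
  factors : ∀ η : Γ.p.Fiber X, ∃ (G : BasedFunctor Pi Γ) (e : app G ξ.1 ≅ η.1),
    Γ.p.IsHomLift (𝟙 X) e.hom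
  unique : ∀ (G G' : BasedFunctor Pi Γ) (a : app G ξ.1 ⟶ app G' ξ.1), Γ.p.IsHomLift (𝟙 X) a →
    ∃! t : BasedNatTrans G G', t.app ξ.1 = a

end Gerbes

noncomputable section Schemes

variable (k : Type) [Field k]

/-- The category of schemes over the field `k`. -/
abbrev Sch : Type 1 := Over (Spec (CommRingCat.of k))

/-- The scheme `Spec k` over `k`. -/
noncomputable abbrev pt : Sch k := Over.mk (𝟙 (Spec (CommRingCat.of k)))

/-- The fpqc topology on the category of schemes over `k`. -/
abbrev fpqc : GrothendieckTopology (Sch k) := Scheme.fpqcTopology.over (Spec (CommRingCat.of k))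

/-- A category over the category of `k`-schemes (large, with small sets of morphisms). -/
abbrev OverSch : Type _ := BasedCategory.{0, 1} (Sch k)

variable {k}

/-- The morphism `f` of `k`-schemes is finite, flat, locally of finite presentation and surjective. -/
structure IsFiniteCover {S T : Sch k} (f : S ⟶ T) : Prop where
  finite : IsFinite f.left
  flat : Flat f.left
  locallyOfFinitePresentation : LocallyOfFinitePresentation f.left
  surjective : Surjective f.left

/-- The object `u` of `𝒳` over the scheme `U` gives a morphism `U ⟶ 𝒳` which is representable, finite,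
flat, of finite presentation and surjective: for every object `z` over a scheme `T` the fibre product
`T ×_𝒳 U` (the product of `z` and `u` in the category `𝒳`) is a scheme which is finite, flat, locally
of finite presentation and surjective over `T`. -/
def IsFiniteAtlas (𝒳 : OverSch k) (u : 𝒳.obj) : Prop :=
  ∀ z : 𝒳.obj, ∃ (P : 𝒳.obj) (a : P ⟶ z) (b : P ⟶ u),
    Nonempty (Limits.IsLimit (Limits.BinaryFan.mk a b)) ∧ IsFiniteCover (𝒳.p.map a)

/-- A *finite stack* over `k`: an (fpqc) stack `𝒳` with a fppf presentation `R ⇉ U` by finite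
`k`-schemes. That is, there is an object `u` over a finite `k`-scheme `U` such that the corresponding
morphism `U ⟶ 𝒳` is representable, finite, flat, of finite presentation and surjective. In particular
`R = U ×_𝒳 U` is a finite scheme over `k`. -/
structure IsFiniteStack (𝒳 : OverSch k) : Prop where
  stack : IsStack (fpqc k) 𝒳
  atlas : ∃ u : 𝒳.obj, IsFinite (𝒳.p.obj u).hom ∧ IsFiniteAtlas 𝒳 u

/-- A *finite gerbe* is a finite stack that is a gerbe. -/
structure IsFiniteGerbe (𝒳 : OverSch k) : Prop where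
  finite : IsFiniteStack 𝒳
  gerbe : IsGerbe (fpqc k) (pt k) 𝒳

/-- A *profinite gerbe* over `k`: a gerbe which is a projective limit of finite gerbes, indexed by a
(nonempty) directed preordered set. -/
structure IsProfiniteGerbe (Pi : OverSch k) : Prop where
  gerbe : IsGerbe (fpqc k) (pt k) Pi
  limit : ∃ (I : Type) (_ : Preorder I) (_ : IsDirectedOrder I) (_ : Nonempty I)
    (𝒟 : Diagram (Sch k) I) (α : 𝒟.Transitivity) (c : ConeData 𝒟 Pi),
    IsSystem 𝒟 α ∧ (∀ i, IsFiniteGerbe (𝒟.Γ i)) ∧ IsLimitCone α c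

/-- A *Nori fundamental gerbe* of the `k`-scheme `X`: a profinite gerbe `Π` with a morphism
`X ⟶ Π` (an object `ξ` of `Π` over `X`) such that every morphism from `X` to a finite stack `Γ`
factors through `X ⟶ Π`, uniquely up to unique isomorphism. -/
structure IsNoriGerbe (X : Sch k) (Pi : OverSch k) (ξ : Pi.p.Fiber X) : Prop where
  profinite : IsProfiniteGerbe Pi
  universal : ∀ Γ : OverSch k, IsFiniteStack Γ → FactorsUniquely ξ Γ

/-- The set of isomorphism classes of objects of `𝒳` over `Spec k`. -/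
def Points (𝒳 : OverSch k) : Type 1 := Quotient (isIsomorphicSetoid (𝒳.p.Fiber (pt k)))

/-- The map `σ_X : X(k) → [Π(k)]` given by composition with `X ⟶ Π`: it sends a rational point
`a : Spec k ⟶ X` to the isomorphism class of the pullback along `a` of the object `ξ` of `Π` over `X`
which corresponds to `X ⟶ Π`. -/
noncomputable def sigma {X : Sch k} {Pi : OverSch k} {ξ : Pi.p.Fiber X} (h : IsNoriGerbe X Pi ξ)
    (a : pt k ⟶ X) : Points Pi :=
  haveI : Pi.p.IsFibered := h.profinite.gerbe.stack.fibred.fibered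
  Quotient.mk _
    ⟨Functor.IsPreFibered.pullbackObj ξ.2 a, Functor.IsPreFibered.pullbackObj_proj ξ.2 a⟩

/-- The field `k` is finitely generated over its prime subfield: some finite subset of `k` generates
`k` as a field. -/
def FinGenOverPrime (k : Type) [Field k] : Prop := ∃ s : Finset k, Subfield.closure (s : Set k) = ⊤

end Schemes

end Pool.Agent.H666R3.NG
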