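import Pool.Agent.H666R3.NG.Old

set_option autoImplicit false
set_option linter.unusedSectionVars false

open CategoryTheory

namespace Pool.Agent.H666R3.NG

universe u v w₁ w₂

variable {C : Type u} [Category.{v} C] {𝒳 : BasedCategory.{w₁, w₂} C}

/-! ### Basic facts on categories fibred in groupoids -/

theorem cart_of_gpd (hX : IsFibredInGroupoids 𝒳) {a b : 𝒳.obj} (φ : a ⟶ b) :
    𝒳.p.IsStronglyCartesian (𝒳.p.map φ) φ := by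
  have := hX.fibered
  obtain ⟨b', ψ, hψ⟩ := Functor.IsPreFibered.exists_isCartesian' (p := 𝒳.p) (a := b) (𝒳.p.map φ)
  let χ := Functor.IsCartesian.map 𝒳.p (𝒳.p.map φ) ψ φ
  have hχ : 𝒳.p.IsHomLift (𝟙 (𝒳.p.obj a)) χ := inferInstance
  have hfac : χ ≫ ψ = φ := Functor.IsCartesian.fac 𝒳.p (𝒳.p.map φ) ψ φ
  have hb' : 𝒳.p.obj b' = 𝒳.p.obj a := IsHomLift.domain_eq 𝒳.p (𝒳.p.map φ) ψ
  have hiso : IsIso χ := by
    have h1 := hX.isIso (𝒳.p.obj a) ⟨a, rfl⟩ ⟨b', hb'⟩ ⟨χ, hχ⟩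
    obtain ⟨inv, h2, h3⟩ := h1
    exact ⟨inv.1, congrArg (fun t => t.1) h2, congrArg (fun t => t.1) h3⟩
  have h4 : 𝒳.p.IsCartesian (𝒳.p.map φ) φ := by
    have h5 : 𝒳.p.IsHomLift (𝟙 (𝒳.p.obj a)) (asIso χ).hom := hχ
    have h6 := Functor.IsCartesian.of_iso_comp (p := 𝒳.p) (f := 𝒳.p.map φ) (φ := ψ) (asIso χ)
    rw [asIso_hom, hfac] at h6
    exact h6
  infer_instance

/-- lifting along `ψ : z ⟶ x` -/
theorem lift_unique (hX : IsFibredInGroupoids 𝒳) {x y z : 𝒳.obj} (φ : y ⟶ x) (ψ : z ⟶ x)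
    (g : 𝒳.p.obj z ⟶ 𝒳.p.obj y) (hg : g ≫ 𝒳.p.map φ = 𝒳.p.map ψ) :
    ∃! χ : z ⟶ y, 𝒳.p.map χ = g ∧ χ ≫ φ = ψ := by
  have h1 := cart_of_gpd hX φ
  have h2 : 𝒳.p.IsHomLift (g ≫ 𝒳.p.map φ) ψ := by rw [hg]; infer_instance
  obtain ⟨χ, ⟨h3, h4⟩, h5⟩ := h1.universal_property' g ψ
  refine ⟨χ, ⟨?_, h4⟩, ?_⟩
  · exact (IsHomLift.eq_of_isHomLift 𝒳.p g χ).symm
  · rintro χ' ⟨h6, h7⟩
    refine h5 χ' ⟨?_, h7⟩
    rw [← h6]; infer_instance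

theorem hom_eq (hX : IsFibredInGroupoids 𝒳) {x y z : 𝒳.obj} (φ : y ⟶ x) (a b : z ⟶ y)
    (h : 𝒳.p.map a = 𝒳.p.map b) (h' : a ≫ φ = b ≫ φ) : a = b := by
  obtain ⟨χ, _, h2⟩ := lift_unique hX φ (a ≫ φ) (𝒳.p.map a) (by rw [Functor.map_comp])
  rw [h2 a ⟨rfl, rfl⟩, h2 b ⟨h.symm, h'.symm⟩]

/-- existence of pullbacks -/
theorem exists_pull (hX : IsFibredInGroupoids 𝒳) (x : 𝒳.obj) {T : C} (h : T ⟶ 𝒳.p.obj x) :
    ∃ (y : 𝒳.obj) (e : 𝒳.p.obj y ≅ T) (φ : y ⟶ x), 𝒳.p.map φ = e.hom ≫ h := by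
  have := hX.fibered
  obtain ⟨b', ψ, hψ⟩ := Functor.IsPreFibered.exists_isCartesian' (p := 𝒳.p) (a := x) h
  have hb' : 𝒳.p.obj b' = T := IsHomLift.domain_eq 𝒳.p h ψ
  refine ⟨b', eqToIso hb', ψ, ?_⟩
  have := IsHomLift.fac' 𝒳.p h ψ
  simpa using this

/-- strict version of `exists_pull` -/
theorem exists_pull' (hX : IsFibredInGroupoids 𝒳) (x : 𝒳.obj) {T S : C} (hS : 𝒳.p.obj x = S)
    (h : T ⟶ S) : ∃ (y : 𝒳.obj) (φ : y ⟶ x), 𝒳.p.IsHomLift h φ := by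
  have := hX.fibered
  obtain ⟨b', ψ, hψ⟩ := IsPreFibered.exists_isCartesian 𝒳.p hS h
  exact ⟨b', ψ, inferInstance⟩

theorem isIso_of_base (hX : IsFibredInGroupoids 𝒳) {x y : 𝒳.obj} (φ : x ⟶ y)
    (h : IsIso (𝒳.p.map φ)) : IsIso φ := by
  obtain ⟨χ, ⟨h1, h2⟩, _⟩ := lift_unique hX φ (𝟙 y) (inv (𝒳.p.map φ)) (by simp)
  refine ⟨χ, ?_, h2⟩
  apply hom_eq hX φ
  · rw [Functor.map_comp, h1]; simp
  · rw [Category.assoc, h2, Category.comp_id, Category.id_comp]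

/-! ### Separatedness -/

variable {J : GrothendieckTopology C}

theorem eq_of_cover (hM : MorphismsDescend₀ J 𝒳) {x y : 𝒳.obj} (f g : x ⟶ y)
    (hfg : 𝒳.p.map f = 𝒳.p.map g) (R : Sieve (𝒳.p.obj x)) (hR : R ∈ J (𝒳.p.obj x))
    (h : ∀ (z : 𝒳.obj) (a : z ⟶ x), R (𝒳.p.map a) → a ≫ f = a ≫ g) : f = g := by
  obtain ⟨ψ, _, h2⟩ := hM x y (𝒳.p.map f) R hR (fun z a _ => a ≫ f)
    (fun z a _ => by rw [Functor.map_comp]) (fun z z' e a _ _ => by rw [Category.assoc])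
  rw [h2 f ⟨rfl, fun _ _ _ => rfl⟩, h2 g ⟨hfg.symm, fun z a ha => (h z a ha).symm⟩]

/-! ### Iterates -/

/-- the iterates of an endomorphism -/
def it {D : Type*} [Category D] {x : D} (c : x ⟶ x) : ℕ → (x ⟶ x)
  | 0 => 𝟙 x
  | n + 1 => it c n ≫ c

section iter

variable {D : Type*} [Category D] {x : D} (c : x ⟶ x)

@[simp] theorem it_zero : it c 0 = 𝟙 x := rfl

theorem it_succ (n : ℕ) : it c (n + 1) = it c n ≫ c := rfl

@[simp] theorem it_one : it c 1 = c := by rw [it_succ, it_zero, Category.id_comp]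

theorem it_add (m n : ℕ) : it c (m + n) = it c m ≫ it c n := by
  induction n with
  | zero => simp
  | succ n ih => rw [← Nat.add_assoc, it_succ, ih, it_succ, Category.assoc]

theorem it_mul (m n : ℕ) : it c (m * n) = it (it c m) n := by
  induction n with
  | zero => simp
  | succ n ih => rw [Nat.mul_succ, it_add, ih, it_succ]

theorem it_of_dvd {n : ℕ} (h : it c n = 𝟙 x) (m : ℕ) : it c (n * m) = 𝟙 x := by
  rw [it_mul, h]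
  induction m with
  | zero => rfl
  | succ m ih => rw [it_succ, ih, Category.comp_id]

theorem it_mod {n : ℕ} (h : it c n = 𝟙 x) (i : ℕ) : it c i = it c (i % n) := by
  conv_lhs => rw [← Nat.mod_add_div i n]
  rw [it_add, it_of_dvd c h, Category.comp_id]

theorem it_congr {n : ℕ} (h : it c n = 𝟙 x) {i j : ℕ} (hij : i % n = j % n) :
    it c i = it c j := by
  rw [it_mod c h i, it_mod c h j, hij]

theorem map_it {E : Type*} [Category E] (F : D ⥤ E) (n : ℕ) : F.map (it c n) = it (F.map c) n := by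
  induction n with
  | zero => simp
  | succ n ih => rw [it_succ, Functor.map_comp, ih, it_succ]

end iter

/-! ### Galois coverings -/

/-- `Λ ⟶ S` behaves like a cyclic Galois covering with generator `σ` of order `n`. -/
structure IsCyclic (J : GrothendieckTopology C) {Λ : C} (σ : Λ ⟶ Λ) (n : ℕ) : Prop where
  pos : 0 < n
  pow : it σ n = 𝟙 Λ
  locally : ∀ (T : C) (m₁ m₂ : T ⟶ Λ), ∃ R ∈ J T, ∀ (T' : C) (h : T' ⟶ T), R h →
    ∃ i : ℕ, h ≫ m₁ ≫ it σ i = h ≫ m₂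
  free : ∀ (T : C) (m : T ⟶ Λ) (i j : ℕ), m ≫ it σ i = m ≫ it σ j → i % n = j % n ∨ ⊥ ∈ J T

theorem eq_of_bot (hM : MorphismsDescend₀ J 𝒳) {x y : 𝒳.obj} (f g : x ⟶ y)
    (hfg : 𝒳.p.map f = 𝒳.p.map g) (h : ⊥ ∈ J (𝒳.p.obj x)) : f = g :=
  eq_of_cover hM f g hfg ⊥ h (fun _ _ ha => ha.elim)

section Key

variable (hX : IsFibredInGroupoids 𝒳) (hM : MorphismsDescend₀ J 𝒳) {x : 𝒳.obj} (c : x ⟶ x) {n : ℕ}
  (hc : it c n = 𝟙 x) (hσ : IsCyclic J (𝒳.p.map c) n)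

/-- `e` is compatible with the structure maps `π₁`, `π₂` to `x` and with the action `c` -/
def Compat {x : 𝒳.obj} (c : x ⟶ x) {y₁ y₂ : 𝒳.obj} (π₁ : y₁ ⟶ x) (π₂ : y₂ ⟶ x) (e : y₁ ⟶ y₂) :
    Prop :=
  ∀ (z : 𝒳.obj) (a : z ⟶ y₁) (i : ℕ),
    𝒳.p.map a ≫ 𝒳.p.map π₁ ≫ it (𝒳.p.map c) i = 𝒳.p.map a ≫ 𝒳.p.map e ≫ 𝒳.p.map π₂ →
    a ≫ e ≫ π₂ = a ≫ π₁ ≫ it c i

include hX hM hc hσ

/-- two exponents which are both admissible give the same morphism -/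
theorem pow_indep {z w : 𝒳.obj} (a : z ⟶ w) (π : w ⟶ x) (i j : ℕ)
    (h : 𝒳.p.map a ≫ 𝒳.p.map π ≫ it (𝒳.p.map c) i = 𝒳.p.map a ≫ 𝒳.p.map π ≫ it (𝒳.p.map c) j) :
    a ≫ π ≫ it c i = a ≫ π ≫ it c j := by
  rcases hσ.free _ (𝒳.p.map a ≫ 𝒳.p.map π) i j (by simpa only [Category.assoc] using h) with h1 | h1
  · rw [it_congr c hc h1]
  · refine eq_of_bot hM _ _ ?_ h1
    rw [Functor.map_comp, Functor.map_comp, Functor.map_comp, Functor.map_comp, map_it, map_it, h]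

theorem exists_compat {y₁ y₂ : 𝒳.obj} (π₁ : y₁ ⟶ x) (π₂ : y₂ ⟶ x) (g : 𝒳.p.obj y₁ ⟶ 𝒳.p.obj y₂) :
    ∃! e : y₁ ⟶ y₂, 𝒳.p.map e = g ∧ Compat c π₁ π₂ e := by
  obtain ⟨R, hR, hR'⟩ := hσ.locally (𝒳.p.obj y₁) (𝒳.p.map π₁) (g ≫ 𝒳.p.map π₂)
  have key : ∀ (z : 𝒳.obj) (a : z ⟶ y₁) (i : ℕ)
      (_ : 𝒳.p.map a ≫ 𝒳.p.map π₁ ≫ it (𝒳.p.map c) i = 𝒳.p.map a ≫ g ≫ 𝒳.p.map π₂),
      ∃! b : z ⟶ y₂, 𝒳.p.map b = 𝒳.p.map a ≫ g ∧ b ≫ π₂ = a ≫ π₁ ≫ it c i := by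
    intro z a i hi
    refine lift_unique hX π₂ (a ≫ π₁ ≫ it c i) (𝒳.p.map a ≫ g) ?_
    rw [Functor.map_comp, Functor.map_comp, map_it, hi, Category.assoc]
  have key2 : ∀ (z : 𝒳.obj) (a : z ⟶ y₁), R (𝒳.p.map a) →
      ∃ b : z ⟶ y₂, 𝒳.p.map b = 𝒳.p.map a ≫ g ∧ ∀ i,
        𝒳.p.map a ≫ 𝒳.p.map π₁ ≫ it (𝒳.p.map c) i = 𝒳.p.map a ≫ g ≫ 𝒳.p.map π₂ →
        b ≫ π₂ = a ≫ π₁ ≫ it c i := by
    intro z a ha
    obtain ⟨i, hi⟩ := hR' _ _ ha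
    obtain ⟨b, ⟨hb1, hb2⟩, _⟩ := key z a i hi
    refine ⟨b, hb1, fun j hj => ?_⟩
    rw [hb2]
    exact pow_indep hX hM c hc hσ a π₁ i j (hi.trans hj.symm)
  choose b hb1 hb2 using key2
  obtain ⟨ψ, ⟨hψ1, hψ2⟩, hψ3⟩ := hM y₁ y₂ g R hR (fun z a h => b z a h) hb1 (by
    intro z z' e a h h'
    obtain ⟨i, hi⟩ := hR' _ _ h
    have h1 : 𝒳.p.map (e ≫ a) ≫ 𝒳.p.map π₁ ≫ it (𝒳.p.map c) i =
        𝒳.p.map (e ≫ a) ≫ g ≫ 𝒳.p.map π₂ := by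
      rw [Functor.map_comp, Category.assoc, Category.assoc, hi]
    apply hom_eq hX π₂
    · rw [hb1, Functor.map_comp, Functor.map_comp, hb1, Category.assoc]
    · rw [hb2 _ _ h' i h1, Category.assoc, Category.assoc, hb2 _ _ h i hi])
  refine ⟨ψ, ⟨hψ1, ?_⟩, ?_⟩
  · intro z a i hi
    rw [hψ1] at hi
    -- use the cover
    refine eq_of_cover hM _ _ ?_ (R.pullback (𝒳.p.map a)) (J.pullback_stable _ hR) ?_
    · rw [Functor.map_comp, Functor.map_comp, hψ1, ← hi, Functor.map_comp, Functor.map_comp, map_it]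
    · intro z' e he
      have he' : R (𝒳.p.map (e ≫ a)) := by rw [Functor.map_comp]; exact he
      have h1 : 𝒳.p.map (e ≫ a) ≫ 𝒳.p.map π₁ ≫ it (𝒳.p.map c) i =
          𝒳.p.map (e ≫ a) ≫ g ≫ 𝒳.p.map π₂ := by
        rw [Functor.map_comp, Category.assoc, Category.assoc, hi]
      have h2 := hψ2 _ _ he'
      have h3 := hb2 _ _ he' i h1
      rw [← h2] at h3
      simpa only [Category.assoc] using h3
  · rintro e ⟨he1, he2⟩
    refine hψ3 e ⟨he1, ?_⟩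
    intro z a ha
    obtain ⟨i, hi⟩ := hR' _ _ ha
    apply hom_eq hX π₂
    · rw [Functor.map_comp, he1, hb1]
    · rw [hb2 _ _ ha i hi, Category.assoc]
      exact he2 z a i (by rw [he1]; exact hi)

theorem compat_id {y : 𝒳.obj} (π : y ⟶ x) : Compat c π π (𝟙 y) := by
  intro z a i hi
  have h1 : 𝒳.p.map a ≫ 𝒳.p.map π ≫ it (𝒳.p.map c) i =
      𝒳.p.map a ≫ 𝒳.p.map π ≫ it (𝒳.p.map c) 0 := by
    rw [hi]; simp
  have h2 := pow_indep hX hM c hc hσ a π i 0 h1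
  rw [h2]; simp

theorem compat_self (i : ℕ) : Compat c (𝟙 x) (𝟙 x) (it c i) := by
  intro z a j hj
  have h1 : 𝒳.p.map a ≫ 𝒳.p.map (𝟙 x) ≫ it (𝒳.p.map c) j =
      𝒳.p.map a ≫ 𝒳.p.map (𝟙 x) ≫ it (𝒳.p.map c) i := by
    rw [hj, map_it]; simp
  have h2 := pow_indep hX hM c hc hσ a (𝟙 x) j i h1
  rw [h2]; simp

theorem compat_comp {y₁ y₂ y₃ : 𝒳.obj} {π₁ : y₁ ⟶ x} {π₂ : y₂ ⟶ x} {π₃ : y₃ ⟶ x}
    {e₁ : y₁ ⟶ y₂} {e₂ : y₂ ⟶ y₃} (h₁ : Compat c π₁ π₂ e₁) (h₂ : Compat c π₂ π₃ e₂) :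
    Compat c π₁ π₃ (e₁ ≫ e₂) := by
  intro z a i hi
  obtain ⟨R, hR, hR'⟩ := hσ.locally (𝒳.p.obj z) (𝒳.p.map a ≫ 𝒳.p.map π₁)
    (𝒳.p.map a ≫ 𝒳.p.map e₁ ≫ 𝒳.p.map π₂)
  refine eq_of_cover hM _ _ ?_ R hR ?_
  · rw [Functor.map_comp, Functor.map_comp _ _ π₃, Functor.map_comp _ a, Functor.map_comp _ π₁,
      map_it, hi]
  · intro z' e he
    obtain ⟨j, hj⟩ := hR' _ _ he
    have hj1 : 𝒳.p.map (e ≫ a) ≫ 𝒳.p.map π₁ ≫ it (𝒳.p.map c) j =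
        𝒳.p.map (e ≫ a) ≫ 𝒳.p.map e₁ ≫ 𝒳.p.map π₂ := by
      simp only [Functor.map_comp, Category.assoc] at hj ⊢
      exact hj
    have k1 := h₁ z' (e ≫ a) j hj1
    obtain ⟨n', rfl⟩ : ∃ n', n = n' + 1 := ⟨n - 1, by have := hσ.pos; omega⟩
    have hl : it (𝒳.p.map c) (j + (i + n' * j)) = it (𝒳.p.map c) i := by
      apply it_congr _ hσ.pow
      have : j + (i + n' * j) = i + (n' + 1) * j := by ring
      rw [this, Nat.add_mul_mod_self_left]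
    have hl' : it c (j + (i + n' * j)) = it c i := by
      apply it_congr _ hc
      have : j + (i + n' * j) = i + (n' + 1) * j := by ring
      rw [this, Nat.add_mul_mod_self_left]
    have hj2 : 𝒳.p.map ((e ≫ a) ≫ e₁) ≫ 𝒳.p.map π₂ ≫ it (𝒳.p.map c) (i + n' * j) =
        𝒳.p.map ((e ≫ a) ≫ e₁) ≫ 𝒳.p.map e₂ ≫ 𝒳.p.map π₃ := by
      have s1 : 𝒳.p.map ((e ≫ a) ≫ e₁) ≫ 𝒳.p.map π₂ =
          𝒳.p.map (e ≫ a) ≫ 𝒳.p.map π₁ ≫ it (𝒳.p.map c) j := by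
        rw [hj1]; simp only [Functor.map_comp, Category.assoc]
      have s2 : 𝒳.p.map ((e ≫ a) ≫ e₁) ≫ 𝒳.p.map e₂ ≫ 𝒳.p.map π₃ =
          𝒳.p.map (e ≫ a) ≫ 𝒳.p.map π₁ ≫ it (𝒳.p.map c) i := by
        have := congrArg (fun t => 𝒳.p.map e ≫ t) hi
        simp only [Functor.map_comp, Category.assoc] at this ⊢
        exact this.symm
      rw [← Category.assoc, s1, s2, Category.assoc, Category.assoc, ← it_add, hl]
    have k2 := h₂ z' ((e ≫ a) ≫ e₁) (i + n' * j) hj2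
    calc e ≫ a ≫ (e₁ ≫ e₂) ≫ π₃ = ((e ≫ a) ≫ e₁) ≫ e₂ ≫ π₃ := by simp only [Category.assoc]
      _ = ((e ≫ a) ≫ e₁ ≫ π₂) ≫ it c (i + n' * j) := by rw [k2]; simp only [Category.assoc]
      _ = (e ≫ a) ≫ π₁ ≫ it c (j + (i + n' * j)) := by
          rw [k1, it_add c j]; simp only [Category.assoc]
      _ = e ≫ a ≫ π₁ ≫ it c i := by rw [hl']; simp only [Category.assoc]

/-- descent of morphisms along a cyclic covering -/
theorem desc_mor {y y' : 𝒳.obj} (θ : x ⟶ y) (θ' : x ⟶ y') (hθ : c ≫ θ = θ) (hθ' : c ≫ θ' = θ')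
    (f : 𝒳.p.obj y ⟶ 𝒳.p.obj y') (hf : 𝒳.p.map θ ≫ f = 𝒳.p.map θ')
    (hterm : ∀ (T : C) (a b : T ⟶ 𝒳.p.obj y), a = b)
    (R : Sieve (𝒳.p.obj y)) (hR : R ∈ J (𝒳.p.obj y))
    (hR' : ∀ (T : C) (h : T ⟶ 𝒳.p.obj y), R h → Nonempty (T ⟶ 𝒳.p.obj x))
    (hθR : R (𝒳.p.map θ)) :
    ∃! e : y ⟶ y', 𝒳.p.map e = f ∧ θ ≫ e = θ' := by
  have itθ : ∀ i, it c i ≫ θ = θ := by
    intro i
    induction i with
    | zero => simp
    | succ i ih => rw [it_succ, Category.assoc, hθ, ih]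
  have itθ' : ∀ i, it c i ≫ θ' = θ' := by
    intro i
    induction i with
    | zero => simp
    | succ i ih => rw [it_succ, Category.assoc, hθ', ih]
  have indep : ∀ (z : 𝒳.obj) (f₁ f₂ : z ⟶ x), f₁ ≫ θ = f₂ ≫ θ → f₁ ≫ θ' = f₂ ≫ θ' := by
    intro z f₁ f₂ h
    obtain ⟨Q, hQ, hQ'⟩ := hσ.locally (𝒳.p.obj z) (𝒳.p.map f₁) (𝒳.p.map f₂)
    refine eq_of_cover hM _ _ ?_ Q hQ ?_
    · have := congrArg 𝒳.p.map h
      simp only [Functor.map_comp] at this ⊢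
      rw [← hf, ← Category.assoc, this, Category.assoc]
    · intro z' e he
      obtain ⟨i, hi⟩ := hQ' _ _ he
      have h3 : e ≫ f₁ ≫ it c i = e ≫ f₂ := by
        apply hom_eq hX θ
        · rw [Functor.map_comp, Functor.map_comp, map_it, hi, Functor.map_comp]
        · rw [Category.assoc, Category.assoc, itθ, h, Category.assoc]
      have h4 : e ≫ f₂ ≫ θ' = e ≫ f₁ ≫ θ' := by
        rw [← Category.assoc, ← h3, Category.assoc, Category.assoc, itθ']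
      exact h4.symm
  have key : ∀ (z : 𝒳.obj) (a : z ⟶ y), R (𝒳.p.map a) → ∃ g : z ⟶ x, g ≫ θ = a := by
    intro z a ha
    obtain ⟨m⟩ := hR' _ _ ha
    obtain ⟨g, ⟨_, hg⟩, _⟩ := lift_unique hX θ a m (hterm _ _ _)
    exact ⟨g, hg⟩
  choose g hg using key
  obtain ⟨ψ, ⟨hψ1, hψ2⟩, hψ3⟩ := hM y y' f R hR (fun z a h => g z a h ≫ θ') (by
    intro z a h
    have := congrArg 𝒳.p.map (hg z a h)
    rw [Functor.map_comp] at this
    rw [Functor.map_comp, ← hf, ← Category.assoc, this]) (by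
    intro z z' e a h h'
    have := indep z' (g z' (e ≫ a) h') (e ≫ g z a h) (by
      rw [hg, Category.assoc, hg])
    rw [this, Category.assoc])
  refine ⟨ψ, ⟨hψ1, ?_⟩, ?_⟩
  · rw [hψ2 x θ hθR]
    have := indep x (g x θ hθR) (𝟙 x) (by rw [hg, Category.id_comp])
    rw [this, Category.id_comp]
  · rintro e ⟨he1, he2⟩
    refine hψ3 e ⟨he1, ?_⟩
    intro z a ha
    calc a ≫ e = (g z a ha ≫ θ) ≫ e := by rw [hg z a ha]
      _ = g z a ha ≫ θ' := by rw [Category.assoc, he2]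

/-- descent of objects along a cyclic covering -/
theorem desc_obj (hO : ObjectsDescend₀ J 𝒳) {S : C} (s : 𝒳.p.obj x ⟶ S)
    (hS : ∀ (T : C) (a b : T ⟶ S), a = b) (R : Sieve S) (hR : R ∈ J S)
    (hR' : ∀ (T : C) (h : T ⟶ S), R h → Nonempty (T ⟶ 𝒳.p.obj x)) (hsR : R s) :
    ∃ (y : 𝒳.obj) (_ : 𝒳.p.obj y ≅ S) (θ : x ⟶ y), c ≫ θ = θ := by
  classical
  have key : ∀ f : R.arrows.category, ∃ (y : 𝒳.obj) (e : 𝒳.p.obj y ≅ f.obj.left) (_ : y ⟶ x), True := by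
    intro f
    obtain ⟨m⟩ := hR' _ f.obj.hom f.property
    obtain ⟨y, e, φ, _⟩ := exists_pull hX x m
    exact ⟨y, e, φ, trivial⟩
  choose Dob ε π _ using key
  have hmap : ∀ {f g : R.arrows.category} (h : f ⟶ g), ∃! e : Dob f ⟶ Dob g,
      𝒳.p.map e = (ε f).hom ≫ h.hom.left ≫ (ε g).inv ∧ Compat c (π f) (π g) e := fun {f g} h =>
    exists_compat hX hM c hc hσ (π f) (π g) _
  choose Dm hDm hDu using @hmap
  let D : R.arrows.category ⥤ 𝒳.obj :=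
    { obj := Dob
      map := fun h => Dm h
      map_id := by
        intro f
        symm
        apply hDu
        refine ⟨?_, compat_id hX hM c hc hσ _⟩
        simp
      map_comp := by
        intro f g l h h'
        symm
        apply hDu
        refine ⟨?_, compat_comp hX hM c hc hσ (hDm h).2 (hDm h').2⟩
        rw [Functor.map_comp, (hDm h).1, (hDm h').1]
        simp }
  let θ : D ⋙ 𝒳.p ≅ ObjectProperty.ι _ ⋙ Over.forget S :=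
    NatIso.ofComponents (fun f => ε f) (by
      intro f g h
      show 𝒳.p.map (Dm h) ≫ (ε g).hom = (ε f).hom ≫ h.hom.left
      rw [(hDm h).1]
      simp)
  obtain ⟨y, e, cc, h1, h2⟩ := hO S R hR D θ
  let f₀ : R.arrows.category := R.arrows.categoryMk s hsR
  obtain ⟨t, ⟨ht1, ht2⟩, ht3⟩ := exists_compat hX hM c hc hσ (𝟙 x) (π f₀)
    ((ε f₀).inv : 𝒳.p.obj x ⟶ 𝒳.p.obj (Dob f₀))
  refine ⟨y, e, t ≫ cc f₀, ?_⟩
  let h₀ : f₀ ⟶ f₀ := ObjectProperty.homMk (Over.homMk (𝒳.p.map c) (hS _ _ _))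
  have h3 : c ≫ t = t ≫ D.map h₀ := by
    obtain ⟨w, _, hw⟩ := exists_compat hX hM c hc hσ (𝟙 x) (π f₀)
      (𝒳.p.map c ≫ (ε f₀).inv : 𝒳.p.obj x ⟶ 𝒳.p.obj (Dob f₀))
    have k1 : c ≫ t = w := by
      apply hw
      refine ⟨by rw [Functor.map_comp, ht1], ?_⟩
      have := compat_self hX hM c hc hσ 1
      rw [it_one] at this
      exact compat_comp hX hM c hc hσ this ht2
    have k2 : t ≫ D.map h₀ = w := by
      apply hw
      refine ⟨?_, compat_comp hX hM c hc hσ ht2 (hDm h₀).2⟩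
      rw [Functor.map_comp, ht1]
      show _ ≫ 𝒳.p.map (Dm h₀) = _
      rw [(hDm h₀).1]
      simp [h₀, f₀]
    rw [k1, k2]
  rw [← Category.assoc, h3, Category.assoc, h2]

end Key

end Pool.Agent.H666R3.NG
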