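import Pool.Agent.H666R3.NG.Gal2

set_option autoImplicit false
set_option linter.unusedSectionVars false

open CategoryTheory AlgebraicGeometry Opposite

namespace Pool.Agent.H666R3.NG

noncomputable section

variable {k : Type} [Field k] {𝒳 : OverSch k}

/-- a data of an atlas -/
def IsAtlas (u : 𝒳.obj) : Prop :=
  IsFinite (𝒳.p.obj u).hom ∧ ∀ z : 𝒳.obj,
    ∃ (P : 𝒳.obj) (a : P ⟶ z) (b : P ⟶ u), Nonempty (Limits.IsLimit (Limits.BinaryFan.mk a b)) ∧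
      IsFinite (𝒳.p.map a).left ∧ Surjective (𝒳.p.map a).left

theorem IsFiniteStack.exists_atlas (h : IsFiniteStack 𝒳) : ∃ u : 𝒳.obj, IsAtlas u := by
  obtain ⟨u, h1, h2⟩ := h.atlas
  refine ⟨u, h1, fun z => ?_⟩
  obtain ⟨P, a, b, h3, h4⟩ := h2 z
  exact ⟨P, a, b, h3, h4.finite, h4.surjective⟩

theorem finite_over {P x : 𝒳.obj} {A : Type} [CommRing A] [Algebra k A] [Module.Finite k A]
    (a : P ⟶ x) (e : 𝒳.p.obj x ≅ SpecO k A) (hfin : IsFinite (𝒳.p.map a).left) :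
    IsFinite (𝒳.p.obj P).hom := by
  have h1 : (𝒳.p.map a).left ≫ (𝒳.p.obj x).hom = (𝒳.p.obj P).hom := Over.w _
  have h2 : e.hom.left ≫ (SpecO k A).hom = (𝒳.p.obj x).hom := Over.w _
  have h3 : IsFinite (SpecO k A).hom := by
    simp only [Over.mk_hom]
    rw [IsFinite.SpecMap_iff]
    show RingHom.Finite (algebraMap k A)
    rw [RingHom.finite_algebraMap]
    infer_instance
  have h4 : IsIso e.hom.left := inferInstance
  rw [← h1, ← h2]
  infer_instance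

theorem nonempty_of_surj {T T' : Sch k} (f : T' ⟶ T) (hf : Surjective f.left) (hT : Nonempty T.left) :
    Nonempty T'.left := by
  obtain ⟨t⟩ := hT
  obtain ⟨t', _⟩ := hf.surj t
  exact ⟨t'⟩

theorem nonempty_of_map {T T' : Sch k} (f : T' ⟶ T) (hT : Nonempty T'.left) :
    Nonempty T.left := hT.map f.left

/-- every object over a finite algebra has a point of the atlas over a finite extension -/
theorem exists_atlas_point (hX : IsFibredInGroupoids 𝒳) {u : 𝒳.obj} (hu : IsAtlas u) {y : 𝒳.obj}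
    {A : Type} [CommRing A] [Algebra k A] [Module.Finite k A] (e : 𝒳.p.obj y ≅ SpecO k A)
    (hne : Nonempty (𝒳.p.obj y).left) :
    ∃ (L : Type) (_ : Field L) (_ : Algebra k L) (_ : Module.Finite k L) (x : 𝒳.obj)
      (_ : 𝒳.p.obj x ≅ SpecO k L) (_ : x ⟶ y) (_ : x ⟶ u), True := by
  obtain ⟨P, a, b, hP, hfin, hsurj⟩ := hu.2 y
  have hQ := finite_over a e hfin
  obtain ⟨L, _, _, hL, v, _⟩ := exists_point (T := 𝒳.p.obj P) (Q := 𝒳.p.obj P) (U := 𝒳.p.obj P)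
    (nonempty_of_surj _ hsurj hne) hQ (𝟙 _) (𝟙 _) (𝟙 _) rfl
  obtain ⟨x, e', φ, _⟩ := exists_pull hX P v
  exact ⟨L, inferInstance, inferInstance, hL, x, e', φ ≫ a, φ ≫ b, trivial⟩

variable [Fintype k]

/-- **A finite gerbe over a finite field has an object with a Frobenius structure.** -/
theorem exists_frob_obj (h : IsFiniteGerbe 𝒳) :
    ∃ (L : Type) (_ : Field L) (_ : Algebra k L) (_ : Module.Finite k L) (x : 𝒳.obj)
      (e : 𝒳.p.obj x ≅ SpecO k L) (c : x ⟶ x), 𝒳.p.map c = frO e ∧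
      it c (Module.finrank k L) = 𝟙 x := by
  have hX := h.finite.stack.fibred
  obtain ⟨u, hu⟩ := h.finite.exists_atlas
  -- a point of the atlas
  obtain ⟨R, hR, hR'⟩ := h.gerbe.locallyNonempty₀
  obtain ⟨T, t, hT, hTne⟩ := exists_nonempty (pt k)
    (show Nonempty (Spec (CommRingCat.of k)) from inferInstance) R hR
  obtain ⟨z, ⟨ez⟩⟩ := hR' T t hT
  obtain ⟨P, a, b, hP, hPf, hPs⟩ := hu.2 z
  have hPne : Nonempty (𝒳.p.obj P).left :=
    nonempty_of_surj _ hPs (nonempty_of_map ez.inv hTne)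
  obtain ⟨L₀, _, _, _, v₀, _⟩ := exists_point (T := 𝒳.p.obj P) (Q := 𝒳.p.obj u) (U := 𝒳.p.obj u)
    hPne hu.1 (𝒳.p.map b) (𝟙 _) (𝟙 _) rfl
  obtain ⟨x₀, e₀, w₀, hw₀⟩ := exists_pull hX u v₀
  have hL₀fin : Finite L₀ := Module.finite_of_finite k
  -- the Frobenius conjugate is locally isomorphic to `x₀`
  let σ₀ := frO e₀
  obtain ⟨R₁, hR₁, hR₁'⟩ := h.gerbe.locallyIsomorphic₀ x₀ x₀ σ₀
  have hx₀ne : Nonempty (𝒳.p.obj x₀).left :=
    nonempty_of_map e₀.inv (show Nonempty (Spec (CommRingCat.of L₀)) from inferInstance)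
  obtain ⟨T₁, t₁, hT₁, hT₁ne⟩ := exists_nonempty _ hx₀ne R₁ hR₁
  obtain ⟨z₁, ez₁, a₁, b₁, ha₁, hb₁⟩ := hR₁' T₁ t₁ hT₁
  have hab : 𝒳.p.map b₁ = 𝒳.p.map a₁ ≫ σ₀ := by rw [hb₁, ha₁, Category.assoc]
  obtain ⟨P₁, pr₁, pr₂, hP₁, hP₁f, hP₁s⟩ := hu.2 x₀
  obtain ⟨l₁, hl₁, hl₁'⟩ := lift_prod hP₁ a₁ (b₁ ≫ w₀)
  obtain ⟨L₁, _, _, _, v₁, hv₁⟩ := exists_point (T := 𝒳.p.obj z₁) (Q := 𝒳.p.obj P₁)
    (U := 𝒳.p.obj u) (nonempty_of_map ez₁.inv hT₁ne) (finite_over pr₁ e₀ hP₁f) (𝒳.p.map l₁)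
    (𝒳.p.map pr₂) (𝒳.p.map pr₁ ≫ σ₀ ≫ 𝒳.p.map w₀) (by
      rw [← Functor.map_comp, hl₁', Functor.map_comp, hab, ← hl₁, Functor.map_comp]
      simp only [Category.assoc])
  have hL₁fin : Finite L₁ := Module.finite_of_finite k
  obtain ⟨x₁, e₁, π₁, hπ₁⟩ := exists_pull hX P₁ v₁
  let a' : x₁ ⟶ x₀ := π₁ ≫ pr₁
  obtain ⟨b', ⟨hb', hb''⟩, _⟩ := lift_unique hX w₀ (π₁ ≫ pr₂) (𝒳.p.map a' ≫ σ₀) (by
    rw [Functor.map_comp, hπ₁]
    simp only [Category.assoc, a', Functor.map_comp, hπ₁]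
    rw [← hv₁])
  -- the Frobenius structure on `x₁`
  obtain ⟨c, ⟨hc, hc'⟩, _⟩ := lift_unique hX a' b' (frO e₁) (by
    rw [hb']
    exact frO_nat e₁ e₀ _)
  -- a power of `c` is the identity
  let w₁ : x₁ ⟶ u := π₁ ≫ pr₂
  have hE := finite_end hX (fun z => by
    obtain ⟨P, a, b, h1, h2, _⟩ := hu.2 z
    exact ⟨P, a, b, h1, h2⟩) e₁ w₁
  set m := Module.finrank k L₁ with hm
  have hcyc := isCyclic_frO e₁
  have hcm : 𝒳.p.map (it c m) = 𝟙 _ := by rw [map_it, hc, hm]; exact hcyc.pow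
  have hpow : ∀ j : ℕ, 𝒳.p.map (it c (m * j)) = 𝟙 _ := by
    intro j
    rw [it_mul, map_it, hcm]
    induction j with
    | zero => rfl
    | succ j ih => rw [it_succ, ih, Category.comp_id]
  obtain ⟨i, j, hij, hij'⟩ := Finite.exists_ne_map_eq_of_infinite
    (fun j : ℕ => (⟨it c (m * j), hpow j⟩ : {f : x₁ ⟶ x₁ // 𝒳.p.map f = 𝟙 _}))
  have hij'' : it c (m * i) = it c (m * j) := congrArg Subtype.val hij'
  obtain ⟨r, hr, hcr⟩ : ∃ r : ℕ, 0 < r ∧ it c (m * r) = 𝟙 x₁ := by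
    have key : ∀ i j : ℕ, i < j → it c (m * i) = it c (m * j) → ∃ r : ℕ, 0 < r ∧
        it c (m * r) = 𝟙 x₁ := by
      intro i j hlt heq
      refine ⟨j - i, by omega, ?_⟩
      have h1 : m * j = m * i + m * (j - i) := by
        rw [← Nat.mul_add]; congr 1; omega
      rw [h1, it_add] at heq
      have hiso : IsIso (it c (m * i)) := isIso_of_base hX _ (by rw [hpow i]; infer_instance)
      have h2 : it c (m * i) ≫ 𝟙 x₁ = it c (m * i) ≫ it c (m * (j - i)) := by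
        rw [Category.comp_id]; exact heq
      exact ((cancel_epi _).1 h2).symm
    rcases lt_or_gt_of_ne hij with h1 | h1
    · exact key i j h1 hij''
    · exact key j i h1 hij''.symm
  -- go to the extension of degree `r`
  obtain ⟨p, hp⟩ := CharP.exists L₁
  have hpp : Fact p.Prime := ⟨(CharP.char_is_prime_or_zero L₁ p).resolve_right (by
    rintro rfl
    have := CharP.charP_to_charZero L₁
    exact not_finite L₁)⟩
  haveI : NeZero r := ⟨hr.ne'⟩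
  let L₂ := FiniteField.Extension L₁ p r
  letI : Algebra k L₂ := ((algebraMap L₁ L₂).comp (algebraMap k L₁)).toAlgebra
  haveI : IsScalarTower k L₁ L₂ := IsScalarTower.of_algebraMap_eq (fun _ => rfl)
  haveI : Module.Finite k L₂ := Module.Finite.trans L₁ L₂
  have hrank : Module.finrank k L₂ = m * r := by
    rw [← Module.finrank_mul_finrank k L₁ L₂, FiniteField.finrank_extension]
  let jm : SpecO k L₂ ⟶ SpecO k L₁ := SpecM (IsScalarTower.toAlgHom k L₁ L₂)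
  obtain ⟨x₂, e₂, a₂, ha₂⟩ := exists_pull hX x₁ (jm ≫ e₁.inv)
  obtain ⟨c₂, ⟨hc₂, hc₂'⟩, _⟩ := lift_unique hX a₂ (a₂ ≫ c) (frO e₂) (by
    rw [Functor.map_comp, hc]
    exact frO_nat e₂ e₁ _)
  refine ⟨L₂, inferInstance, inferInstance, inferInstance, x₂, e₂, c₂, hc₂, ?_⟩
  rw [hrank]
  have hitc : ∀ i : ℕ, it c₂ i ≫ a₂ = a₂ ≫ it c i := by
    intro i
    induction i with
    | zero => simp
    | succ i ih => rw [it_succ, Category.assoc, hc₂', ← Category.assoc, ih, it_succ, Category.assoc]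
  apply hom_eq hX a₂
  · rw [map_it, hc₂, ← hrank, CategoryTheory.Functor.map_id]
    haveI : Finite L₂ := Module.finite_of_finite k
    exact (isCyclic_frO e₂).pow
  · rw [hitc, hcr]; simp

/-- **A finite gerbe over a finite field has a rational point.** -/
theorem exists_rational_point (h : IsFiniteGerbe 𝒳) : ∃ y : 𝒳.obj, Nonempty (𝒳.p.obj y ≅ pt k) := by
  obtain ⟨L, _, _, _, x, e, c, hc, hcn⟩ := exists_frob_obj h
  haveI : Finite L := Module.finite_of_finite k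
  have hst := h.finite.stack
  have hcyc : IsCyclic (fpqc k) (𝒳.p.map c) (Module.finrank k L) := by
    rw [hc]; exact isCyclic_frO e
  obtain ⟨y, ey, θ, _⟩ := desc_obj hst.fibred hst.morphisms₀ c hcn hcyc hst.objects₀ (S := pt k)
    (toPt (𝒳.p.obj x)) pt_unique (sieveOf (pt k) (𝒳.p.obj x)) (sieveOf_mem L e (Iso.refl _))
    (fun T _ hT => hT) ⟨𝟙 _⟩
  exact ⟨y, ⟨ey⟩⟩

end

end Pool.Agent.H666R3.NG
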