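import Pool.Agent.H666R3.NG.Pt

set_option autoImplicit false
set_option linter.unusedSectionVars false

open CategoryTheory AlgebraicGeometry Opposite

namespace Pool.Agent.H666R3.NG

noncomputable section

/-- transport of `IsCyclic` along an isomorphism -/
theorem IsCyclic.transport {C : Type*} [Category C] {J : GrothendieckTopology C} {Λ Λ' : C}
    {σ : Λ ⟶ Λ} {n : ℕ} (h : IsCyclic J σ n) (e : Λ' ≅ Λ) : IsCyclic J (e.hom ≫ σ ≫ e.inv) n := by
  have hit : ∀ i, it (e.hom ≫ σ ≫ e.inv) i = e.hom ≫ it σ i ≫ e.inv := by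
    intro i
    induction i with
    | zero => simp
    | succ i ih => rw [it_succ, ih, it_succ]; simp
  refine ⟨h.pos, ?_, ?_, ?_⟩
  · rw [hit, h.pow]; simp
  · intro T m₁ m₂
    obtain ⟨R, hR, hR'⟩ := h.locally T (m₁ ≫ e.hom) (m₂ ≫ e.hom)
    refine ⟨R, hR, fun T' g hg => ?_⟩
    obtain ⟨i, hi⟩ := hR' T' g hg
    refine ⟨i, ?_⟩
    rw [hit, ← cancel_mono e.hom]
    simpa using hi
  · intro T m i j hij
    refine h.free T (m ≫ e.hom) i j ?_
    rw [hit, hit, ← cancel_mono e.hom] at hij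
    simpa using hij

variable {k : Type} [Field k]

/-- the point `Spec k` is terminal -/
theorem pt_unique (T : Sch k) (a b : T ⟶ pt k) : a = b := by
  ext1
  have h1 := Over.w a
  have h2 := Over.w b
  exact (Category.comp_id a.left).symm.trans (h1.trans (h2.symm.trans (Category.comp_id b.left)))

/-- the map to the point -/
def toPt (T : Sch k) : T ⟶ pt k := Over.homMk T.hom (by simp)

theorem pt_unique' {Y : Sch k} (e : Y ≅ pt k) (T : Sch k) (a b : T ⟶ Y) : a = b := by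
  rw [← cancel_mono e.hom]
  exact pt_unique _ _ _

/-- the sieve of all schemes with a morphism to `Λ` -/
def sieveOf (Y Λ : Sch k) : Sieve Y where
  arrows T _ := Nonempty (T ⟶ Λ)
  downward_closed := by
    rintro T T' _ ⟨m⟩ g
    exact ⟨g ≫ m⟩

theorem sieveOf_mem (L : Type) [Field L] [Algebra k L] {Y Λ : Sch k} (e : Λ ≅ SpecO k L)
    (eY : Y ≅ pt k) : sieveOf Y Λ ∈ fpqc k Y := by
  have h1 : sieveOf (pt k) Λ ∈ fpqc k (pt k) := by
    rw [GrothendieckTopology.mem_over_iff]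
    let j : Spec (CommRingCat.of L) ⟶ Spec (CommRingCat.of k) :=
      Spec.map (CommRingCat.ofHom (algebraMap k L))
    have hflat : Flat j := by
      rw [Flat.SpecMap_iff]
      show RingHom.Flat (algebraMap k L)
      rw [RingHom.flat_algebraMap_iff]
      infer_instance
    have hsurj : Surjective j := by
      refine ⟨fun y => ?_⟩
      have hinh : Nonempty (Spec (CommRingCat.of L)) := inferInstance
      obtain ⟨y'⟩ := hinh
      exact ⟨y', Subsingleton.elim (α := PrimeSpectrum k) _ _⟩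
    have h2 : Sieve.generate (Presieve.singleton j) ∈ Scheme.fpqcTopology (Spec (CommRingCat.of k)) :=
      Precoverage.generate_mem_toGrothendieck j.singleton_mem_fpqcPrecoverage
    refine GrothendieckTopology.superset_covering _ ?_ h2
    rw [Sieve.generate_le_iff]
    rintro W g ⟨⟩
    rw [Sieve.overEquiv_iff]
    exact ⟨Over.homMk (𝟙 _) (by simp [j]) ≫ e.inv⟩
  have h3 := (fpqc k).pullback_stable eY.hom h1
  refine GrothendieckTopology.superset_covering _ ?_ h3
  rintro T h ⟨m⟩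
  exact ⟨m⟩

section Finite

variable [Fintype k]

/-- naturality of the Frobenius -/
theorem fr_nat {A B : Type} [CommRing A] [Algebra k A] [CommRing B] [Algebra k B]
    (m : SpecO k B ⟶ SpecO k A) :
    SpecM (FiniteField.frobeniusAlgHom k B) ≫ m = m ≫ SpecM (FiniteField.frobeniusAlgHom k A) := by
  obtain ⟨f, rfl⟩ := exists_SpecM m
  rw [SpecM_comp, SpecM_comp]
  congr 1
  ext x
  simp

/-- the Frobenius of an object isomorphic to `Spec L` -/
def frO {Y : Sch k} {L : Type} [Field L] [Algebra k L] (e : Y ≅ SpecO k L) : Y ⟶ Y :=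
  e.hom ≫ SpecM (FiniteField.frobeniusAlgHom k L) ≫ e.inv

theorem frO_nat {Y Y' : Sch k} {L L' : Type} [Field L] [Algebra k L] [Field L'] [Algebra k L']
    (e : Y ≅ SpecO k L) (e' : Y' ≅ SpecO k L') (m : Y ⟶ Y') : frO e ≫ m = m ≫ frO e' := by
  have h := fr_nat (e.inv ≫ m ≫ e'.hom)
  unfold frO
  have h2 : SpecM (FiniteField.frobeniusAlgHom k L) ≫ e.inv ≫ m =
      (e.inv ≫ m ≫ e'.hom) ≫ SpecM (FiniteField.frobeniusAlgHom k L') ≫ e'.inv := by
    rw [← Category.assoc (e.inv ≫ m ≫ e'.hom), ← h]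
    simp
  calc (e.hom ≫ SpecM (FiniteField.frobeniusAlgHom k L) ≫ e.inv) ≫ m
      = e.hom ≫ (SpecM (FiniteField.frobeniusAlgHom k L) ≫ e.inv ≫ m) := by
        simp only [Category.assoc]
    _ = m ≫ e'.hom ≫ SpecM (FiniteField.frobeniusAlgHom k L') ≫ e'.inv := by
        rw [h2]; simp

theorem isCyclic_frO {Y : Sch k} {L : Type} [Field L] [Algebra k L] [Finite L] (e : Y ≅ SpecO k L) :
    IsCyclic (fpqc k) (frO e) (Module.finrank k L) :=
  (isCyclic_frob L).transport e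

variable {𝒳 : OverSch k}

/-- the product property of an atlas -/
theorem lift_prod {x u P : 𝒳.obj} {a : P ⟶ x} {b : P ⟶ u}
    (h : Nonempty (Limits.IsLimit (Limits.BinaryFan.mk a b))) {z : 𝒳.obj} (f : z ⟶ x) (g : z ⟶ u) :
    ∃ l : z ⟶ P, l ≫ a = f ∧ l ≫ b = g := by
  obtain ⟨h⟩ := h
  exact ⟨h.lift (Limits.BinaryFan.mk f g), h.fac _ ⟨Limits.WalkingPair.left⟩,
    h.fac _ ⟨Limits.WalkingPair.right⟩⟩

/-- finiteness of the set of endomorphisms over the identity, for objects with a morphism to the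
atlas -/
theorem finite_end (hX : IsFibredInGroupoids 𝒳) {u : 𝒳.obj}
    (hu : ∀ z : 𝒳.obj, ∃ (P : 𝒳.obj) (a : P ⟶ z) (b : P ⟶ u),
      Nonempty (Limits.IsLimit (Limits.BinaryFan.mk a b)) ∧ IsFinite (𝒳.p.map a).left)
    {L : Type} [Field L] [Algebra k L] [Module.Finite k L] {x : 𝒳.obj}
    (e : 𝒳.p.obj x ≅ SpecO k L) (w : x ⟶ u) :
    Finite {f : x ⟶ x // 𝒳.p.map f = 𝟙 _} := by
  obtain ⟨P, a, b, hP, hfin⟩ := hu x
  have hl : ∀ f : x ⟶ x, ∃ l : x ⟶ P, l ≫ a = 𝟙 x ∧ l ≫ b = f ≫ w := fun f =>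
    lift_prod hP (𝟙 x) (f ≫ w)
  choose l hl1 hl2 using hl
  have hfinP : IsFinite (𝒳.p.obj P).hom := by
    have h1 : (𝒳.p.map a).left ≫ (𝒳.p.obj x).hom = (𝒳.p.obj P).hom := Over.w _
    have h2 : e.hom.left ≫ (SpecO k L).hom = (𝒳.p.obj x).hom := Over.w _
    have h3 : IsFinite (SpecO k L).hom := by
      simp only [Over.mk_hom]
      rw [IsFinite.SpecMap_iff]
      show RingHom.Finite (algebraMap k L)
      rw [RingHom.finite_algebraMap]
      infer_instance
    have h4 : IsIso e.hom.left := inferInstance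
    rw [← h1, ← h2]
    infer_instance
  obtain ⟨A, _, _, hA, ⟨eA⟩⟩ := exists_finite_alg _ hfinP
  have hfinhom : Finite (SpecO k L ⟶ SpecO k A) := finite_hom inferInstance
  let F : {f : x ⟶ x // 𝒳.p.map f = 𝟙 _} → (SpecO k L ⟶ SpecO k A) := fun f =>
    e.inv ≫ 𝒳.p.map (l f.1) ≫ eA.hom
  refine Finite.of_injective F ?_
  rintro ⟨f, hf⟩ ⟨g, hg⟩ hfg
  have h5 : 𝒳.p.map (l f) = 𝒳.p.map (l g) := by
    simpa [F] using hfg
  have h6 : l f = l g := hom_eq hX a _ _ h5 (by rw [hl1, hl1])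
  have h7 : f ≫ w = g ≫ w := by rw [← hl2, ← hl2, h6]
  exact Subtype.ext (hom_eq hX w _ _ (by rw [hf, hg]) h7)

end Finite

end

end Pool.Agent.H666R3.NG
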