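import Pool.Agent.H666R3.NG.Desc

set_option autoImplicit false
set_option linter.unusedSectionVars false

open CategoryTheory AlgebraicGeometry Opposite

namespace Pool.Agent.H666R3.NG

noncomputable section

variable (k : Type) [Field k]

/-- `Spec A` as a `k`-scheme -/
abbrev SpecO (A : Type) [CommRing A] [Algebra k A] : Sch k :=
  Over.mk (Spec.map (CommRingCat.ofHom (algebraMap k A)))

variable {k}

/-- morphisms of `k`-algebras give morphisms of `k`-schemes -/
abbrev SpecM {A B : Type} [CommRing A] [Algebra k A] [CommRing B] [Algebra k B] (f : A →ₐ[k] B) :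
    SpecO k B ⟶ SpecO k A :=
  Over.homMk (Spec.map (CommRingCat.ofHom f.toRingHom)) (by
    simp only [Over.mk_left, Over.mk_hom, ← Spec.map_comp, ← CommRingCat.ofHom_comp]
    congr 2
    exact f.comp_algebraMap)

theorem SpecM_id (A : Type) [CommRing A] [Algebra k A] : SpecM (AlgHom.id k A) = 𝟙 (SpecO k A) := by
  ext1
  simp only [Over.homMk_left, Over.id_left]
  exact Spec.map_id _

theorem SpecM_comp {A B D : Type} [CommRing A] [Algebra k A] [CommRing B] [Algebra k B]
    [CommRing D] [Algebra k D] (f : A →ₐ[k] B) (g : B →ₐ[k] D) :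
    SpecM g ≫ SpecM f = SpecM (g.comp f) := by
  ext1
  simp only [Over.homMk_left, Over.comp_left, ← Spec.map_comp, ← CommRingCat.ofHom_comp]
  rfl

theorem it_SpecM {A : Type} [CommRing A] [Algebra k A] (f : A →ₐ[k] A) (n : ℕ) :
    it (SpecM f) n = SpecM (f ^ n) := by
  induction n with
  | zero => rw [it_zero, pow_zero]; exact (SpecM_id A).symm
  | succ n ih => rw [it_succ, ih, SpecM_comp, pow_succ]; try rfl

/-- the covering sieve of a scheme by open subsets -/
theorem cover_opens (T : Sch k) {ι : Type} (U : ι → T.left.Opens) (hU : ∀ t : T.left, ∃ i, t ∈ U i) :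
    ∃ R ∈ fpqc k T, ∀ (T' : Sch k) (h : T' ⟶ T), R h →
      ∃ (i : ι) (g : T'.left ⟶ (U i).toScheme), h.left = g ≫ (U i).ι := by
  have hU' : iSup U = ⊤ := by
    ext t
    simp only [TopologicalSpace.Opens.coe_iSup, Set.mem_iUnion, TopologicalSpace.Opens.coe_top,
      Set.mem_univ, iff_true]
    exact hU t
  let 𝒰 := T.left.openCoverOfIsOpenCover U hU'
  have h1 : Sieve.ofArrows 𝒰.X 𝒰.f ∈ Scheme.zariskiTopology T.left :=
    Scheme.Cover.mem_grothendieckTopology 𝒰
  have h2 := Scheme.zariskiTopology_le_fpqcTopology _ h1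
  refine ⟨(Sieve.overEquiv T).symm (Sieve.ofArrows 𝒰.X 𝒰.f),
    GrothendieckTopology.overEquiv_symm_mem_over _ _ _ h2, ?_⟩
  intro T' h hh
  rw [Sieve.overEquiv_symm_iff] at hh
  obtain ⟨Y, g, _, ⟨i⟩, h3⟩ := hh
  exact ⟨i, g, h3.symm⟩

/-- an empty scheme is covered by the empty sieve -/
theorem bot_mem (T : Sch k) (hT : IsEmpty T.left) : (⊥ : Sieve T) ∈ fpqc k T := by
  have h1 : (⊥ : Sieve T.left) ∈ Scheme.zariskiTopology T.left :=
    Scheme.bot_mem_grothendieckTopology T.left
  have h2 := Scheme.zariskiTopology_le_fpqcTopology _ h1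
  have h3 := GrothendieckTopology.overEquiv_symm_mem_over _ T _ h2
  rwa [map_bot] at h3

/-- the ring homomorphism defined by a morphism to an affine scheme -/
def toRing {T : Scheme.{0}} {A : Type} [CommRing A] (m : T ⟶ Spec (CommRingCat.of A)) :
    A →+* Γ(T, ⊤) :=
  ((Scheme.ΓSpecIso (CommRingCat.of A)).inv ≫ m.appTop).hom

theorem toRing_inj {T : Scheme.{0}} {A : Type} [CommRing A] (m m' : T ⟶ Spec (CommRingCat.of A))
    (h : toRing m = toRing m') : m = m' := by
  refine ext_of_isAffine ?_
  have h2 : (Scheme.ΓSpecIso (CommRingCat.of A)).inv ≫ m.appTop =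
      (Scheme.ΓSpecIso (CommRingCat.of A)).inv ≫ m'.appTop := by
    ext1; exact h
  exact (cancel_epi _).1 h2

theorem toRing_comp {T T' : Scheme.{0}} {A : Type} [CommRing A] (h : T' ⟶ T)
    (m : T ⟶ Spec (CommRingCat.of A)) : toRing (h ≫ m) = h.appTop.hom.comp (toRing m) := by
  unfold toRing
  rw [Scheme.Hom.comp_appTop, ← Category.assoc]
  rfl

theorem toRing_SpecMap {T : Scheme.{0}} {A B : Type} [CommRing A] [CommRing B]
    (m : T ⟶ Spec (CommRingCat.of A)) (f : B →+* A) :
    toRing (m ≫ Spec.map (CommRingCat.ofHom f)) = (toRing m).comp f := by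
  unfold toRing
  rw [Scheme.Hom.comp_appTop]
  rw [← Category.assoc, ← Scheme.ΓSpecIso_inv_naturality]
  rfl

/-! ### Frobenius -/

section Frob

variable [Fintype k] (L : Type) [Field L] [Algebra k L] [Finite L]

/-- the Frobenius of `L` over `k` -/
abbrev fr : L →ₐ[k] L := FiniteField.frobeniusAlgHom k L

theorem fr_pow_eq_one_iff (i j : ℕ) :
    fr (k := k) L ^ i = fr L ^ j ↔ i % Module.finrank k L = j % Module.finrank k L := by
  have : FiniteDimensional k L := Module.Finite.of_finite
  have h := FiniteField.orderOf_frobeniusAlgHom k L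
  have hfin : 0 < Module.finrank k L := Module.finrank_pos
  have hone : fr (k := k) L ^ Module.finrank k L = 1 := by
    rw [← h]; exact pow_orderOf_eq_one _
  constructor
  · intro hij
    have hi := pow_mod_orderOf (fr (k := k) L) i
    have hj := pow_mod_orderOf (fr (k := k) L) j
    rw [h] at hi hj
    have h3 : fr (k := k) L ^ (i % Module.finrank k L) = fr L ^ (j % Module.finrank k L) := by
      rw [hi, hj, hij]
    have h4 := FiniteField.bijective_frobeniusAlgHom_pow k L
    have h5 := @h4.1 ⟨i % _, Nat.mod_lt _ hfin⟩ ⟨j % _, Nat.mod_lt _ hfin⟩ h3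
    exact congrArg Fin.val h5
  · intro hij
    have hi := pow_mod_orderOf (fr (k := k) L) i
    have hj := pow_mod_orderOf (fr (k := k) L) j
    rw [h] at hi hj
    rw [← hi, ← hj, hij]

/-- a generator of the multiplicative group -/
theorem exists_gen : ∃ α : L, α ≠ 0 ∧ ∀ x : L, x = 0 ∨ ∃ m : ℕ, x = α ^ m := by
  obtain ⟨g, hg⟩ := IsCyclic.exists_monoid_generator (α := Lˣ)
  refine ⟨g, g.ne_zero, fun x => ?_⟩
  by_cases hx : x = 0
  · exact Or.inl hx
  · right
    obtain ⟨m, hm⟩ := hg (Units.mk0 x hx)
    refine ⟨m, ?_⟩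
    have := congrArg Units.val hm
    simpa using this.symm

theorem ringHom_ext_gen {A : Type*} [CommRing A] {α : L} (hα : ∀ x : L, x = 0 ∨ ∃ m : ℕ, x = α ^ m)
    (f g : L →+* A) (h : f α = g α) : f = g := by
  ext x
  rcases hα x with rfl | ⟨m, rfl⟩
  · simp
  · rw [map_pow, map_pow, h]

open Polynomial in
/-- the product identity -/
theorem prod_eq_zero {A : Type*} [CommRing A] (f g : L →+* A)
    (hfg : f.comp (algebraMap k L) = g.comp (algebraMap k L)) (α : L) :
    ∏ i ∈ Finset.range (Module.finrank k L), (g α - f ((fr (k := k) L ^ i) α)) = 0 := by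
  classical
  have : FiniteDimensional k L := Module.Finite.of_finite
  have hfin : 0 < Module.finrank k L := Module.finrank_pos
  set n := Module.finrank k L with hn
  let P : L[X] := ∏ i ∈ Finset.range n, (X - C ((fr (k := k) L ^ i) α))
  have hone : fr (k := k) L ^ n = 1 := by
    rw [hn, ← FiniteField.orderOf_frobeniusAlgHom k L]; exact pow_orderOf_eq_one _
  -- `P` is fixed by the Frobenius
  have hP : P.map (fr (k := k) L).toRingHom = P := by
    have h1 : P.map (fr (k := k) L).toRingHom =
        ∏ i ∈ Finset.range n, (X - C ((fr (k := k) L ^ (i + 1)) α)) := by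
      rw [Polynomial.map_prod]
      refine Finset.prod_congr rfl fun i _ => ?_
      rw [Polynomial.map_sub, Polynomial.map_X, Polynomial.map_C, pow_succ']
      rfl
    have h2 : (∏ i ∈ Finset.range n, (X - C ((fr (k := k) L ^ (i + 1)) α))) *
        (X - C ((fr (k := k) L ^ 0) α)) = P * (X - C ((fr (k := k) L ^ n) α)) := by
      rw [← Finset.prod_range_succ' (fun i => (X - C ((fr (k := k) L ^ i) α)) : ℕ → L[X]),
        Finset.prod_range_succ]
    have h3 : (X - C ((fr (k := k) L ^ n) α) : L[X]) = X - C ((fr (k := k) L ^ 0) α) := by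
      rw [hone, pow_zero]
    rw [h3] at h2
    rw [h1]
    exact mul_right_cancel₀ (X_sub_C_ne_zero _) h2
  -- hence its coefficients are in `k`
  have hcoef : ∀ i, ∃ c : k, algebraMap k L c = P.coeff i := by
    intro i
    have h1 : fr (k := k) L (P.coeff i) = P.coeff i := by
      have := congrArg (fun Q => Polynomial.coeff Q i) hP
      simpa [Polynomial.coeff_map] using this
    have h2 : P.coeff i ∈ Set.range (algebraMap k L) := by
      rw [IsGalois.mem_range_algebraMap_iff_fixed]
      intro τ
      obtain ⟨j, hj⟩ := (FiniteField.bijective_frobeniusAlgHom_pow k L).2 τ.toAlgHom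
      have h3 : ∀ m : ℕ, (fr (k := k) L ^ m) (P.coeff i) = P.coeff i := by
        intro m
        induction m with
        | zero => rw [pow_zero]; rfl
        | succ m ih => rw [pow_succ, AlgHom.mul_apply, h1, ih]
      have h4 := h3 j.1
      have h5 := congrArg (fun F : L →ₐ[k] L => F (P.coeff i)) hj
      simp only at h5
      rw [h4] at h5
      exact h5.symm
    exact h2
  have hPfg : P.map f = P.map g := by
    ext i
    rw [Polynomial.coeff_map, Polynomial.coeff_map]
    obtain ⟨c, hc⟩ := hcoef i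
    rw [← hc]
    exact congrArg (fun F : k →+* A => F c) hfg
  have e1 : (P.map f).eval (g α) = ∏ i ∈ Finset.range n, (g α - f ((fr (k := k) L ^ i) α)) := by
    rw [Polynomial.map_prod, Polynomial.eval_prod]
    refine Finset.prod_congr rfl fun i _ => ?_
    simp
  have e2 : (P.map g).eval (g α) = 0 := by
    rw [Polynomial.map_prod, Polynomial.eval_prod]
    refine Finset.prod_eq_zero (Finset.mem_range.2 hfin) ?_
    simp
  rw [← e1, hPfg, e2]

end Frob

end

end Pool.Agent.H666R3.NG
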