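import Mathlib

/-!
# The genus of a curve, by Čech cohomology of the structure sheaf
-/

set_option autoImplicit false

open AlgebraicGeometry CategoryTheory Opposite

namespace Pool.Agent.H666R3.NG

noncomputable section

/-- For a scheme `X` over `Spec R` and an open subset `W` of `X`, the ring homomorphism from `R` to
the ring of functions on `W`. -/
def fnHom {X : Scheme.{0}} {R : Type} [CommRing R] (f : X ⟶ Spec (.of R)) (W : X.Opens) :
    R →+* Γ(X, W) :=
  ((Scheme.ΓSpecIso (.of R)).inv ≫ f.appTop ≫ X.presheaf.map (homOfLE le_top).op).hom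

/-- For ring homomorphisms `u : A →+* C`, `v : B →+* C` and `s : k →+* C`, where `k` is a field: the
`k`-vector space `C / (u(A) + v(B))` is finite-dimensional of dimension `g`. (The quotient is by the
`k`-linear span of the union of the images of `u` and `v`.) -/
def CokerDim {k A B C : Type} [Field k] [CommRing A] [CommRing B] [CommRing C] (s : k →+* C)
    (u : A →+* C) (v : B →+* C) (g : ℕ) : Prop :=
  letI : Algebra k C := s.toAlgebra
  Module.Finite k (C ⧸ Submodule.span k (Set.range u ∪ Set.range v)) ∧
    Module.finrank k (C ⧸ Submodule.span k (Set.range u ∪ Set.range v)) = g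

/-- For a scheme `X` over a field `k`, open subsets `U`, `V` and an open subset `W` of both: the
`k`-vector space `Γ(W) / (Γ(U) + Γ(V))` is finite-dimensional of dimension `g`. -/
def CechDim {X : Scheme.{0}} {k : Type} [Field k] (f : X ⟶ Spec (.of k)) (U V W : X.Opens)
    (hU : W ≤ U) (hV : W ≤ V) (g : ℕ) : Prop :=
  CokerDim (fnHom f W) (X.presheaf.map (homOfLE hU).op).hom (X.presheaf.map (homOfLE hV).op).hom g

/-- The arithmetic genus (the dimension of `H¹(X, 𝒪_X)`) of a scheme over `k` which is covered by
two affine open subsets `U` and `V` with affine intersection: the first Čech cohomology group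
`Γ(U ∩ V) / (Γ(U) + Γ(V))` of the structure sheaf has dimension `g` over `k`. -/
def HasGenus {X : Scheme.{0}} {k : Type} [Field k] (f : X ⟶ Spec (.of k)) (g : ℕ) : Prop :=
  ∃ U V : X.Opens, IsAffineOpen U ∧ IsAffineOpen V ∧ IsAffineOpen (U ⊓ V) ∧ U ⊔ V = ⊤ ∧
    CechDim f U V (U ⊓ V) inf_le_left inf_le_right g

end

end Pool.Agent.H666R3.NG
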