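import Pool.Agent.H666R3.NG.Curve
import Pool.Agent.H666R3.NG.Cech
import Pool.Agent.H666R3.NG.GenusDefs

/-!
# The genus of the Fermat quartic
-/

set_option autoImplicit false

open MvPolynomial AlgebraicGeometry CategoryTheory Limits TopologicalSpace HomogeneousLocalization

namespace Pool.Agent.H666R3.NG.Fermat

open Pool.Agent.Helper198.Sch

attribute [local instance] MvPolynomial.gradedAlgebra

section general

variable {A : Type} [CommRing A] {R : Type} [CommRing R] [Algebra R A]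
  (𝒜 : ℕ → Submodule R A) [GradedAlgebra 𝒜]

/-- structure map -/
noncomputable def pstr : Proj 𝒜 ⟶ Spec (.of R) :=
  Proj.toSpecZero 𝒜 ≫ Spec.map (CommRingCat.ofHom (algebraMap R (𝒜 0)))

/-- the structure map of a localization -/
noncomputable def awAlg (s : A) : R →+* Away 𝒜 s :=
  (fromZeroRingHom 𝒜 (Submonoid.powers s)).comp (algebraMap R (𝒜 0))

lemma ι_str {m : ℕ} (hm : 0 < m) (s : A) (hs : s ∈ 𝒜 m) :
    (Proj.basicOpen 𝒜 s).ι ≫ pstr 𝒜 =
      Proj.basicOpenToSpec 𝒜 s ≫ Spec.map (CommRingCat.ofHom (awAlg 𝒜 s)) := by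
  have h1 := Proj.basicOpenIsoSpec_inv_ι 𝒜 s hs hm
  rw [Iso.inv_comp_eq] at h1
  unfold pstr
  rw [h1, Category.assoc, Proj.awayι_toSpecZero_assoc, Proj.basicOpenIsoSpec_hom, ← Spec.map_comp]
  rfl

lemma fnHom_basicOpen {m : ℕ} (hm : 0 < m) (s : A) (hs : s ∈ 𝒜 m) :
    fnHom (pstr 𝒜) (Proj.basicOpen 𝒜 s) = (Proj.awayToSection 𝒜 s).hom.comp (awAlg 𝒜 s) := by
  have h1 := congrArg Scheme.Hom.appTop (ι_str 𝒜 hm s hs)
  rw [Scheme.Hom.comp_appTop, Scheme.Hom.comp_appTop] at h1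
  have h2 : (Proj.basicOpenToSpec 𝒜 s).appTop = (Scheme.ΓSpecIso _).hom ≫
      Proj.awayToSection 𝒜 s ≫ (Proj.basicOpen 𝒜 s).topIso.inv := Proj.basicOpenToSpec_app_top 𝒜 s
  have h3 := Scheme.ΓSpecIso_inv_naturality (CommRingCat.ofHom (awAlg 𝒜 s))
  have h4 : (Scheme.ΓSpecIso (.of R)).inv ≫ (pstr 𝒜).appTop ≫
      (Proj.basicOpen 𝒜 s).ι.appTop ≫
      (Proj.basicOpen 𝒜 s).topIso.hom =
      CommRingCat.ofHom (awAlg 𝒜 s) ≫ Proj.awayToSection 𝒜 s := by
    rw [reassoc_of% h1, h2, ← reassoc_of% h3]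
    simp only [Category.assoc, Iso.inv_hom_id, Iso.inv_hom_id_assoc, Category.comp_id]
  have h5 : (Proj 𝒜).presheaf.map (homOfLE (le_top : Proj.basicOpen 𝒜 s ≤ ⊤)).op =
      (Proj.basicOpen 𝒜 s).ι.appTop ≫
      (Proj.basicOpen 𝒜 s).topIso.hom := by
    rw [Scheme.Opens.ι_appTop, Scheme.Opens.topIso_hom]
    exact (Functor.map_comp (Proj 𝒜).presheaf _ _)
  unfold fnHom
  rw [h5, h4]
  rfl

lemma awayToSection_bijective {m : ℕ} (hm : 0 < m) (s : A) (hs : s ∈ 𝒜 m) :
    Function.Bijective (Proj.awayToSection 𝒜 s).hom := by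
  have h : IsIso (Proj.awayToSection 𝒜 s) := by
    rw [← Proj.basicOpenIsoAway_hom 𝒜 s hs hm]
    infer_instance
  exact ConcreteCategory.bijective_of_isIso (Proj.awayToSection 𝒜 s)

lemma range_res {m m' : ℕ} (hm : 0 < m) (f g x : A) (hf : f ∈ 𝒜 m)
    (hg : g ∈ 𝒜 m') (hx : x = f * g) (hle : Proj.basicOpen 𝒜 x ≤ Proj.basicOpen 𝒜 f) :
    Set.range ((Proj 𝒜).presheaf.map (homOfLE hle).op) =
      Set.range ((Proj.awayToSection 𝒜 x).hom.comp (awayMap 𝒜 hg hx)) := by
  have h1 := Proj.awayMap_awayToSection 𝒜 hg hx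
  have h2 := (awayToSection_bijective 𝒜 hm f hf).surjective
  ext z
  constructor
  · rintro ⟨w, rfl⟩
    obtain ⟨a, rfl⟩ := h2 w
    exact ⟨a, congrArg (fun φ => φ.hom a) h1⟩
  · rintro ⟨a, rfl⟩
    exact ⟨(Proj.awayToSection 𝒜 f).hom a, (congrArg (fun φ => φ.hom a) h1).symm⟩

end general

lemma isLoc_transfer {R S P Q : Type} [CommRing R] [CommRing S] [CommRing P] [CommRing Q]
    (φ : R →+* S) (ψ : P →+* Q) (e : R ≃+* P) (h : S ≃+* Q) (a : R)
    (hc : ∀ r, ψ (e r) = h (φ r))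
    (H : letI := φ.toAlgebra; IsLocalization.Away a S) :
    letI := ψ.toAlgebra; IsLocalization.Away (e a) Q := by
  let := φ.toAlgebra
  let := ψ.toAlgebra
  have H' : IsLocalization.Away a S := H
  refine { map_units := ?_, surj := ?_, exists_of_eq := ?_ }
  · rintro ⟨_, n, rfl⟩
    change IsUnit (ψ (e a ^ n))
    rw [map_pow, hc]
    exact ((IsLocalization.Away.algebraMap_isUnit (S := S) a).map h).pow n
  · intro q
    obtain ⟨⟨r, ⟨_, n, rfl⟩⟩, hr⟩ := IsLocalization.surj (Submonoid.powers a) (h.symm q)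
    refine ⟨(e r, ⟨e a ^ n, n, rfl⟩), ?_⟩
    change q * ψ (e a ^ n) = ψ (e r)
    have hr' : h.symm q * φ (a ^ n) = φ r := hr
    rw [hc, ← hr', map_mul, h.apply_symm_apply, ← map_pow, hc]
  · intro p p' hpp
    have hpp' : ψ p = ψ p' := hpp
    obtain ⟨r, rfl⟩ := e.surjective p
    obtain ⟨r', rfl⟩ := e.surjective p'
    rw [hc, hc] at hpp'
    obtain ⟨⟨_, n, rfl⟩, hn⟩ := IsLocalization.exists_of_eq (M := Submonoid.powers a) (S := S)
      (show algebraMap R S r = algebraMap R S r' from h.injective hpp')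
    refine ⟨⟨e a ^ n, n, rfl⟩, ?_⟩
    have := congrArg e hn
    simpa using this

section fermat

variable (K : Type) [Field K]

/-- the two orderings -/
def t1 : Ord := ⟨1, 0, 2, by decide, by decide, by decide⟩
/-- the two orderings -/
def t2 : Ord := ⟨2, 0, 1, by decide, by decide, by decide⟩

/-- the grading -/
noncomputable abbrev gr : ℕ → Submodule K (MvPolynomial (Fin 3) K ⧸ (J K).toIdeal) :=
  qgrad (J K).toIdeal

/-- `X₁ X₂`. -/
noncomputable def s12 : MvPolynomial (Fin 3) K ⧸ (J K).toIdeal := gen (J K) 1 * gen (J K) 2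

lemma s12_eq : s12 K = gen (J K) 2 * gen (J K) 1 := mul_comm _ _

lemma s12_mem : s12 K ∈ gr K (1 + 1) := SetLike.mul_mem_graded (gen_mem _ _) (gen_mem _ _)

/-- the intersection of the two charts. -/
noncomputable abbrev W12 : (Proj (gr K)).Opens := Proj.basicOpen (gr K) (s12 K)

/-- the map from the ring of the first chart -/
noncomputable def ψ1 : Ch (J K) 1 →+* Γ(Proj (gr K), W12 K) :=
  (Proj.awayToSection (gr K) (s12 K)).hom.comp (awayMap (gr K) (gen_mem (J K) 2) rfl)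

/-- the map from the ring of the second chart -/
noncomputable def ψ2 : Ch (J K) 2 →+* Γ(Proj (gr K), W12 K) :=
  (Proj.awayToSection (gr K) (s12 K)).hom.comp (awayMap (gr K) (gen_mem (J K) 1) (s12_eq K))

lemma ψ1_alg (r : K) : ψ1 K (algebraMap K _ r) = fnHom (pstr (gr K)) (W12 K) r := by
  rw [fnHom_basicOpen (gr K) (by norm_num) (s12 K) (s12_mem K)]
  change (Proj.awayToSection (gr K) (s12 K)).hom (awayMap (gr K) (gen_mem (J K) 2) rfl
    (fromZeroRingHom _ _ _)) = _
  rw [awayMap_fromZeroRingHom]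
  rfl

lemma ψ2_alg (r : K) : ψ2 K (algebraMap K _ r) = fnHom (pstr (gr K)) (W12 K) r := by
  rw [fnHom_basicOpen (gr K) (by norm_num) (s12 K) (s12_mem K)]
  change (Proj.awayToSection (gr K) (s12 K)).hom (awayMap (gr K) (gen_mem (J K) 1) (s12_eq K)
    (fromZeroRingHom _ _ _)) = _
  rw [awayMap_fromZeroRingHom]
  rfl

lemma awayMap_frac {f g x : MvPolynomial (Fin 3) K ⧸ (J K).toIdeal} {m : ℕ}
    (c a : Fin 3) (hf : f = gen (J K) c) (hg : g ∈ gr K m) (hx : x = f * g) :
    algebraMap _ (Localization.Away x) (gen (J K) c) *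
      (awayMap (gr K) hg hx (hf ▸ frac (J K) c a : Away (gr K) f)).val =
    algebraMap _ (Localization.Away x) (gen (J K) a) := by
  subst hf
  rw [val_awayMap]
  have h := chVal_frac (J K) c a
  have h2 : (frac (J K) c a : Away (gr K) (gen (J K) c)).val = chVal (J K) c (frac (J K) c a) := rfl
  change _ * Localization.awayLift _ _ _ (frac (J K) c a : Away (gr K) (gen (J K) c)).val = _
  rw [h2]
  have h3 := congrArg (Localization.awayLift (algebraMap _ (Localization.Away x)) _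
    (isUnit_of_dvd_unit (map_dvd _ ⟨_, hx⟩) (IsLocalization.Away.algebraMap_isUnit x))) h
  rw [map_mul] at h3
  have h4 : ∀ z, Localization.awayLift (algebraMap _ (Localization.Away x)) _
    (isUnit_of_dvd_unit (map_dvd _ ⟨_, hx⟩) (IsLocalization.Away.algebraMap_isUnit x))
    (algebraMap (MvPolynomial (Fin 3) K ⧸ (J K).toIdeal) (Localization.Away (gen (J K) c)) z) =
      algebraMap _ (Localization.Away x) z := by
    intro z
    exact IsLocalization.Away.lift_eq _ _ _
  rw [h4, h4] at h3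
  exact h3

lemma rel_away :
    awayMap (gr K) (gen_mem (J K) 1) (s12_eq K) (frac (J K) 2 1) *
      awayMap (gr K) (gen_mem (J K) 2) (rfl : s12 K = _) (frac (J K) 1 2) = 1 ∧
    awayMap (gr K) (gen_mem (J K) 2) (rfl : s12 K = _) (frac (J K) 1 0) =
      awayMap (gr K) (gen_mem (J K) 1) (s12_eq K) (frac (J K) 2 0) *
        awayMap (gr K) (gen_mem (J K) 2) (rfl : s12 K = _) (frac (J K) 1 2) := by
  have h21 := awayMap_frac K (x := s12 K) 2 1 rfl (gen_mem (J K) 1) (s12_eq K)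
  have h20 := awayMap_frac K (x := s12 K) 2 0 rfl (gen_mem (J K) 1) (s12_eq K)
  have h12 := awayMap_frac K (x := s12 K) 1 2 rfl (gen_mem (J K) 2) rfl
  have h10 := awayMap_frac K (x := s12 K) 1 0 rfl (gen_mem (J K) 2) rfl
  have hu : IsUnit (algebraMap (MvPolynomial (Fin 3) K ⧸ (J K).toIdeal)
      (Localization.Away (s12 K)) (s12 K)) := IsLocalization.Away.algebraMap_isUnit _
  have hu1 : IsUnit (algebraMap (MvPolynomial (Fin 3) K ⧸ (J K).toIdeal)
      (Localization.Away (s12 K)) (gen (J K) 1)) :=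
    isUnit_of_dvd_unit (map_dvd _ ⟨_, rfl⟩) hu
  have hu2 : IsUnit (algebraMap (MvPolynomial (Fin 3) K ⧸ (J K).toIdeal)
      (Localization.Away (s12 K)) (gen (J K) 2)) :=
    isUnit_of_dvd_unit (map_dvd _ ⟨_, s12_eq K⟩) hu
  constructor
  · apply HomogeneousLocalization.val_injective
    rw [val_mul, val_one]
    apply hu2.mul_left_cancel
    rw [← mul_assoc]
    refine (congrArg (· * _) h21).trans ?_
    rw [mul_one]
    exact h12
  · apply HomogeneousLocalization.val_injective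
    rw [val_mul]
    apply hu1.mul_left_cancel
    refine h10.trans ?_
    rw [← h20, mul_comm (val _) (val _), ← mul_assoc]
    exact congrArg (· * _) h12.symm

lemma rel_ψ : ψ2 K (frac (J K) 2 1) * ψ1 K (frac (J K) 1 2) = 1 ∧
    ψ1 K (frac (J K) 1 0) = ψ2 K (frac (J K) 2 0) * ψ1 K (frac (J K) 1 2) := by
  have h := rel_away K
  constructor
  · refine (map_mul (Proj.awayToSection (gr K) (s12 K)).hom _ _).symm.trans ?_
    refine (congrArg _ h.1).trans ?_
    exact map_one _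
  · refine (congrArg (Proj.awayToSection (gr K) (s12 K)).hom h.2).trans ?_
    exact map_mul _ _ _

set_option synthInstance.maxHeartbeats 400000 in
lemma cechDim_W :
    CechDim (pstr (gr K)) (Proj.basicOpen (gr K) (gen (J K) 1)) (Proj.basicOpen (gr K) (gen (J K) 2))
      (W12 K) (Proj.basicOpen_mono _ _ _ ⟨_, rfl⟩) (Proj.basicOpen_mono _ _ _ ⟨_, s12_eq K⟩) 3 := by
  unfold CechDim CokerDim
  letI i0 : Algebra K Γ(Proj (gr K), W12 K) := (fnHom (pstr (gr K)) (W12 K)).toAlgebra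
  let r1 : Ch (J K) 1 →ₐ[K] Γ(Proj (gr K), W12 K) := { ψ1 K with commutes' := ψ1_alg K }
  let r2 : Ch (J K) 2 →ₐ[K] Γ(Proj (gr K), W12 K) := { ψ2 K with commutes' := ψ2_alg K }
  let q1 : A K →ₐ[K] Γ(Proj (gr K), W12 K) := r1.comp (chEquiv (R := K) t1).symm.toAlgHom
  let q2 : A K →ₐ[K] Γ(Proj (gr K), W12 K) := r2.comp (chEquiv (R := K) t2).symm.toAlgHom
  letI i2 : Algebra (A K) Γ(Proj (gr K), W12 K) := q2.toRingHom.toAlgebra
  have hst : IsScalarTower K (A K) Γ(Proj (gr K), W12 K) :=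
    IsScalarTower.of_algebraMap_eq (fun r => (q2.commutes r).symm)
  have e1y : (chEquiv (R := K) t1).symm (y K) = frac (J K) 1 0 := by
    rw [AlgEquiv.symm_apply_eq]
    exact (chEquiv_a (R := K) t1).symm
  have e1x : (chEquiv (R := K) t1).symm (x K) = frac (J K) 1 2 := by
    rw [AlgEquiv.symm_apply_eq]
    exact (chEquiv_b (R := K) t1).symm
  have e2y : (chEquiv (R := K) t2).symm (y K) = frac (J K) 2 0 := by
    rw [AlgEquiv.symm_apply_eq]
    exact (chEquiv_a (R := K) t2).symm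
  have e2x : (chEquiv (R := K) t2).symm (x K) = frac (J K) 2 1 := by
    rw [AlgEquiv.symm_apply_eq]
    exact (chEquiv_b (R := K) t2).symm
  have q1x : q1 (x K) = ψ1 K (frac (J K) 1 2) := congrArg (ψ1 K) e1x
  have q1y : q1 (y K) = ψ1 K (frac (J K) 1 0) := congrArg (ψ1 K) e1y
  have q2x : q2 (x K) = ψ2 K (frac (J K) 2 1) := congrArg (ψ2 K) e2x
  have q2y : q2 (y K) = ψ2 K (frac (J K) 2 0) := congrArg (ψ2 K) e2y
  have hrel := rel_ψ K
  let u : Γ(Proj (gr K), W12 K)ˣ :=
    ⟨ψ2 K (frac (J K) 2 1), ψ1 K (frac (J K) 1 2), hrel.1, (mul_comm _ _).trans hrel.1⟩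
  have hloc : IsLocalization.Away (x K) Γ(Proj (gr K), W12 K) := by
    have h1 := Away.isLocalization_mul (gen_mem (J K) 2) (gen_mem (J K) 1) (s12_eq K) one_ne_zero
    rw [V.isLocalizationElem_eq] at h1
    have h2 := isLoc_transfer (awayMap (gr K) (gen_mem (J K) 1) (s12_eq K)) q2.toRingHom
      (chEquiv (R := K) t2).toRingEquiv
      (RingEquiv.ofBijective _ (awayToSection_bijective (gr K) (by norm_num) (s12 K) (s12_mem K)))
      (frac (J K) 2 1) (fun r => by
        change ψ2 K ((chEquiv (R := K) t2).symm (chEquiv (R := K) t2 r)) = _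
        rw [AlgEquiv.symm_apply_apply]
        rfl) h1
    have h3 : (chEquiv (R := K) t2).toRingEquiv (frac (J K) 2 1) = x K := chEquiv_b (R := K) t2
    exact Eq.mp (congrArg (fun z => IsLocalization.Away z Γ(Proj (gr K), W12 K)) h3) h2
  have key := cech (K := K) (B := Γ(Proj (gr K), W12 K)) u q2x.symm q1 q1x (by
    rw [q1y]
    exact hrel.2.trans (congrArg (· * _) q2y.symm))
  have hS : Submodule.span K
      (Set.range ((Proj (gr K)).presheaf.map (homOfLE (Proj.basicOpen_mono (gr K) _ _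
        (⟨_, rfl⟩ : gen (J K) 1 ∣ s12 K))).op) ∪
        Set.range ((Proj (gr K)).presheaf.map (homOfLE (Proj.basicOpen_mono (gr K) _ _
        (⟨_, s12_eq K⟩ : gen (J K) 2 ∣ s12 K))).op)) =
      LinearMap.range q1.toLinearMap ⊔
        LinearMap.range (IsScalarTower.toAlgHom K (A K) Γ(Proj (gr K), W12 K)).toLinearMap := by
    rw [range_res (gr K) one_pos (gen (J K) 1) (gen (J K) 2) (s12 K) (gen_mem _ _) (gen_mem _ _) rfl,
      range_res (gr K) one_pos (gen (J K) 2) (gen (J K) 1) (s12 K) (gen_mem _ _) (gen_mem _ _)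
        (s12_eq K), Submodule.span_union]
    congr 1
    · have : (Set.range ((Proj.awayToSection (gr K) (s12 K)).hom.comp
          (awayMap (gr K) (gen_mem (J K) 2) (rfl : s12 K = _)))) =
          ((LinearMap.range q1.toLinearMap : Submodule K _) : Set _) := by
        ext z
        constructor
        · rintro ⟨a, rfl⟩
          exact ⟨chEquiv (R := K) t1 a, congrArg (ψ1 K) ((chEquiv (R := K) t1).symm_apply_apply a)⟩
        · rintro ⟨a, rfl⟩
          exact ⟨(chEquiv (R := K) t1).symm a, rfl⟩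
      rw [this, Submodule.span_eq]
    · have : (Set.range ((Proj.awayToSection (gr K) (s12 K)).hom.comp
          (awayMap (gr K) (gen_mem (J K) 1) (s12_eq K)))) =
          ((LinearMap.range (IsScalarTower.toAlgHom K (A K)
            Γ(Proj (gr K), W12 K)).toLinearMap : Submodule K _) : Set _) := by
        ext z
        constructor
        · rintro ⟨a, rfl⟩
          exact ⟨chEquiv (R := K) t2 a, congrArg (ψ2 K) ((chEquiv (R := K) t2).symm_apply_apply a)⟩
        · rintro ⟨a, rfl⟩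
          exact ⟨(chEquiv (R := K) t2).symm a, rfl⟩
      rw [this, Submodule.span_eq]
  rw [hS]
  exact key

lemma W12_eq : W12 K =
    Proj.basicOpen (gr K) (gen (J K) 1) ⊓ Proj.basicOpen (gr K) (gen (J K) 2) :=
  Proj.basicOpen_mul _ _ _

lemma cover12 :
    Proj.basicOpen (gr K) (gen (J K) 1) ⊔ Proj.basicOpen (gr K) (gen (J K) 2) = ⊤ := by
  rw [eq_top_iff]
  intro x _
  by_contra hcon
  have h1 : x ∉ Proj.basicOpen (gr K) (gen (J K) 1) := fun h => hcon (Or.inl h)
  have h2 : x ∉ Proj.basicOpen (gr K) (gen (J K) 2) := fun h => hcon (Or.inr h)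
  obtain ⟨c, hc⟩ := V.exists_mem_D (J K) x
  have hc0 : c = 0 := by
    fin_cases c
    · rfl
    · exact absurd hc h1
    · exact absurd hc h2
  subst hc0
  rw [Proj.mem_basicOpen, not_not] at h1 h2
  rw [V.mem_D_iff] at hc
  apply hc
  have hr : gen (J K) 0 ^ 4 + gen (J K) 1 ^ 4 + gen (J K) 2 ^ 4 = 0 := by
    have h : Ideal.Quotient.mk (J K).toIdeal (form K) = 0 :=
      Ideal.Quotient.eq_zero_iff_mem.2 (mem_ofSet rfl)
    rw [form, map_sum, Fin.sum_univ_three] at h
    simp only [map_pow] at h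
    exact h
  have h3 : gen (J K) 0 ^ 4 ∈ (ProjectiveSpectrum.asHomogeneousIdeal (𝒜 := gr K) x).toIdeal := by
    have e : gen (J K) 0 ^ 4 = (-gen (J K) 1 ^ 3) * gen (J K) 1 + (-gen (J K) 2 ^ 3) * gen (J K) 2 := by
      linear_combination hr
    rw [e]
    exact Ideal.add_mem _ (Ideal.mul_mem_left _ _ h1) (Ideal.mul_mem_left _ _ h2)
  exact x.isPrime.mem_of_pow_mem 4 h3

/-- The Fermat quartic has genus three. -/
theorem hasGenus_curve : HasGenus (V.str (J K)) 3 := by
  have h : ∀ (W : (Proj (gr K)).Opens) (hU : W ≤ Proj.basicOpen (gr K) (gen (J K) 1))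
      (hV : W ≤ Proj.basicOpen (gr K) (gen (J K) 2)), W = W12 K →
      CechDim (pstr (gr K)) (Proj.basicOpen (gr K) (gen (J K) 1))
        (Proj.basicOpen (gr K) (gen (J K) 2)) W hU hV 3 := by
    rintro W hU hV rfl
    exact cechDim_W K
  have h1 : HasGenus (pstr (gr K)) 3 := by
    refine ⟨Proj.basicOpen (gr K) (gen (J K) 1), Proj.basicOpen (gr K) (gen (J K) 2),
      Proj.isAffineOpen_basicOpen _ _ (gen_mem _ _) one_pos,
      Proj.isAffineOpen_basicOpen _ _ (gen_mem _ _) one_pos, ?_, cover12 K,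
      h _ _ _ (W12_eq K).symm⟩
    rw [← W12_eq]
    exact Proj.isAffineOpen_basicOpen _ _ (s12_mem K) (by norm_num)
  exact h1

end fermat

end Pool.Agent.H666R3.NG.Fermat
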