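import Pool.Agent.H666R3.NG.Types

set_option autoImplicit false
set_option linter.unusedSectionVars false

open CategoryTheory AlgebraicGeometry Opposite

namespace Pool.Agent.H666R3.NG

noncomputable section

variable {k : Type} [Field k] [Fintype k]

theorem exists_fiber {𝒳 : OverSch k} (hX : IsFibredInGroupoids 𝒳) {y : 𝒳.obj}
    (ey : 𝒳.p.obj y ≅ pt k) : ∃ y' : 𝒳.p.Fiber (pt k), Nonempty (y ≅ y'.1) := by
  obtain ⟨y', φ, hφ⟩ := exists_pull' hX y rfl ey.inv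
  have h1 : 𝒳.p.obj y' = pt k := IsHomLift.domain_eq 𝒳.p ey.inv φ
  have h2 := IsHomLift.fac' 𝒳.p ey.inv φ
  haveI : IsIso φ := isIso_of_base hX φ (by rw [h2]; infer_instance)
  exact ⟨⟨y', h1⟩, ⟨(asIso φ).symm⟩⟩

/-- finitely many isomorphism classes -/
theorem exists_reps {𝒳 : OverSch k} (h : IsFiniteGerbe 𝒳) :
    ∃ (ι : Type) (_ : Finite ι) (s : ι → 𝒳.p.Fiber (pt k)),
      ∀ y : 𝒳.obj, Nonempty (𝒳.p.obj y ≅ pt k) → ∃ i, Nonempty (y ≅ (s i).1) := by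
  have hst := h.finite.stack
  obtain ⟨u, hu⟩ := h.finite.exists_atlas
  obtain ⟨P, a, b, hP, hPf, _⟩ := hu.2 u
  have hfinP : IsFinite (𝒳.p.obj P).hom := by
    obtain ⟨A, _, _, hA, ⟨e⟩⟩ := exists_finite_alg _ hu.1
    exact finite_over a e hPf
  obtain ⟨A, _, _, hA, ⟨eA⟩⟩ := exists_finite_alg _ hfinP
  haveI : Finite (SpecO k (AlgebraicClosure k) ⟶ 𝒳.p.obj P) := by
    haveI : Finite (SpecO k (AlgebraicClosure k) ⟶ SpecO k A) := finite_hom inferInstance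
    refine Finite.of_injective (fun m : SpecO k (AlgebraicClosure k) ⟶ 𝒳.p.obj P => m ≫ eA.hom) ?_
    intro m m' hm
    exact (cancel_mono eA.hom).1 hm
  let σ : {τ : SpecO k (AlgebraicClosure k) ⟶ 𝒳.p.obj P //
      ∃ y : 𝒳.p.Fiber (pt k), IsType a b y.1 τ} → 𝒳.p.Fiber (pt k) := fun τ => τ.2.choose
  have hσ : ∀ τ, IsType a b (σ τ).1 τ.1 := fun τ => τ.2.choose_spec
  refine ⟨_, inferInstance, σ, ?_⟩
  rintro y ⟨ey⟩
  obtain ⟨y', ⟨e'⟩⟩ := exists_fiber hst.fibred ey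
  obtain ⟨τ, hτ⟩ := exists_type hst.fibred hu a b hP (y := y'.1) (eqToIso y'.2)
  refine ⟨⟨τ, y', hτ⟩, ?_⟩
  obtain ⟨e''⟩ := iso_of_type hst a b (eqToIso y'.2) (eqToIso (σ ⟨τ, y', hτ⟩).2) hτ
    (hσ ⟨τ, y', hτ⟩)
  exact ⟨e' ≪≫ e''⟩

theorem ev_exists {I X : Type*} [Finite X] (𝒰 : Ultrafilter I) (P : X → I → Prop)
    (h : ∀ᶠ m in (𝒰 : Filter I), ∃ x, P x m) : ∃ x, ∀ᶠ m in (𝒰 : Filter I), P x m := by
  have h1 : (⋃ x ∈ (Set.univ : Set X), {m | P x m}) ∈ 𝒰 := by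
    refine Filter.mem_of_superset h ?_
    rintro m ⟨x, hx⟩
    simp only [Set.mem_iUnion]
    exact ⟨x, trivial, hx⟩
  rw [Ultrafilter.finite_biUnion_mem_iff Set.finite_univ] at h1
  obtain ⟨x, _, hx⟩ := h1
  exact ⟨x, hx⟩

theorem isHomLift_pt {𝒳 : OverSch k} {a b : 𝒳.obj} (φ : a ⟶ b) (ha : 𝒳.p.obj a = pt k)
    (hb : 𝒳.p.obj b = pt k) : 𝒳.p.IsHomLift (𝟙 (pt k)) φ := by
  refine IsHomLift.of_fac' 𝒳.p (𝟙 (pt k)) φ ha hb ?_
  exact pt_unique' (eqToIso hb) _ _ _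

/-- **The projective limit of finite gerbes over a finite field has an object over `Spec k`.** -/
theorem exists_limObj {I : Type} [Preorder I] [IsDirectedOrder I] [Nonempty I]
    (𝒮 : Diagram (Sch k) I) (α : 𝒮.Transitivity) (h𝒮 : IsSystem 𝒮 α)
    (hfin : ∀ i, IsFiniteGerbe (𝒮.Γ i)) : ∃ o : LimData 𝒮 (pt k), IsLimObj α o := by
  classical
  choose ι hι s hs using fun i => exists_reps (hfin i)
  have hX : ∀ i, ∃ y : (𝒮.Γ i).p.Fiber (pt k), True := by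
    intro i
    obtain ⟨y, ⟨ey⟩⟩ := exists_rational_point (hfin i)
    obtain ⟨y', _⟩ := exists_fiber (hfin i).finite.stack.fibred ey
    exact ⟨y', trivial⟩
  choose X _ using hX
  let 𝒰 : Ultrafilter I := Ultrafilter.of Filter.atTop
  have h𝒰 : (𝒰 : Filter I) ≤ Filter.atTop := Ultrafilter.of_le _
  have hge : ∀ i, ∀ᶠ m in (𝒰 : Filter I), i ≤ m := fun i => h𝒰 (Filter.eventually_ge_atTop i)
  -- the class of the image of `X m`
  have hFp : ∀ {i m : I} (h : i ≤ m), (𝒮.Γ i).p.obj ((𝒮.F h).obj (X m).1) = pt k := fun {i m} h =>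
    ((𝒮.F h).w_obj _).trans (X m).2
  have hT : ∀ i, ∃ c : ι i, ∀ᶠ m in (𝒰 : Filter I), ∃ h : i ≤ m,
      Nonempty ((𝒮.F h).obj (X m).1 ≅ (s i c).1) := by
    intro i
    haveI := hι i
    apply ev_exists
    filter_upwards [hge i] with m hm
    obtain ⟨c, hc⟩ := hs i _ ⟨eqToIso (hFp hm)⟩
    exact ⟨c, hm, hc⟩
  choose T hT using hT
  let β : ∀ (i j l : I) (hij : i ≤ j) (hjl : j ≤ l) (x : (𝒮.Γ l).obj),
    (𝒮.F hij).obj ((𝒮.F hjl).obj x) ⟶ (𝒮.F (hij.trans hjl)).obj x := α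
  -- choose the isomorphisms
  let B : ∀ (i m : I) (h : i ≤ m) (_ : Nonempty ((𝒮.F h).obj (X m).1 ≅ (s i (T i)).1)),
    ((𝒮.F h).obj (X m).1 ≅ (s i (T i)).1) := fun i m h H => H.some
  have hG : ∀ (i j : I) (hij : i ≤ j), ∃ g : (𝒮.F hij).obj (s j (T j)).1 ⟶ (s i (T i)).1,
      ∀ᶠ m in (𝒰 : Filter I), ∃ (hm : j ≤ m) (H₁ : Nonempty ((𝒮.F (hij.trans hm)).obj (X m).1 ≅ (s i (T i)).1))
        (H₂ : Nonempty ((𝒮.F hm).obj (X m).1 ≅ (s j (T j)).1)),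
        g = (𝒮.F hij).map (B j m hm H₂).inv ≫ β i j m hij hm (X m).1 ≫
          (B i m (hij.trans hm) H₁).hom := by
    intro i j hij
    obtain ⟨u, hu⟩ := (hfin i).finite.exists_atlas
    haveI : Finite ((𝒮.F hij).obj (s j (T j)).1 ⟶ (s i (T i)).1) := by
      refine finite_hom_pt (hfin i).finite.stack hu (eqToIso ?_) (eqToIso (s i (T i)).2)
      exact ((𝒮.F hij).w_obj _).trans (s j (T j)).2
    apply ev_exists
    filter_upwards [hT i, hT j] with m hm hm'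
    obtain ⟨h1, H1⟩ := hm
    obtain ⟨h2, H2⟩ := hm'
    exact ⟨_, h2, H1, H2, rfl⟩
  choose g hg using hG
  have hgp : ∀ (i j : I) (hij : i ≤ j), (𝒮.Γ i).p.IsHomLift (𝟙 (pt k)) (g i j hij) := by
    intro i j hij
    exact isHomLift_pt _ (((𝒮.F hij).w_obj _).trans (s j (T j)).2) (s i (T i)).2
  have hgi : ∀ (i j : I) (hij : i ≤ j), IsIso (g i j hij) := by
    intro i j hij
    apply isIso_of_base (hfin i).finite.stack.fibred
    have := hgp i j hij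
    rw [IsHomLift.fac' (𝒮.Γ i).p (𝟙 (pt k)) (g i j hij)]
    infer_instance
  refine ⟨{ ξ := fun i => s i (T i)
            φ := fun i j h => g i j h },
    { liesOver := fun i j h => hgp i j h
      coh := ?_ }⟩
  intro i j l hij hjl
  change (𝒮.F hij).map (g j l hjl) ≫ g i j hij =
    β i j l hij hjl (s l (T l)).1 ≫ g i l (hij.trans hjl)
  obtain ⟨m, ⟨hm1, H1, H2, e1⟩, ⟨hm2, H3, H4, e2⟩, ⟨hm3, H5, H6, e3⟩⟩ :=
    ((hg i j hij).and ((hg j l hjl).and (hg i l (hij.trans hjl)))).exists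
  rw [e1, e2, e3]
  have hcoh : (𝒮.F hij).map (β j l m hjl hm2 (X m).1) ≫ β i j m hij (hjl.trans hm2) (X m).1 =
      β i j l hij hjl ((𝒮.F hm2).obj (X m).1) ≫ β i l m (hij.trans hjl) hm2 (X m).1 :=
    h𝒮.coh i j l m hij hjl hm2 (X m).1
  have hnat : (𝒮.F hij).map ((𝒮.F hjl).map (B l m hm2 H4).inv) ≫
        β i j l hij hjl ((𝒮.F hm2).obj (X m).1) =
      β i j l hij hjl (s l (T l)).1 ≫ (𝒮.F (hij.trans hjl)).map (B l m hm2 H4).inv :=
    h𝒮.nat i j l hij hjl (s l (T l)).1 ((𝒮.F hm2).obj (X m).1) (B l m hm2 H4).inv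
  calc (𝒮.F hij).map ((𝒮.F hjl).map (B l m hm2 H4).inv ≫ β j l m hjl hm2 (X m).1 ≫
        (B j m (hjl.trans hm2) H3).hom) ≫ (𝒮.F hij).map (B j m hm1 H2).inv ≫
        β i j m hij hm1 (X m).1 ≫ (B i m (hij.trans hm1) H1).hom
      = (𝒮.F hij).map ((𝒮.F hjl).map (B l m hm2 H4).inv) ≫
        ((𝒮.F hij).map (β j l m hjl hm2 (X m).1) ≫ β i j m hij (hjl.trans hm2) (X m).1) ≫
        (B i m (hij.trans hm1) H1).hom := by
        simp only [Functor.map_comp, Category.assoc]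
        congr 2
        rw [← Category.assoc ((𝒮.F hij).map (B j m (hjl.trans hm2) H3).hom), ← Functor.map_comp]
        have : (B j m (hjl.trans hm2) H3).hom ≫ (B j m hm1 H2).inv = 𝟙 _ :=
          (B j m (hjl.trans hm2) H3).hom_inv_id
        rw [this]
        simp
    _ = ((𝒮.F hij).map ((𝒮.F hjl).map (B l m hm2 H4).inv) ≫
        β i j l hij hjl ((𝒮.F hm2).obj (X m).1)) ≫ β i l m (hij.trans hjl) hm2 (X m).1 ≫
        (B i m (hij.trans hm1) H1).hom := by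
        rw [hcoh]; simp only [Category.assoc]
    _ = _ := by
        rw [hnat]; simp only [Category.assoc]

/-- **Every profinite gerbe over a finite field has an object over `Spec k`.** -/
theorem exists_point_profinite {Pi : OverSch k} (h : IsProfiniteGerbe Pi) :
    Nonempty (Pi.p.Fiber (pt k)) := by
  obtain ⟨I, _, _, _, 𝒮, α, c, h𝒮, hfin, hc⟩ := h.limit
  obtain ⟨o, ho⟩ := exists_limObj 𝒮 α h𝒮 hfin
  obtain ⟨x, _⟩ := hc.essSurj (pt k) o ho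
  exact ⟨x⟩

end

end Pool.Agent.H666R3.NG
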