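import Pool.Agent.H666R3.NG.Defs

/-!
# Reformulations of the descent conditions
-/

set_option autoImplicit false

open CategoryTheory

namespace Pool.Agent.H666R3.NG

universe u v w₁ w₂

section

variable {C : Type u} [Category.{v} C]

theorem inSieve_iff {S T : C} (R : Sieve S) (f : T ⟶ S) : InSieve R f ↔ R f :=
  (R.mem_iff_pullback_eq_top f).symm

/-- Descent for morphisms, with membership in the sieve. -/
def MorphismsDescend₀ (J : GrothendieckTopology C) (𝒳 : BasedCategory.{w₁, w₂} C) : Prop :=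
  ∀ (x y : 𝒳.obj) (f : 𝒳.p.obj x ⟶ 𝒳.p.obj y) (R : Sieve (𝒳.p.obj x)), R ∈ J (𝒳.p.obj x) →
    ∀ b : (z : 𝒳.obj) → (a : z ⟶ x) → R (𝒳.p.map a) → (z ⟶ y),
      (∀ z a h, 𝒳.p.map (b z a h) = 𝒳.p.map a ≫ f) →
      (∀ (z z' : 𝒳.obj) (e : z' ⟶ z) (a : z ⟶ x) h h', b z' (e ≫ a) h' = e ≫ b z a h) →
      ∃! ψ : x ⟶ y, 𝒳.p.map ψ = f ∧ ∀ z a h, a ≫ ψ = b z a h

/-- Descent for objects, with Mathlib's category of arrows of a sieve. -/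
def ObjectsDescend₀ (J : GrothendieckTopology C) (𝒳 : BasedCategory.{w₁, w₂} C) : Prop :=
  ∀ (S : C) (R : Sieve S), R ∈ J S →
    ∀ (D : R.arrows.category ⥤ 𝒳.obj)
      (θ : D ⋙ 𝒳.p ≅ ObjectProperty.ι _ ⋙ Over.forget S),
      ∃ (x : 𝒳.obj) (e : 𝒳.p.obj x ≅ S) (c : ∀ f : R.arrows.category, D.obj f ⟶ x),
        (∀ f, 𝒳.p.map (c f) ≫ e.hom = θ.hom.app f ≫ f.obj.hom) ∧
        ∀ (f g : R.arrows.category) (h : f ⟶ g), D.map h ≫ c g = c f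

theorem IsStack.morphisms₀ {J : GrothendieckTopology C} {𝒳 : BasedCategory.{w₁, w₂} C}
    (h : IsStack J 𝒳) : MorphismsDescend₀ J 𝒳 := by
  intro x y f R hR b hb hb'
  obtain ⟨ψ, ⟨h1, h2⟩, h3⟩ := h.morphisms x y f R hR
    (fun z a ha => b z a ((inSieve_iff R _).1 ha)) (fun z a ha => hb z a _)
    (fun z z' e a ha ha' => hb' z z' e a _ _)
  refine ⟨ψ, ⟨h1, fun z a ha => h2 z a ((inSieve_iff R _).2 ha)⟩, ?_⟩
  rintro ψ' ⟨h4, h5⟩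
  exact h3 ψ' ⟨h4, fun z a ha => h5 z a ((inSieve_iff R _).1 ha)⟩

theorem IsStack.objects₀ {J : GrothendieckTopology C} {𝒳 : BasedCategory.{w₁, w₂} C}
    (h : IsStack J 𝒳) : ObjectsDescend₀ J 𝒳 := by
  intro S R hR D θ
  let Φ : (sieveObj R).FullSubcategory ⥤ R.arrows.category :=
    ObjectProperty.lift _ (sieveObj R).ι (fun f => (inSieve_iff R _).1 f.property)
  let D' : (sieveObj R).FullSubcategory ⥤ 𝒳.obj := Φ ⋙ D
  let θ' : D' ⋙ 𝒳.p ≅ (sieveObj R).ι ⋙ Over.forget S := Functor.isoWhiskerLeft Φ θ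
  obtain ⟨x, e, c, h1, h2⟩ := h.objects S R hR D' θ'
  let up : R.arrows.category → (sieveObj R).FullSubcategory := fun f =>
    ⟨f.obj, (inSieve_iff R _).2 f.property⟩
  refine ⟨x, e, fun f => c (up f), fun f => h1 (up f), ?_⟩
  intro f g k
  let k' : up f ⟶ up g := ⟨k.hom⟩
  exact h2 (up f) (up g) k'

end

section

variable {C : Type 1} [Category.{0} C]

theorem IsGerbe.locallyNonempty₀ {J : GrothendieckTopology C} {S₀ : C} {𝒳 : BasedCategory.{0, 1} C}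
    (h : IsGerbe J S₀ 𝒳) : ∃ R ∈ J S₀, ∀ (T : C) (h : T ⟶ S₀), R h →
      ∃ z : 𝒳.obj, Nonempty (𝒳.p.obj z ≅ T) := by
  obtain ⟨R, hR, H⟩ := h.locallyNonempty
  exact ⟨R, hR, fun T g hg => H T g ((inSieve_iff R _).2 hg)⟩

theorem IsGerbe.locallyIsomorphic₀ {J : GrothendieckTopology C} {S₀ : C}
    {𝒳 : BasedCategory.{0, 1} C} (h : IsGerbe J S₀ 𝒳) (x y : 𝒳.obj) (f : 𝒳.p.obj x ⟶ 𝒳.p.obj y) :
    ∃ R ∈ J (𝒳.p.obj x), ∀ (T : C) (h : T ⟶ 𝒳.p.obj x), R h →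
      ∃ (z : 𝒳.obj) (e : 𝒳.p.obj z ≅ T) (a : z ⟶ x) (b : z ⟶ y),
        𝒳.p.map a = e.hom ≫ h ∧ 𝒳.p.map b = e.hom ≫ h ≫ f := by
  obtain ⟨R, hR, H⟩ := h.locallyIsomorphic x y f
  exact ⟨R, hR, fun T g hg => H T g ((inSieve_iff R _).2 hg)⟩

end

end Pool.Agent.H666R3.NG
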