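import Pool.Agent.H666R3.NG.Cyc

set_option autoImplicit false
set_option linter.unusedSectionVars false

open CategoryTheory AlgebraicGeometry Opposite

namespace Pool.Agent.H666R3.NG

noncomputable section

variable {k : Type} [Field k]

/-- a finite scheme over `k` is the spectrum of a finite algebra -/
theorem exists_finite_alg (Q : Sch k) (hQ : IsFinite Q.hom) :
    ∃ (A : Type) (_ : CommRing A) (_ : Algebra k A) (_ : Module.Finite k A), Nonempty (Q ≅ SpecO k A) := by
  have hQ' : IsAffine Q.left := isAffine_of_isAffineHom Q.hom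
  let φ : k →+* Γ(Q.left, ⊤) := toRing Q.hom
  letI : Algebra k Γ(Q.left, ⊤) := φ.toAlgebra
  have hw : Q.left.isoSpec.hom ≫ Spec.map (CommRingCat.ofHom (algebraMap k Γ(Q.left, ⊤))) = Q.hom := by
    have h1 : Spec.map (CommRingCat.ofHom (algebraMap k Γ(Q.left, ⊤))) =
        Spec.map Q.hom.appTop ≫ Spec.map (Scheme.ΓSpecIso (CommRingCat.of k)).inv := by
      rw [← Spec.map_comp]
      rfl
    rw [h1, ← Category.assoc, Scheme.isoSpec_hom_naturality, Category.assoc]
    have h2 : (Spec (CommRingCat.of k)).isoSpec.hom = Spec.map (Scheme.ΓSpecIso (CommRingCat.of k)).hom :=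
      Scheme.isoSpec_Spec_hom _
    rw [h2, ← Spec.map_comp]
    simp
  refine ⟨Γ(Q.left, ⊤), inferInstance, inferInstance, ?_, ⟨Over.isoMk Q.left.isoSpec hw⟩⟩
  have h3 : IsFinite (Spec.map (CommRingCat.ofHom (algebraMap k Γ(Q.left, ⊤)))) := by
    have : IsFinite (Q.left.isoSpec.hom ≫ Spec.map (CommRingCat.ofHom (algebraMap k Γ(Q.left, ⊤)))) := by
      rw [hw]; exact hQ
    rwa [MorphismProperty.cancel_left_of_respectsIso @IsFinite] at this
  rw [IsFinite.SpecMap_iff] at h3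
  exact h3

/-- a covering sieve of a nonempty scheme contains a nonempty scheme -/
theorem exists_nonempty (T : Sch k) (hT : Nonempty T.left) (R : Sieve T) (hR : R ∈ fpqc k T) :
    ∃ (T' : Sch k) (h : T' ⟶ T), R h ∧ Nonempty T'.left := by
  by_contra hcon
  push Not at hcon
  have h1 : (⊥ : Sieve T) ∈ fpqc k T := by
    refine (fpqc k).transitive hR ⊥ ?_
    intro T' h hh
    rw [Sieve.pullback_bot]
    exact bot_mem T' (not_nonempty_iff.1 (by have := hcon T' h hh; exact not_nonempty_iff.2 this))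
  have h2 : (⊥ : Sieve T.left) ∈ Scheme.fpqcTopology T.left := by
    have := (GrothendieckTopology.mem_over_iff Scheme.fpqcTopology (⊥ : Sieve T)).1 h1
    rwa [map_bot] at this
  obtain ⟨t⟩ := hT
  let Z : Scheme.{0} := Spec (CommRingCat.of (ULift.{0} (ℤ × ℤ)))
  let ρ : (ℤ →+* Γ(T.left, ⊤)) := Int.castRingHom _
  let a₁ : T.left ⟶ Z := T.left.toSpecΓ ≫ Spec.map (CommRingCat.ofHom
    ((ρ.comp (RingHom.fst ℤ ℤ)).comp ULift.ringEquiv.toRingHom))
  let a₂ : T.left ⟶ Z := T.left.toSpecΓ ≫ Spec.map (CommRingCat.ofHom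
    ((ρ.comp (RingHom.snd ℤ ℤ)).comp ULift.ringEquiv.toRingHom))
  have h3 : a₁ = a₂ := by
    have hs : Presieve.IsSheaf Scheme.fpqcTopology (yoneda.obj Z) :=
      GrothendieckTopology.Subcanonical.isSheaf_of_isRepresentable _
    have hs' := (hs ⊥ h2).isSeparatedFor
    exact hs'.ext (fun Y f hf => hf.elim)
  have h4 : toRing a₁ = toRing a₂ := by rw [h3]
  have key : ∀ (f : ULift.{0} (ℤ × ℤ) →+* Γ(T.left, ⊤)),
      toRing (T.left.toSpecΓ ≫ Spec.map (CommRingCat.ofHom f)) = f := by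
    intro f
    rw [toRing_SpecMap]
    have : toRing (A := Γ(T.left, ⊤)) T.left.toSpecΓ = RingHom.id _ := by
      unfold toRing
      rw [Scheme.toSpecΓ_appTop]
      ext x
      simp
    rw [this, RingHom.id_comp]
  have h5 := congrArg (fun F : ULift.{0} (ℤ × ℤ) →+* Γ(T.left, ⊤) => F ⟨(1, 0)⟩) h4
  simp only [a₁, a₂] at h5
  rw [key, key] at h5
  have h6 : (1 : Γ(T.left, ⊤)) = 0 := by
    have e1 : ((ρ.comp (RingHom.fst ℤ ℤ)).comp ULift.ringEquiv.toRingHom)
      (⟨(1, 0)⟩ : ULift.{0} (ℤ × ℤ)) = 1 := by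
      show ρ 1 = 1
      exact map_one _
    have e2 : ((ρ.comp (RingHom.snd ℤ ℤ)).comp ULift.ringEquiv.toRingHom)
      (⟨(1, 0)⟩ : ULift.{0} (ℤ × ℤ)) = 0 := by
      show ρ 0 = 0
      exact map_zero _
    rw [e1, e2] at h5
    exact h5
  have h7 := congrArg (T.left.presheaf.germ ⊤ t trivial).hom h6
  rw [map_zero, map_one] at h7
  exact one_ne_zero h7

/-- every morphism of `k`-schemes between affine schemes comes from an algebra homomorphism -/
theorem exists_SpecM {A B : Type} [CommRing A] [Algebra k A] [CommRing B] [Algebra k B]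
    (m : SpecO k B ⟶ SpecO k A) : ∃ f : A →ₐ[k] B, m = SpecM f := by
  obtain ⟨g, hg⟩ := Spec.map_surjective m.left
  have hw : m.left ≫ Spec.map (CommRingCat.ofHom (algebraMap k A)) =
    Spec.map (CommRingCat.ofHom (algebraMap k B)) := Over.w m
  rw [← hg, ← Spec.map_comp] at hw
  have h1 := Spec.map_injective hw
  refine ⟨{ g.hom with commutes' := fun r => ?_ }, ?_⟩
  · have := congrArg (fun F => F.hom r) h1
    exact this
  · ext1
    rw [← hg]
    rfl

/-- finiteness of sets of points -/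
theorem finite_hom {A B : Type} [CommRing A] [Algebra k A] [CommRing B] [Algebra k B]
    (h : Finite (A →ₐ[k] B)) : Finite (SpecO k B ⟶ SpecO k A) := by
  refine Finite.of_surjective (fun f : A →ₐ[k] B => SpecM f) ?_
  intro m
  obtain ⟨f, hf⟩ := exists_SpecM m
  exact ⟨f, hf.symm⟩

/-- the point lemma -/
theorem exists_point {T Q U : Sch k} (hT : Nonempty T.left) (hQ : IsFinite Q.hom) (g : T ⟶ Q)
    (f₁ f₂ : Q ⟶ U) (h : g ≫ f₁ = g ≫ f₂) :
    ∃ (L : Type) (_ : Field L) (_ : Algebra k L) (_ : Module.Finite k L) (v : SpecO k L ⟶ Q),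
      v ≫ f₁ = v ≫ f₂ := by
  obtain ⟨A, _, _, hA, ⟨e⟩⟩ := exists_finite_alg Q hQ
  obtain ⟨t⟩ := hT
  let F := T.left.residueField t
  let τ : Spec F ⟶ T.left := T.left.fromSpecResidueField t
  obtain ⟨ψ, hψ⟩ := Spec.map_surjective (τ ≫ (g ≫ e.hom).left)
  let 𝔭 : Ideal A := RingHom.ker ψ.hom
  have hp : 𝔭.IsPrime := RingHom.ker_isPrime ψ.hom
  have hfin : Module.Finite k (A ⧸ 𝔭) := inferInstance
  have hfield : IsField (A ⧸ 𝔭) := by
    have : Algebra.IsIntegral k (A ⧸ 𝔭) := inferInstance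
    exact isField_of_isIntegral_of_isField' (Field.toIsField k)
  letI : Field (A ⧸ 𝔭) := hfield.toField
  let v : SpecO k (A ⧸ 𝔭) ⟶ Q := SpecM (Ideal.Quotient.mkₐ k 𝔭) ≫ e.inv
  refine ⟨A ⧸ 𝔭, inferInstance, inferInstance, hfin, v, ?_⟩
  let χ : (A ⧸ 𝔭) →+* F := Ideal.Quotient.lift 𝔭 ψ.hom (fun a ha => ha)
  let j : Spec F ⟶ Spec (CommRingCat.of (A ⧸ 𝔭)) := Spec.map (CommRingCat.ofHom χ)
  have hj : j ≫ v.left = τ ≫ g.left := by
    have h1 : j ≫ (SpecM (k := k) (Ideal.Quotient.mkₐ k 𝔭)).left = τ ≫ (g ≫ e.hom).left := by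
      rw [← hψ]
      simp only [j, Over.homMk_left]
      rw [← Spec.map_comp]
      rfl
    have h2 : v.left = (SpecM (k := k) (Ideal.Quotient.mkₐ k 𝔭)).left ≫ e.inv.left := rfl
    rw [h2, ← Category.assoc, h1]
    simp
  have hepi : Epi j := by
    have hflat : Flat j := by
      rw [Flat.SpecMap_iff]
      letI := χ.toAlgebra
      show Module.Flat (A ⧸ 𝔭) F
      infer_instance
    have hsurj : Surjective j := by
      refine ⟨fun y => ?_⟩
      have hinh : Nonempty (Spec F) := inferInstance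
      obtain ⟨y'⟩ := hinh
      exact ⟨y', Subsingleton.elim (α := PrimeSpectrum (A ⧸ 𝔭)) _ _⟩
    infer_instance
  ext1
  rw [← cancel_epi j]
  have h3 := congrArg (fun t => t.left) h
  simp only [Over.comp_left] at h3 ⊢
  rw [← Category.assoc, hj, Category.assoc, h3, ← Category.assoc, ← hj, Category.assoc]

end

end Pool.Agent.H666R3.NG
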