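import Pool.Agent.H666R3.NG.FinG

set_option autoImplicit false
set_option linter.unusedSectionVars false

open CategoryTheory AlgebraicGeometry Opposite

namespace Pool.Agent.H666R3.NG

noncomputable section

variable {k : Type} [Field k] [Fintype k] {𝒳 : OverSch k}

/-- a type of an object over the point -/
def IsType {u P : 𝒳.obj} (a b : P ⟶ u) (y : 𝒳.obj)
    (τ : SpecO k (AlgebraicClosure k) ⟶ 𝒳.p.obj P) : Prop :=
  ∃ (L : Type) (_ : Field L) (_ : Algebra k L) (_ : Module.Finite k L) (x : 𝒳.obj)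
    (e : 𝒳.p.obj x ≅ SpecO k L) (θ : x ⟶ y) (w : x ⟶ u) (j : L →ₐ[k] AlgebraicClosure k)
    (c : x ⟶ x) (ρ : x ⟶ P), 𝒳.p.map c = frO e ∧ c ≫ θ = θ ∧ ρ ≫ a = w ∧ ρ ≫ b = c ≫ w ∧
      τ = SpecM j ≫ e.inv ≫ 𝒳.p.map ρ

theorem exists_frob (hX : IsFibredInGroupoids 𝒳) {x y : 𝒳.obj} (ey : 𝒳.p.obj y ≅ pt k)
    {L : Type} [Field L] [Algebra k L] (e : 𝒳.p.obj x ≅ SpecO k L) (θ : x ⟶ y) :
    ∃ c : x ⟶ x, 𝒳.p.map c = frO e ∧ c ≫ θ = θ := by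
  obtain ⟨c, hc, _⟩ := lift_unique hX θ θ (frO e) (pt_unique' ey _ _ _)
  exact ⟨c, hc⟩

theorem frob_pow (hX : IsFibredInGroupoids 𝒳) {x y : 𝒳.obj} 
    {L : Type} [Field L] [Algebra k L] [Module.Finite k L] (e : 𝒳.p.obj x ≅ SpecO k L) (θ : x ⟶ y)
    {c : x ⟶ x} (hc : 𝒳.p.map c = frO e) (hθ : c ≫ θ = θ) :
    it c (Module.finrank k L) = 𝟙 x := by
  haveI : Finite L := Module.finite_of_finite k
  apply hom_eq hX θ
  · rw [map_it, hc, CategoryTheory.Functor.map_id]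
    exact (isCyclic_frO e).pow
  · rw [Category.id_comp]
    generalize Module.finrank k L = n
    induction n with
    | zero => simp
    | succ n ih => rw [it_succ, Category.assoc, hθ, ih]

theorem pt_iso_spec : Nonempty (pt k ≅ SpecO k k) := by
  refine ⟨Over.isoMk (Iso.refl _) ?_⟩
  simp only [Iso.refl_hom, Over.mk_hom]
  exact (Category.id_comp _).trans (Spec.map_id _)

theorem exists_type (hX : IsFibredInGroupoids 𝒳) {u : 𝒳.obj} (hu : IsAtlas u) {P : 𝒳.obj}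
    (a b : P ⟶ u) (hP : Nonempty (Limits.IsLimit (Limits.BinaryFan.mk a b))) {y : 𝒳.obj}
    (ey : 𝒳.p.obj y ≅ pt k) : ∃ τ, IsType a b y τ := by
  obtain ⟨i⟩ := pt_iso_spec (k := k)
  obtain ⟨L, _, _, _, x, e, θ, w, _⟩ := exists_atlas_point hX hu (ey ≪≫ i)
    (nonempty_of_map ey.inv (show Nonempty (Spec (CommRingCat.of k)) from inferInstance))
  obtain ⟨c, hc, hcθ⟩ := exists_frob hX ey e θ
  obtain ⟨ρ, hρ, hρ'⟩ := lift_prod hP w (c ≫ w)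
  let j : L →ₐ[k] AlgebraicClosure k := IsAlgClosed.lift
  exact ⟨_, L, inferInstance, inferInstance, inferInstance, x, e, θ, w, j, c, ρ, hc, hcθ, hρ, hρ',
    rfl⟩

theorem epi_SpecM {L K : Type} [Field L] [Algebra k L] [Field K] [Algebra k K] (f : L →ₐ[k] K)
    {Y : Sch k} (a b : SpecO k L ⟶ Y) (h : SpecM f ≫ a = SpecM f ≫ b) : a = b := by
  let j : Spec (CommRingCat.of K) ⟶ Spec (CommRingCat.of L) := Spec.map (CommRingCat.ofHom f.toRingHom)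
  have hepi : Epi j := by
    have hflat : Flat j := by
      rw [Flat.SpecMap_iff]
      letI := f.toRingHom.toAlgebra
      show Module.Flat L K
      infer_instance
    have hsurj : Surjective j := by
      refine ⟨fun y => ?_⟩
      have hinh : Nonempty (Spec (CommRingCat.of K)) := inferInstance
      obtain ⟨y'⟩ := hinh
      exact ⟨y', Subsingleton.elim (α := PrimeSpectrum L) _ _⟩
    infer_instance
  ext1
  rw [← cancel_epi j]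
  exact congrArg (fun t => t.left) h

/-- objects with the same type are isomorphic -/
theorem iso_of_type (hst : IsStack (fpqc k) 𝒳) {u : 𝒳.obj} {P : 𝒳.obj}
    (a b : P ⟶ u) {y y' : 𝒳.obj} (ey : 𝒳.p.obj y ≅ pt k) (ey' : 𝒳.p.obj y' ≅ pt k)
    {τ : SpecO k (AlgebraicClosure k) ⟶ 𝒳.p.obj P} (hy : IsType a b y τ) (hy' : IsType a b y' τ) :
    Nonempty (y ≅ y') := by
  have hX := hst.fibred
  obtain ⟨L₁, _, _, _, x₁, e₁, θ₁, w₁, j₁, c₁, ρ₁, hc₁, hθ₁, hρ₁, hρ₁', hτ₁⟩ := hy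
  obtain ⟨L₂, _, _, _, x₂, e₂, θ₂, w₂, j₂, c₂, ρ₂, hc₂, hθ₂, hρ₂, hρ₂', hτ₂⟩ := hy'
  let L : IntermediateField k (AlgebraicClosure k) := j₁.fieldRange ⊔ j₂.fieldRange
  haveI : FiniteDimensional k j₁.fieldRange := by
    have : Module.Finite k j₁.range := Module.Finite.of_surjective
      (j₁.rangeRestrict.toLinearMap : L₁ →ₗ[k] j₁.range) j₁.rangeRestrict_surjective
    exact this
  haveI : FiniteDimensional k j₂.fieldRange := by
    have : Module.Finite k j₂.range := Module.Finite.of_surjective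
      (j₂.rangeRestrict.toLinearMap : L₂ →ₗ[k] j₂.range) j₂.rangeRestrict_surjective
    exact this
  haveI : FiniteDimensional k L := IntermediateField.finiteDimensional_sup _ _
  let i₁ : L₁ →ₐ[k] L := (IntermediateField.inclusion le_sup_left).comp j₁.rangeRestrict
  let i₂ : L₂ →ₐ[k] L := (IntermediateField.inclusion le_sup_right).comp j₂.rangeRestrict
  have hi₁ : L.val.comp i₁ = j₁ := by ext; rfl
  have hi₂ : L.val.comp i₂ = j₂ := by ext; rfl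
  obtain ⟨x₁', e₁', s₁, hs₁⟩ := exists_pull hX x₁ (SpecM i₁ ≫ e₁.inv)
  obtain ⟨x₂', e₂', s₂, hs₂⟩ := exists_pull hX x₂ (SpecM i₂ ≫ e₂.inv)
  have hν : SpecM i₁ ≫ e₁.inv ≫ 𝒳.p.map ρ₁ = SpecM i₂ ≫ e₂.inv ≫ 𝒳.p.map ρ₂ := by
    apply epi_SpecM L.val
    rw [← Category.assoc, ← Category.assoc (SpecM L.val), SpecM_comp, SpecM_comp, hi₁, hi₂, ← hτ₁,
      ← hτ₂]
  obtain ⟨χ, ⟨hχ, hχ'⟩, _⟩ := lift_unique hX (s₂ ≫ ρ₂) (s₁ ≫ ρ₁) (e₁'.hom ≫ e₂'.inv) (by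
    rw [Functor.map_comp, Functor.map_comp, hs₁, hs₂]
    simp only [Category.assoc, Iso.inv_hom_id_assoc]
    rw [hν])
  obtain ⟨c, ⟨hc, hc'⟩, _⟩ := lift_unique hX s₁ (s₁ ≫ c₁) (frO e₁') (by
    rw [Functor.map_comp, hc₁]
    exact frO_nat e₁' e₁ _)
  have hcθ₁ : c ≫ s₁ ≫ θ₁ = s₁ ≫ θ₁ := by
    rw [← Category.assoc, hc', Category.assoc, hθ₁]
  have hkey : c ≫ χ ≫ s₂ = (χ ≫ s₂) ≫ c₂ := by
    apply hom_eq hX w₂
    · rw [Functor.map_comp, hc, Functor.map_comp _ _ c₂, hc₂]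
      exact frO_nat e₁' e₂ _
    · have h1 : (c ≫ χ ≫ s₂) ≫ w₂ = s₁ ≫ c₁ ≫ w₁ := by
        rw [← hρ₂]
        calc (c ≫ χ ≫ s₂) ≫ ρ₂ ≫ a = c ≫ (χ ≫ s₂ ≫ ρ₂) ≫ a := by simp only [Category.assoc]
          _ = (c ≫ s₁) ≫ ρ₁ ≫ a := by rw [hχ']; simp only [Category.assoc]
          _ = s₁ ≫ c₁ ≫ w₁ := by rw [hc', hρ₁, Category.assoc]
      have h2 : ((χ ≫ s₂) ≫ c₂) ≫ w₂ = s₁ ≫ c₁ ≫ w₁ := by
        calc ((χ ≫ s₂) ≫ c₂) ≫ w₂ = (χ ≫ s₂) ≫ ρ₂ ≫ b := by rw [hρ₂', Category.assoc]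
          _ = (χ ≫ s₂ ≫ ρ₂) ≫ b := by simp only [Category.assoc]
          _ = s₁ ≫ c₁ ≫ w₁ := by rw [hχ', Category.assoc, hρ₁']
      rw [h1, h2]
  have hcθ₂ : c ≫ (χ ≫ s₂) ≫ θ₂ = (χ ≫ s₂) ≫ θ₂ := by
    rw [← Category.assoc, hkey, Category.assoc, hθ₂]
  haveI : Finite L := Module.finite_of_finite k
  have hcyc : IsCyclic (fpqc k) (𝒳.p.map c) (Module.finrank k L) := by
    rw [hc]; exact isCyclic_frO e₁'
  have hcn := frob_pow hX e₁' (s₁ ≫ θ₁) hc hcθ₁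
  obtain ⟨e, ⟨he, _⟩, _⟩ := desc_mor hX hst.morphisms₀ c hcn hcyc (s₁ ≫ θ₁) ((χ ≫ s₂) ≫ θ₂) hcθ₁ hcθ₂
    (ey.hom ≫ ey'.inv) (pt_unique' ey' _ _ _) (pt_unique' ey) (sieveOf _ _)
    (sieveOf_mem L e₁' ey) (fun T _ hT => hT) ⟨𝟙 _⟩
  haveI : IsIso e := isIso_of_base hX e (by rw [he]; infer_instance)
  exact ⟨asIso e⟩

/-- finiteness of automorphism sets -/
theorem finite_aut (hst : IsStack (fpqc k) 𝒳) {u : 𝒳.obj} (hu : IsAtlas u) {y : 𝒳.obj}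
    (ey : 𝒳.p.obj y ≅ pt k) : Finite (y ⟶ y) := by
  have hX := hst.fibred
  obtain ⟨i⟩ := pt_iso_spec (k := k)
  obtain ⟨L, _, _, _, x, e, θ, w, _⟩ := exists_atlas_point hX hu (ey ≪≫ i)
    (nonempty_of_map ey.inv (show Nonempty (Spec (CommRingCat.of k)) from inferInstance))
  haveI : Finite L := Module.finite_of_finite k
  obtain ⟨c, hc, hcθ⟩ := exists_frob hX ey e θ
  have hE := finite_end hX (fun z => by
    obtain ⟨P, a, b, h1, h2, _⟩ := hu.2 z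
    exact ⟨P, a, b, h1, h2⟩) e w
  have key : ∀ g : y ⟶ y, ∃ f : {f : x ⟶ x // 𝒳.p.map f = 𝟙 _}, f.1 ≫ θ = θ ≫ g := by
    intro g
    obtain ⟨f, ⟨hf, hf'⟩, _⟩ := lift_unique hX θ (θ ≫ g) (𝟙 _) (pt_unique' ey _ _ _)
    exact ⟨⟨f, hf⟩, hf'⟩
  choose F hF using key
  refine Finite.of_injective F ?_
  intro g g' hgg
  have h1 : θ ≫ g = θ ≫ g' := by rw [← hF, ← hF, hgg]
  have hcyc : IsCyclic (fpqc k) (𝒳.p.map c) (Module.finrank k L) := by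
    rw [hc]; exact isCyclic_frO e
  obtain ⟨s, _, hs⟩ := desc_mor hX hst.morphisms₀ c (frob_pow hX e θ hc hcθ) hcyc θ (θ ≫ g) hcθ
    (by rw [← Category.assoc, hcθ]) (𝟙 _) (pt_unique' ey _ _ _) (pt_unique' ey) (sieveOf _ _)
    (sieveOf_mem L e ey) (fun T _ hT => hT) ⟨𝟙 _⟩
  rw [hs g ⟨pt_unique' ey _ _ _, rfl⟩, hs g' ⟨pt_unique' ey _ _ _, h1.symm⟩]

theorem finite_hom_pt (hst : IsStack (fpqc k) 𝒳) {u : 𝒳.obj} (hu : IsAtlas u) {y y' : 𝒳.obj}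
    (ey : 𝒳.p.obj y ≅ pt k) (ey' : 𝒳.p.obj y' ≅ pt k) : Finite (y ⟶ y') := by
  by_cases h : Nonempty (y ⟶ y')
  · obtain ⟨e⟩ := h
    have hiso : IsIso (𝒳.p.map e) := by
      have : 𝒳.p.map e = ey.hom ≫ ey'.inv := pt_unique' ey' _ _ _
      rw [this]; infer_instance
    haveI : IsIso e := isIso_of_base hst.fibred e hiso
    haveI := finite_aut hst hu ey
    refine Finite.of_injective (fun g : y ⟶ y' => g ≫ inv e) ?_
    intro g g' hg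
    exact (cancel_mono (inv e)).1 hg
  · rw [not_nonempty_iff] at h
    infer_instance

end

end Pool.Agent.H666R3.NG
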